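/-!
# The search over initial segments of thin posets

A finite poset is numbered by `0, 1, 2, …` such that the lower elements of an element come before it; the
`i`-th element is given by `(2 ^ i, D, c)`: the binary digits of `D` are the elements below it, and `c` is
the number of elements which are already numbered and incomparable to it.  The definitions use the
recursors directly, to be evaluated by the kernel.
-/

set_option autoImplicit false

namespace Pool.Agent.H552.TH

/-- entries of tables: a lower set `J`, the number `e` of its linear extensions, and the number with the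
digits `f a b` (`a, b < 6`, of 32 bits): the number of linear extensions in which `a` comes before `b` -/
abbrev Entry := Nat × Nat × Nat

/-- evaluate `n`, then continue -/
@[reducible] noncomputable def frc {α : Type} (n : Nat) (k : Nat → α) : α :=
  @Nat.rec (fun _ => α) (k 0) (fun m _ => k (Nat.succ m)) n

/-- the unit of the digit `b` if `b` is not in `J`, with `u = 2 ^ b` -/
noncomputable def wb (J u : Nat) : Nat := @Bool.rec (fun _ => Nat) 0 (Nat.pow u 32) (Nat.beq (Nat.land J u) 0)

/-- sum of the units of the digits `b < 6` not in `J` -/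
noncomputable def W (J : Nat) : Nat :=
  wb J 1 + (wb J 2 + (wb J 4 + (wb J 8 + (wb J 16 + wb J 32))))

/-- add an entry to a table -/
noncomputable def ins (J e C : Nat) (L : List Entry) : List Entry :=
  @List.rec Entry (fun _ => List Entry) [(J, e, C)]
    (fun h L ih => @Prod.rec _ _ (fun _ => List Entry) (fun J' r =>
      @Prod.rec _ _ (fun _ => List Entry) (fun e' C' =>
        @Bool.rec (fun _ => List Entry) ((J', e', C') :: ih)
          (frc (Nat.add e' e) fun e2 => frc (Nat.add C' C) fun C2 => (J', e2, C2) :: L)
          (Nat.beq J J')) r) h) L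

/-- add to `R` all sets which arise from `J` by one element; `r` bounds the number of elements which are
not in `J` -/
noncomputable def push (J e C : Nat) (L : List (Nat × Nat × Nat)) : Nat → List Entry → List Entry :=
  @List.rec (Nat × Nat × Nat) (fun _ => Nat → List Entry → List Entry) (fun _ R => R)
    (fun h _ ih r R => @Prod.rec _ _ (fun _ => List Entry) (fun pw h2 =>
      @Prod.rec _ _ (fun _ => List Entry) (fun D _ =>
        @Nat.rec (fun _ => List Entry) R (fun r' _ =>
          @Bool.rec (fun _ => List Entry) (ih r R)
            (@Bool.rec (fun _ => List Entry) (ih r' R)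
              (frc (Nat.lor J pw) fun J2 =>
                @Bool.rec (fun _ => List Entry) (ih r' (ins J2 e C R))
                  (frc (Nat.add C (Nat.mul (Nat.mul e (Nat.pow pw 192)) (W J2))) fun C2 =>
                    ih r' (ins J2 e C2 R))
                  (Nat.ble pw 32))
              (Nat.beq (Nat.land D J) D))
            (Nat.beq (Nat.land J pw) 0)) r) h2) h) L

/-- the next table -/
noncomputable def adv (Es : List (Nat × Nat × Nat)) (r : Nat) (T : List Entry) :
    List Entry → List Entry :=
  @List.rec Entry (fun _ => List Entry → List Entry) (fun R => R)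
    (fun h _ ih R => @Prod.rec _ _ (fun _ => List Entry) (fun J h2 =>
      @Prod.rec _ _ (fun _ => List Entry) (fun e C => ih (push J e C Es r R)) h2) h) T

/-- the table after `j` steps -/
noncomputable def advN (Es : List (Nat × Nat × Nat)) (j : Nat) : Nat → List Entry → List Entry :=
  @Nat.rec (fun _ => Nat → List Entry → List Entry) (fun _ T => T)
    (fun _ ih r T => ih (Nat.pred r) (adv Es r T [])) j

/-- the pair with the position `sh` is balanced in all entries -/
noncomputable def chk1 (p q q2 sh : Nat) (T : List Entry) : Bool :=
  @List.rec Entry (fun _ => Bool) true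
    (fun h _ ih => @Prod.rec _ _ (fun _ => Bool) (fun _ h2 =>
      @Prod.rec _ _ (fun _ => Bool) (fun e C =>
        frc (Nat.mul q (Nat.mod (Nat.div C sh) 4294967296)) fun f =>
          @Bool.rec (fun _ => Bool) false
            (@Bool.rec (fun _ => Bool) false
              (@Bool.rec (fun _ => Bool) false ih (Nat.blt e 4294967296))
              (Nat.ble f (Nat.mul q2 e)))
            (Nat.ble (Nat.mul p e) f)) h2) h) T

/-- some pair is balanced in all entries -/
noncomputable def chk (p q q2 : Nat) (T : List Entry) (L : List Nat) : Bool :=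
  @List.rec Nat (fun _ => Bool) false
    (fun sh _ ih => @Bool.rec (fun _ => Bool) ih true (chk1 p q q2 sh T)) L

/-- all possible new elements -/
noncomputable def gen (f : Nat → Nat → Bool) (K : Nat) (L : List (Nat × Nat × Nat)) :
    Nat → Nat → Nat → Bool :=
  @List.rec (Nat × Nat × Nat) (fun _ => Nat → Nat → Nat → Bool) (fun _ N c => f N c)
    (fun h _ ih F N c => @Prod.rec _ _ (fun _ => Bool) (fun pw h2 =>
      @Prod.rec _ _ (fun _ => Bool) (fun D i =>
        @Bool.rec (fun _ => Bool) false
          (@Bool.rec (fun _ => Bool) true
            (@Bool.rec (fun _ => Bool) true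
              (@Bool.rec (fun _ => Bool) true (ih F N (Nat.succ c)) (Nat.blt c K)) (Nat.blt i K))
            (Nat.beq (Nat.land F pw) 0))
          (frc (Nat.lor F D) fun F2 => frc (Nat.lor N pw) fun N2 => ih F2 N2 c)) h2) h) L

/-- the new numbers of incomparable elements -/
noncomputable def upd (N : Nat) (L : List (Nat × Nat × Nat)) : List (Nat × Nat × Nat) :=
  @List.rec (Nat × Nat × Nat) (fun _ => List (Nat × Nat × Nat)) []
    (fun h _ ih => @Prod.rec _ _ (fun _ => List (Nat × Nat × Nat)) (fun pw h2 =>
      @Prod.rec _ _ (fun _ => List (Nat × Nat × Nat)) (fun D i =>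
        (pw, D, @Bool.rec (fun _ => Nat) i (Nat.succ i) (Nat.beq (Nat.land N pw) 0)) :: ih) h2) h) L

/-- maximum -/
noncomputable def mx (a b : Nat) : Nat := @Bool.rec (fun _ => Nat) a b (Nat.ble a b)

/-- the positions of the digits of some pairs `a < b < 6` -/
def prs : List Nat :=
  [2 ^ 32, 2 ^ (192 + 64), 2 ^ (576 + 128), 2 ^ (384 + 96), 2 ^ 64, 2 ^ (192 + 96),
    2 ^ (768 + 160), 2 ^ (384 + 128), 2 ^ 96, 2 ^ (576 + 160), 2 ^ (192 + 128), 2 ^ (384 + 160)]

/-- the search -/
noncomputable def run (K p q q2 : Nat) (fuel : Nat) :
    Nat → Nat → List (Nat × Nat × Nat) → Nat → Nat → List Entry → Bool :=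
  @Nat.rec (fun _ => Nat → Nat → List (Nat × Nat × Nat) → Nat → Nat → List Entry → Bool)
    (fun _ _ _ _ _ _ => false)
    (fun _ ih m pw Es key s T =>
      @Bool.rec (fun _ => Bool)
        (gen (fun N c =>
          frc (Nat.add (Nat.mul (Nat.sub m c) 1048576) N) fun key2 =>
          @Bool.rec (fun _ => Bool)
            (ih (Nat.succ m) (Nat.mul 2 pw) ((pw, N, c) :: upd N Es) key2 s T)
            true (Nat.blt key2 key)) K Es 0 0 0)
        (frc (mx s (mx (Nat.sub m K) (Nat.div key 1048576))) fun s' =>
          (fun T' => @Bool.rec (fun _ => Bool)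
            (gen (fun N c =>
              frc (Nat.add (Nat.mul (Nat.sub m c) 1048576) N) fun key2 =>
              @Bool.rec (fun _ => Bool)
                (ih (Nat.succ m) (Nat.mul 2 pw) ((pw, N, c) :: upd N Es) key2 s' T')
                true (Nat.blt key2 key)) K Es 0 0 0)
            true (chk p q q2 T' prs)) (advN Es (Nat.sub s' s) (Nat.sub m s) T))
        (Nat.ble 6 m)) fuel

end Pool.Agent.H552.TH
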