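import Mathlib
import Pool.Agent.H552.TH.Defs

/-! Equations for the functions of the search. -/

set_option autoImplicit false

namespace Pool.Agent.H552.TH

lemma frc_eq {α : Type} (n : ℕ) (k : ℕ → α) : frc n k = k n := by
  cases n <;> rfl

lemma brec {α : Type} (x y : α) (b : Bool) :
    @Bool.rec (fun _ => α) x y b = if b = true then y else x := by
  cases b <;> simp

lemma ins_nil (J e C : ℕ) : ins J e C [] = [(J, e, C)] := rfl

lemma ins_cons (J e C J' e' C' : ℕ) (L : List Entry) :
    ins J e C ((J', e', C') :: L) =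
      if J = J' then (J', e' + e, C' + C) :: L else (J', e', C') :: ins J e C L := by
  have h : ins J e C ((J', e', C') :: L) =
      @Bool.rec (fun _ => List Entry) ((J', e', C') :: ins J e C L)
        (frc (Nat.add e' e) fun e2 => frc (Nat.add C' C) fun C2 => (J', e2, C2) :: L)
        (Nat.beq J J') := rfl
  rw [h, brec, frc_eq, frc_eq]
  by_cases hJ : J = J'
  · rw [if_pos (by rw [hJ]; exact Nat.beq_refl _), if_pos hJ]
    rfl
  · rw [if_neg (by rw [Nat.beq_eq]; exact hJ), if_neg hJ]

lemma push_nil (J e C r : ℕ) (R : List Entry) : push J e C [] r R = R := rfl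

lemma push_zero (J e C : ℕ) (h : ℕ × ℕ × ℕ) (L : List (ℕ × ℕ × ℕ)) (R : List Entry) :
    push J e C (h :: L) 0 R = R := rfl

lemma push_succ (J e C pw D i r : ℕ) (L : List (ℕ × ℕ × ℕ)) (R : List Entry) :
    push J e C ((pw, D, i) :: L) (r + 1) R =
      if J &&& pw = 0 then
        if D &&& J = D then
          push J e C L r (ins (J ||| pw) e
            (if pw ≤ 32 then C + e * pw ^ 192 * W (J ||| pw) else C) R)
        else push J e C L r R
      else push J e C L (r + 1) R := by
  have h : push J e C ((pw, D, i) :: L) (r + 1) R =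
      @Bool.rec (fun _ => List Entry) (push J e C L (r + 1) R)
            (@Bool.rec (fun _ => List Entry) (push J e C L r R)
              (frc (Nat.lor J pw) fun J2 =>
                @Bool.rec (fun _ => List Entry) (push J e C L r (ins J2 e C R))
                  (frc (Nat.add C (Nat.mul (Nat.mul e (Nat.pow pw 192)) (W J2))) fun C2 =>
                    push J e C L r (ins J2 e C2 R))
                  (Nat.ble pw 32))
              (Nat.beq (Nat.land D J) D))
            (Nat.beq (Nat.land J pw) 0) := rfl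
  rw [h, brec, brec, frc_eq, brec, frc_eq]
  have e1 : (Nat.beq (Nat.land J pw) 0 = true) = (J &&& pw = 0) := by
    rw [Nat.beq_eq]; rfl
  have e2 : (Nat.beq (Nat.land D J) D = true) = (D &&& J = D) := by
    rw [Nat.beq_eq]; rfl
  have e3 : (Nat.ble pw 32 = true) = (pw ≤ 32) := by
    rw [Nat.ble_eq]
  simp only [e1, e2, e3]
  by_cases h1 : J &&& pw = 0
  · rw [if_pos h1, if_pos h1]
    by_cases h2 : D &&& J = D
    · rw [if_pos h2, if_pos h2]
      by_cases h3 : pw ≤ 32
      · rw [if_pos h3, if_pos h3]; rfl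
      · rw [if_neg h3, if_neg h3]; rfl
    · rw [if_neg h2, if_neg h2]
  · rw [if_neg h1, if_neg h1]

lemma adv_nil (Es : List (ℕ × ℕ × ℕ)) (r : ℕ) (R : List Entry) : adv Es r [] R = R := rfl

lemma adv_cons (Es : List (ℕ × ℕ × ℕ)) (r J e C : ℕ) (T R : List Entry) :
    adv Es r ((J, e, C) :: T) R = adv Es r T (push J e C Es r R) := rfl

lemma advN_zero (Es : List (ℕ × ℕ × ℕ)) (r : ℕ) (T : List Entry) : advN Es 0 r T = T := rfl

lemma advN_succ (Es : List (ℕ × ℕ × ℕ)) (j r : ℕ) (T : List Entry) :
    advN Es (j + 1) r T = advN Es j (r - 1) (adv Es r T []) := rfl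

lemma chk1_nil (p q q2 sh : ℕ) : chk1 p q q2 sh [] = true := rfl

lemma chk1_cons (p q q2 sh J e C : ℕ) (T : List Entry) :
    chk1 p q q2 sh ((J, e, C) :: T) = true ↔
      p * e ≤ q * (C / sh % 4294967296) ∧ q * (C / sh % 4294967296) ≤ q2 * e ∧ e < 4294967296 ∧
        chk1 p q q2 sh T = true := by
  have h : chk1 p q q2 sh ((J, e, C) :: T) =
      (frc (Nat.mul q (Nat.mod (Nat.div C sh) 4294967296)) fun f =>
          @Bool.rec (fun _ => Bool) false
            (@Bool.rec (fun _ => Bool) false
              (@Bool.rec (fun _ => Bool) false (chk1 p q q2 sh T) (Nat.blt e 4294967296))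
              (Nat.ble f (Nat.mul q2 e)))
            (Nat.ble (Nat.mul p e) f)) := rfl
  rw [h, frc_eq, brec, brec, brec]
  have e1 : (Nat.ble (Nat.mul p e) (Nat.mul q (Nat.mod (Nat.div C sh) 4294967296)) = true) =
      (p * e ≤ q * (C / sh % 4294967296)) := by rw [Nat.ble_eq]; rfl
  have e2 : (Nat.ble (Nat.mul q (Nat.mod (Nat.div C sh) 4294967296)) (Nat.mul q2 e) = true) =
      (q * (C / sh % 4294967296) ≤ q2 * e) := by rw [Nat.ble_eq]; rfl
  have e3 : (Nat.blt e 4294967296 = true) = (e < 4294967296) := by rw [Nat.blt_eq]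
  simp only [e1, e2, e3]
  split_ifs with k1 k2 k3
  · simp only [k1, k2, k3, true_and]
  · simp only [k1, k2, k3, true_and, false_and, Bool.false_eq_true]
  · simp only [k2, false_and, and_false, Bool.false_eq_true]
  · simp only [k1, false_and, Bool.false_eq_true]

lemma chk_nil (p q q2 : ℕ) (T : List Entry) : chk p q q2 T [] = false := rfl

lemma chk_cons (p q q2 sh : ℕ) (T : List Entry) (L : List ℕ) :
    chk p q q2 T (sh :: L) = true ↔ chk1 p q q2 sh T = true ∨ chk p q q2 T L = true := by
  have h : chk p q q2 T (sh :: L) =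
      @Bool.rec (fun _ => Bool) (chk p q q2 T L) true (chk1 p q q2 sh T) := rfl
  rw [h, brec]
  split_ifs with h1
  · simp [h1]
  · simp [h1]

lemma chk_mem {p q q2 : ℕ} {T : List Entry} {L : List ℕ} (h : chk p q q2 T L = true) :
    ∃ sh ∈ L, chk1 p q q2 sh T = true := by
  induction L with
  | nil => rw [chk_nil] at h; exact absurd h (by simp)
  | cons sh L ih =>
    rw [chk_cons] at h
    rcases h with h | h
    · exact ⟨sh, by simp, h⟩
    · obtain ⟨s, h1, h2⟩ := ih h
      exact ⟨s, by simp [h1], h2⟩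

lemma gen_nil (f : ℕ → ℕ → Bool) (K F N c : ℕ) : gen f K [] F N c = f N c := rfl

lemma gen_cons (f : ℕ → ℕ → Bool) (K pw D i F N c : ℕ) (L : List (ℕ × ℕ × ℕ)) :
    gen f K ((pw, D, i) :: L) F N c = true ↔
      gen f K L (F ||| D) (N ||| pw) c = true ∧
        (F &&& pw = 0 → i < K → c < K → gen f K L F N (c + 1) = true) := by
  have h : gen f K ((pw, D, i) :: L) F N c =
      @Bool.rec (fun _ => Bool) false
          (@Bool.rec (fun _ => Bool) true
            (@Bool.rec (fun _ => Bool) true
              (@Bool.rec (fun _ => Bool) true (gen f K L F N (c + 1)) (Nat.blt c K)) (Nat.blt i K))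
            (Nat.beq (Nat.land F pw) 0))
          (frc (Nat.lor F D) fun F2 => frc (Nat.lor N pw) fun N2 => gen f K L F2 N2 c) := rfl
  rw [h, frc_eq, frc_eq, brec, brec, brec, brec]
  have e1 : (Nat.beq (Nat.land F pw) 0 = true) = (F &&& pw = 0) := by rw [Nat.beq_eq]; rfl
  have e2 : (Nat.blt i K = true) = (i < K) := by rw [Nat.blt_eq]
  have e3 : (Nat.blt c K = true) = (c < K) := by rw [Nat.blt_eq]
  simp only [e1, e2, e3]
  have e4 : gen f K L (Nat.lor F D) (Nat.lor N pw) c = gen f K L (F ||| D) (N ||| pw) c := rfl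
  rw [e4]
  by_cases k0 : gen f K L (F ||| D) (N ||| pw) c = true
  · simp only [k0, if_true, true_and]
    split_ifs with k1 k2 k3
    · simp only [k1, k2, k3, true_imp_iff, forall_const]
    · simp [k3]
    · simp [k2]
    · simp [k1]
  · simp [k0]

lemma upd_nil (N : ℕ) : upd N [] = [] := rfl

lemma upd_cons (N pw D i : ℕ) (L : List (ℕ × ℕ × ℕ)) :
    upd N ((pw, D, i) :: L) = (pw, D, if N &&& pw = 0 then i + 1 else i) :: upd N L := by
  have h : upd N ((pw, D, i) :: L) =
      (pw, D, @Bool.rec (fun _ => ℕ) i (Nat.succ i) (Nat.beq (Nat.land N pw) 0)) :: upd N L := rfl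
  rw [h, brec]
  have e1 : (Nat.beq (Nat.land N pw) 0 = true) = (N &&& pw = 0) := by rw [Nat.beq_eq]; rfl
  simp only [e1]

lemma mx_eq (a b : ℕ) : mx a b = max a b := by
  unfold mx
  rw [brec]
  have e1 : (Nat.ble a b = true) = (a ≤ b) := by rw [Nat.ble_eq]
  simp only [e1]
  split_ifs with h
  · rw [max_eq_right h]
  · rw [max_eq_left (by omega)]

lemma lit (B m c N : ℕ) : Nat.add (Nat.mul (Nat.sub m c) B) N = (m - c) * B + N := rfl

lemma lit2 (B s m K key : ℕ) : max s (max (Nat.sub m K) (Nat.div key B)) =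
    max s (max (m - K) (key / B)) := rfl

lemma test_eq (X : ℕ → Bool) (B m c N key : ℕ) :
    (frc (Nat.add (Nat.mul (Nat.sub m c) B) N) fun key2 =>
      @Bool.rec (fun _ => Bool) (X key2) true (Nat.blt key2 key)) =
    if (m - c) * B + N < key then true else X ((m - c) * B + N) := by
  rw [frc_eq, brec, lit]
  by_cases h : (m - c) * B + N < key
  · rw [if_pos h, if_pos (by rw [Nat.blt_eq]; exact h)]
  · rw [if_neg h, if_neg (by rw [Nat.blt_eq]; exact h)]

/-- the test of the children -/
noncomputable def child (K p q q2 fuel m pw : ℕ) (Es : List (ℕ × ℕ × ℕ)) (key s : ℕ)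
    (T : List Entry) (N c : ℕ) : Bool :=
  if (m - c) * 1048576 + N < key then true
  else run K p q q2 fuel (m + 1) (2 * pw) ((pw, N, c) :: upd N Es) ((m - c) * 1048576 + N) s T

lemma run_zero (K p q q2 m pw : ℕ) (Es : List (ℕ × ℕ × ℕ)) (key s : ℕ) (T : List Entry) :
    run K p q q2 0 m pw Es key s T = false := rfl

lemma run_succ (K p q q2 fuel m pw : ℕ) (Es : List (ℕ × ℕ × ℕ)) (key s : ℕ) (T : List Entry) :
    run K p q q2 (fuel + 1) m pw Es key s T =
      if 6 ≤ m then
        if chk p q q2 (advN Es (max s (max (m - K) (key / 1048576)) - s) (m - s) T) prs = true then true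
        else gen (child K p q q2 fuel m pw Es key (max s (max (m - K) (key / 1048576)))
          (advN Es (max s (max (m - K) (key / 1048576)) - s) (m - s) T)) K Es 0 0 0
      else gen (child K p q q2 fuel m pw Es key s T) K Es 0 0 0 := by
  have h : run K p q q2 (fuel + 1) m pw Es key s T =
      @Bool.rec (fun _ => Bool)
        (gen (fun N c =>
          frc (Nat.add (Nat.mul (Nat.sub m c) 1048576) N) fun key2 =>
          @Bool.rec (fun _ => Bool)
            (run K p q q2 fuel (Nat.succ m) (Nat.mul 2 pw) ((pw, N, c) :: upd N Es) key2 s T)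
            true (Nat.blt key2 key)) K Es 0 0 0)
        (frc (mx s (mx (Nat.sub m K) (Nat.div key 1048576))) fun s' =>
          (fun T' => @Bool.rec (fun _ => Bool)
            (gen (fun N c =>
              frc (Nat.add (Nat.mul (Nat.sub m c) 1048576) N) fun key2 =>
              @Bool.rec (fun _ => Bool)
                (run K p q q2 fuel (Nat.succ m) (Nat.mul 2 pw) ((pw, N, c) :: upd N Es) key2 s' T')
                true (Nat.blt key2 key)) K Es 0 0 0)
            true (chk p q q2 T' prs)) (advN Es (Nat.sub s' s) (Nat.sub m s) T))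
        (Nat.ble 6 m) := rfl
  have hch : ∀ (s : ℕ) (T : List Entry), (fun N c =>
          frc (Nat.add (Nat.mul (Nat.sub m c) 1048576) N) fun key2 =>
          @Bool.rec (fun _ => Bool)
            (run K p q q2 fuel (Nat.succ m) (Nat.mul 2 pw) ((pw, N, c) :: upd N Es) key2 s T)
            true (Nat.blt key2 key)) = child K p q q2 fuel m pw Es key s T := by
    intro s T
    funext N c
    exact test_eq (fun v => run K p q q2 fuel (Nat.succ m) (Nat.mul 2 pw) ((pw, N, c) :: upd N Es) v s T)
      1048576 m c N key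
  rw [h, brec, frc_eq, hch, mx_eq, mx_eq, lit2]
  beta_reduce
  rw [hch, brec]
  have e1 : (Nat.ble 6 m = true) = (6 ≤ m) := by rw [Nat.ble_eq]
  simp only [e1]
  generalize max s (max (m - K) (key / 1048576)) = s'
  rfl

end Pool.Agent.H552.TH
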