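import Mathlib
import Pool.Agent.H552.TH.Eqs

/-! Packed numbers. -/

set_option autoImplicit false

open Finset

namespace Pool.Agent.H552.TH

/-- the packed number -/
def pack (f : ℕ → ℕ → ℕ) : ℕ := ∑ a ∈ range 6, ∑ b ∈ range 6, f a b * 2 ^ (192 * a + 32 * b)

/-- the new function -/
def upf (f : ℕ → ℕ → ℕ) (e i J : ℕ) : ℕ → ℕ → ℕ :=
  fun a b => f a b + if a = i ∧ J.testBit b = false then e else 0

lemma pack_add (f g : ℕ → ℕ → ℕ) : pack (fun a b => f a b + g a b) = pack f + pack g := by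
  unfold pack
  rw [← sum_add_distrib]
  refine sum_congr rfl fun a _ => ?_
  rw [← sum_add_distrib]
  refine sum_congr rfl fun b _ => ?_
  rw [add_mul]

lemma and_two_pow_eq (J k : ℕ) : (J &&& 2 ^ k = 0) = (J.testBit k = false) := by
  rw [Nat.and_two_pow]
  cases h : J.testBit k
  · simp
  · simp

lemma wb_eq (J k : ℕ) : wb J (2 ^ k) = if J.testBit k = false then 2 ^ (32 * k) else 0 := by
  unfold wb
  rw [brec]
  have e1 : (Nat.beq (Nat.land J (2 ^ k)) 0 = true) = (J.testBit k = false) := by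
    rw [Nat.beq_eq, ← and_two_pow_eq]; rfl
  have e2 : Nat.pow (2 ^ k) 32 = 2 ^ (32 * k) := by
    change (2 ^ k) ^ 32 = 2 ^ (32 * k)
    rw [← pow_mul, mul_comm]
  simp only [e1, e2]

lemma W_eq (J : ℕ) : W J = ∑ b ∈ range 6, if J.testBit b = false then 2 ^ (32 * b) else 0 := by
  have h : W J = ∑ b ∈ range 6, wb J (2 ^ b) := by
    unfold W
    rw [sum_range_succ, sum_range_succ, sum_range_succ, sum_range_succ, sum_range_succ,
      sum_range_one]
    have e0 : (2 : ℕ) ^ 0 = 1 := rfl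
    have e1 : (2 : ℕ) ^ 1 = 2 := rfl
    have e2 : (2 : ℕ) ^ 2 = 4 := rfl
    have e3 : (2 : ℕ) ^ 3 = 8 := rfl
    have e4 : (2 : ℕ) ^ 4 = 16 := rfl
    have e5 : (2 : ℕ) ^ 5 = 32 := rfl
    rw [e0, e1, e2, e3, e4, e5]
    generalize wb J 1 = a1
    generalize wb J 2 = a2
    generalize wb J 4 = a3
    generalize wb J 8 = a4
    generalize wb J 16 = a5
    generalize wb J 32 = a6
    omega
  rw [h]
  exact sum_congr rfl fun b _ => wb_eq J b

lemma pack_upf (f : ℕ → ℕ → ℕ) (e k J : ℕ) (hk : k < 6) :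
    pack (upf f e k J) = pack f + e * (2 ^ k) ^ 192 * W J := by
  have h1 : pack (upf f e k J) = pack f +
      pack (fun a b => if a = k ∧ J.testBit b = false then e else 0) := by
    rw [← pack_add]; rfl
  rw [h1, W_eq]
  refine congrArg (fun z => pack f + z) ?_
  have h2 : ∀ a ∈ range 6, a ≠ k →
      ∑ b ∈ range 6, (if a = k ∧ J.testBit b = false then e else 0) * 2 ^ (192 * a + 32 * b) = 0 := by
    intro a _ ha
    refine sum_eq_zero fun b _ => ?_
    rw [if_neg (fun hh => ha hh.1), Nat.zero_mul]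
  have h3 : pack (fun a b => if a = k ∧ J.testBit b = false then e else 0) =
      ∑ b ∈ range 6, (if k = k ∧ J.testBit b = false then e else 0) * 2 ^ (192 * k + 32 * b) :=
    sum_eq_single_of_mem k (mem_range.2 hk) h2
  rw [h3, mul_sum]
  refine sum_congr rfl fun b _ => ?_
  have h4 : (2 : ℕ) ^ (192 * k + 32 * b) = (2 ^ k) ^ 192 * 2 ^ (32 * b) := by
    rw [pow_add, ← pow_mul, mul_comm k 192]
  rw [h4]
  by_cases h : J.testBit b = false
  · rw [if_pos ⟨rfl, h⟩, if_pos h, Nat.mul_assoc]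
  · rw [if_neg (fun hh => h hh.2), if_neg h, Nat.zero_mul, Nat.mul_zero]

/-- reading a digit -/
lemma digit (g : ℕ → ℕ) (B : ℕ) (hB : 0 < B) (n j : ℕ) (hj : j < n) (hg : ∀ i, g i < B) :
    (∑ i ∈ range n, g i * B ^ i) / B ^ j % B = g j := by
  have hlow : ∀ j, ∑ i ∈ range j, g i * B ^ i < B ^ j := by
    intro j
    induction j with
    | zero => simp
    | succ j ih =>
      rw [sum_range_succ, pow_succ]
      have h1 := Nat.mul_le_mul_right (B ^ j) (Nat.succ_le_of_lt (hg j))
      have e : (g j).succ * B ^ j = g j * B ^ j + B ^ j := Nat.succ_mul _ _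
      rw [e] at h1
      rw [mul_comm (B ^ j) B]
      omega
  have hsplit : ∑ i ∈ range n, g i * B ^ i =
      ∑ i ∈ range j, g i * B ^ i +
        B ^ j * (g j + B * ∑ i ∈ range (n - j - 1), g (j + 1 + i) * B ^ i) := by
    have e1 : n = j + (1 + (n - j - 1)) := by omega
    conv_lhs => rw [e1, sum_range_add, sum_range_add]
    congr 1
    rw [sum_range_one, mul_add, add_zero]
    congr 1
    · exact mul_comm _ _
    · rw [mul_sum, mul_sum]
      refine sum_congr rfl fun i _ => ?_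
      have e2 : j + (1 + i) = j + 1 + i := by omega
      rw [e2, pow_add, pow_add, pow_one]
      ac_rfl
  rw [hsplit, Nat.add_mul_div_left _ _ (pow_pos hB j), Nat.div_eq_of_lt (hlow j), zero_add,
    Nat.add_mul_mod_self_left, Nat.mod_eq_of_lt (hg j)]

lemma sum_six (g : ℕ → ℕ) : ∀ n, ∑ i ∈ range (6 * n), g i =
    ∑ a ∈ range n, ∑ b ∈ range 6, g (6 * a + b) := by
  intro n
  induction n with
  | zero => simp
  | succ n ih => rw [Nat.mul_succ, sum_range_add, ih, Finset.sum_range_succ (fun a => ∑ b ∈ range 6, g (6 * a + b)) n]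

lemma pack_digit (f : ℕ → ℕ → ℕ) (hf : ∀ a b, f a b < 4294967296) {a b : ℕ} (ha : a < 6)
    (hb : b < 6) : pack f / 2 ^ (192 * a + 32 * b) % 4294967296 = f a b := by
  have hB : (4294967296 : ℕ) = 2 ^ 32 := by norm_num
  have hp : ∀ a b : ℕ, (2 : ℕ) ^ (192 * a + 32 * b) = 4294967296 ^ (6 * a + b) := by
    intro a b
    rw [hB, ← pow_mul]
    congr 1
    ring
  have h1 : pack f = ∑ i ∈ range (6 * 6), f (i / 6) (i % 6) * 4294967296 ^ i := by
    rw [sum_six]
    unfold pack
    refine sum_congr rfl fun a _ => sum_congr rfl fun b hb => ?_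
    rw [mem_range] at hb
    have e1 : (6 * a + b) / 6 = a := by omega
    have e2 : (6 * a + b) % 6 = b := by omega
    rw [e1, e2, hp]
  rw [h1, hp, digit (fun i => f (i / 6) (i % 6)) 4294967296 (by norm_num) (6 * 6) (6 * a + b)
    (by omega) (fun i => hf _ _)]
  have e1 : (6 * a + b) / 6 = a := by omega
  have e2 : (6 * a + b) % 6 = b := by omega
  rw [e1, e2]

end Pool.Agent.H552.TH
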