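import Mathlib
import Pool.Agent.H552.TH.Defs
import Pool.Graph.R_pool_sql_team_seeded_64922ed1.X65.Loc.Decomp

/-!
# Statements of the parts

PROJECT TH: explicit gap for posets in which each element is incomparable to at most `K` elements.
-/

set_option autoImplicit false

open Finset

namespace Pool.Agent.H552.TH

open Pool.Agent.H13R3.WB
open scoped Classical

/-- each element is incomparable to at most `K` elements -/
def Thin (K : ℕ) (P : Type) [PartialOrder P] : Prop :=
  ∀ x : P, Nat.card {y : P // ¬ x ≤ y ∧ ¬ y ≤ x} ≤ K

/-- the poset has a copy of `2 + 1` as first summand -/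
def BotE (P : Type) [PartialOrder P] : Prop :=
  ∃ u v w : P, u < w ∧ ¬ u ≤ v ∧ ¬ v ≤ u ∧ ¬ v ≤ w ∧ ¬ w ≤ v ∧
    ∀ z, z ≠ u → z ≠ v → z ≠ w → u < z ∧ v < z ∧ w < z

/-- there is a `c`-balanced pair -/
def HasBal (c : ℝ) (P : Type) [Fintype P] [PartialOrder P] : Prop :=
  ∃ x y : P, c ≤ prob P x y ∧ prob P x y ≤ 1 - c

/-- number of elements below `y` -/
noncomputable def dn {P : Type} [Fintype P] [PartialOrder P] (y : P) : ℕ :=
  (univ.filter (fun p => p < y)).card

/-- the digits of `mk x y m` are the `j < m` with `x j < y` -/
noncomputable def mk {P : Type} [PartialOrder P] (x : ℕ → P) (y : P) : ℕ → ℕ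
  | 0 => 0
  | m + 1 => mk x y m + (if x m < y then 2 ^ m else 0)

/-- `x 0, …, x (m - 1)` are distinct elements, the lower elements of each come before it, `Dm` gives the
elements below it, `im` the number of incomparable ones, and `key` is at most the key
`2 ^ 20 |D(y)| + mk x y m` of every other element -/
structure Cfg {P : Type} [Fintype P] [PartialOrder P] (m : ℕ) (x : ℕ → P) (Dm im : ℕ → ℕ)
    (key : ℕ) : Prop where
  inj : ∀ i < m, ∀ j < m, x i = x j → i = j
  low : ∀ i < m, ∀ p, p < x i → ∃ j < i, x j = p
  mask : ∀ i < m, ∀ j, (Dm i).testBit j = true ↔ j < i ∧ x j < x i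
  inc : ∀ i < m, im i = ((range m).filter (fun j => j ≠ i ∧ ¬ x j < x i ∧ ¬ x i < x j)).card
  key : ∀ y, (∀ j < m, x j ≠ y) → key ≤ dn y * 1048576 + mk x y m

/-- the list of the elements -/
def mkE (Dm im : ℕ → ℕ) : ℕ → List (ℕ × ℕ × ℕ)
  | 0 => []
  | k + 1 => (2 ^ k, Dm k, im k) :: mkE Dm im k

/-- FINAL.  From large posets without least element and without first summand `2 + 1` to all posets.

Proof. Induction on `card P`. Apply the hypothesis to `P' = P ⊕ₗ Fin 23` (thin: elements of the chain are
comparable to everything). If `P'` has a balanced pair, both elements are in `P` (comparable elements have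
probability 0 or 1, excluded by `0 < c`), and the probabilities are those in `P` (library: `pr_lex_inl` in
`Pool.Graph.R_seed8.H931R3`, see the model `balance_lex_le` in `Pool/Agent/H552/TO/Tri.lean`; or `prob_cut` in
`X65/Loc/Dual.lean`), so `c ≤ balance P` (`le_balance`). If `P'` has a least element, it is in `P` and least there: then
`P` is a point (`InD.one`), or `P ≃o {x} ⊕ₗ rest` (library `splitIso` in `X65/Loc/Decomp.lean`) and the
induction hypothesis for the rest gives the claim (`InD.sum`; `balance_upper` in `X65/Loc/Dual.lean`). If `P'`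
has a first summand `2 + 1`, its elements are in `P` (they are incomparable to something), and the same
with `InD.three`. -/
def S_FINAL : Prop := ∀ (K : ℕ) (c : ℝ), 0 < c →
  (∀ (P : Type) [Fintype P] [PartialOrder P], 23 ≤ Fintype.card P → Thin K P →
    (¬ ∃ x : P, ∀ y, x ≤ y) → ¬ BotE P → HasBal c P) →
  ∀ (P : Type) [Fintype P] [PartialOrder P] [Nonempty P], Thin K P → InD P ∨ c ≤ balance P

/-- ROOT.  The first three elements.

Proof. There is no least element, so there are at least two minimal elements. (i) If there are three minimal elements, take them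
(`key = 0`). Otherwise let `u`, `v` be the only two minimal elements; every other `z` has `dn z ≥ 1`, and
is above `u` or `v`. (ii) If some other `z` has `dn z = 1`, say `D(z) = {u}`: take `x 0 = u, x 1 = v, x 2 = z`,
`key = 2 ^ 20 + 1`: each other `z'` has `dn z' ≥ 1` and if `dn z' = 1` then `mk ≥ 1`. The last clause: if all
others had `dn ≥ 3` then all others would be above all three elements (a minimal counterexample `z` has
`D(z) ⊆ {x 0, x 1, x 2}` as elements of `D(z)` outside are above all three), so `BotE`. (iii) Otherwise
`dn ≥ 2` for all others; a minimal one `z` among the others has `D(z) = {u, v}`; for each other `z'` with `dn z' = 2`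
also `D(z') = {u, v}`, so `mk = 3`; `key = 2 * 2 ^ 20 + 3`. -/
def S_ROOT : Prop := ∀ (P : Type) [Fintype P] [PartialOrder P], 4 ≤ Fintype.card P →
  (¬ ∃ x : P, ∀ y, x ≤ y) → ¬ BotE P →
  ∃ x : ℕ → P, Cfg 3 x (fun _ => 0) (fun _ => 2) 0 ∨
    Cfg 3 x (fun i => if i = 2 then 3 else 0) (fun i => if i = 2 then 0 else 1) 2097155 ∨
    (Cfg 3 x (fun i => if i = 2 then 1 else 0) (fun i => if i = 1 then 2 else 1) 1048577 ∧
      ∃ z, (∀ j < 3, x j ≠ z) ∧ dn z ≤ 2)

/-- GEN.  The search runs through all possible new elements.

Proof. `gen` goes through the list from the element `m - 1` down to `0` (`gen_cons`, `gen_nil` in `Eqs.lean`).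
Generalise: for `k ≤ m`, if `gen f K (mkE Dm im k) F N' c' = true` where the digits of `N'` are the digits `≥ k` of `N`, `c'` is
the number of the `i` with `k ≤ i < m` which are not digits of `N`, and every digit of `F` is a digit of
`N`, then `f N c = true`. Induction on `k` (step: the digit `k` of `N` is `1`: first alternative; it is `0`: the
second one, here `F &&& 2 ^ k = 0` because digits of `F` are digits of `N`). `F ||| D`, `N' ||| 2 ^ k`: `Nat.testBit_or`,
`Nat.testBit_two_pow`; equality of numbers by `Nat.eq_of_testBit_eq`. -/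
def S_GEN : Prop := ∀ (f : ℕ → ℕ → Bool) (K m : ℕ) (Dm im : ℕ → ℕ) (N c : ℕ),
  gen f K (mkE Dm im m) 0 0 0 = true → N < 2 ^ m →
  (∀ i < m, ∀ j, N.testBit i = true → (Dm i).testBit j = true → N.testBit j = true) →
  c = ((range m).filter (fun i => N.testBit i = false)).card → c ≤ K →
  (∀ i < m, N.testBit i = false → im i < K) → f N c = true

/-- STEP.  The next element.

Proof. Let `y` be an element different from `x 0, …, x (m-1)` with the least key `dn y * 2 ^ 20 + mk x y m` (exists as `m < card P`).
`mk x y m < 2 ^ m ≤ 2 ^ 20`, and `(mk x y m).testBit j ↔ j < m ∧ x j < y` (induction on `m`). All elements below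
`y` are among the `x j`: another `z < y` would have `dn z < dn y`, so a smaller key. Put `N = mk x y m` and
`c` = number of `j < m` with not `x j < y`; these `x j` are incomparable to `y` (`y < x j` would make `y` one of the `x`, by
`low`), so `c ≤ K`, and `dn y = m - c`; and `im j < K` for these `j` (`y` and the `im j` elements are incomparable to `x j`). The new keys of the remaining
elements are at least their old ones, so at least the key of `y`. -/
def S_STEP : Prop := ∀ (P : Type) [Fintype P] [PartialOrder P] (K m : ℕ) (x : ℕ → P)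
  (Dm im : ℕ → ℕ) (key : ℕ), Thin K P → m < Fintype.card P → m ≤ 20 → Cfg m x Dm im key →
  ∃ (y : P) (N c : ℕ), (∀ j < m, x j ≠ y) ∧ N = mk x y m ∧ N < 2 ^ m ∧ c ≤ m ∧ dn y = m - c ∧
    (∀ z, (∀ j < m, x j ≠ z) → dn y * 1048576 + mk x y m ≤ dn z * 1048576 + mk x z m) ∧
    (∀ i < m, ∀ j, N.testBit i = true → (Dm i).testBit j = true → N.testBit j = true) ∧
    c = ((range m).filter (fun i => N.testBit i = false)).card ∧ c ≤ K ∧
    (∀ i < m, N.testBit i = false → im i < K) ∧ key ≤ (m - c) * 1048576 + N ∧
    Cfg (m + 1) (Function.update x m y) (Function.update Dm m N)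
      (fun i => if i = m then c else if N.testBit i = true then im i else im i + 1)
      ((m - c) * 1048576 + N)

end Pool.Agent.H552.TH
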