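import Mathlib
import Pool.Agent.H552.TH.Pack
import Pool.Agent.H552.TH.Stm

/-! Tables with functions in place of packed numbers. -/

set_option autoImplicit false

open Finset

namespace Pool.Agent.H552.TH

/-- abstract entries -/
abbrev AE := ℕ × ℕ × (ℕ → ℕ → ℕ)

/-- the entry with the packed number -/
def conc (t : AE) : Entry := (t.1, t.2.1, pack t.2.2)

/-- add an entry to a table -/
def insA (J e : ℕ) (f : ℕ → ℕ → ℕ) : List AE → List AE
  | [] => [(J, e, f)]
  | (J', e', f') :: L =>
    if J = J' then (J', e' + e, fun a b => f' a b + f a b) :: L else (J', e', f') :: insA J e f L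

/-- add all sets with one element more -/
def pushA (Dm : ℕ → ℕ) (J e : ℕ) (f : ℕ → ℕ → ℕ) : ℕ → ℕ → List AE → List AE
  | 0, _, R => R
  | _ + 1, 0, R => R
  | k + 1, r + 1, R =>
    if J.testBit k = false then
      if Dm k &&& J = Dm k then
        pushA Dm J e f k r (insA (J ||| 2 ^ k) e (if k < 6 then upf f e k (J ||| 2 ^ k) else f) R)
      else pushA Dm J e f k r R
    else pushA Dm J e f k (r + 1) R

/-- the next table -/
def advA (Dm : ℕ → ℕ) (m r : ℕ) : List AE → List AE → List AE
  | [], R => R
  | (J, e, f) :: T, R => advA Dm m r T (pushA Dm J e f m r R)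

lemma ins_conc (J e : ℕ) (f : ℕ → ℕ → ℕ) (L : List AE) :
    ins J e (pack f) (L.map conc) = (insA J e f L).map conc := by
  induction L with
  | nil => rfl
  | cons t L ih =>
    obtain ⟨J', e', f'⟩ := t
    rw [List.map_cons]
    have h1 : conc (J', e', f') = (J', e', pack f') := rfl
    rw [h1, ins_cons, insA]
    by_cases h : J = J'
    · rw [if_pos h, if_pos h, List.map_cons]
      have h2 : conc (J', e' + e, fun a b => f' a b + f a b) = (J', e' + e, pack f' + pack f) := by
        unfold conc
        rw [pack_add]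
      rw [h2]
    · rw [if_neg h, if_neg h, List.map_cons, ih, h1]

lemma push_conc (Dm im : ℕ → ℕ) (J e : ℕ) (f : ℕ → ℕ → ℕ) : ∀ (k r : ℕ) (R : List AE),
    push J e (pack f) (mkE Dm im k) r (R.map conc) = (pushA Dm J e f k r R).map conc := by
  intro k
  induction k with
  | zero => intro r R; rw [mkE, push_nil, pushA]
  | succ k ih =>
    intro r R
    cases r with
    | zero => rw [mkE, push_zero, pushA]
    | succ r =>
      rw [mkE, push_succ, pushA]
      simp only [and_two_pow_eq]
      by_cases h1 : J.testBit k = false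
      · rw [if_pos h1, if_pos h1]
        by_cases h2 : Dm k &&& J = Dm k
        · rw [if_pos h2, if_pos h2]
          have h3 : (if (2 : ℕ) ^ k ≤ 32 then pack f + e * (2 ^ k) ^ 192 * W (J ||| 2 ^ k) else pack f) =
              pack (if k < 6 then upf f e k (J ||| 2 ^ k) else f) := by
            by_cases hk : k < 6
            · have h4 : (2 : ℕ) ^ k ≤ 32 := by
                calc (2 : ℕ) ^ k ≤ 2 ^ 5 := Nat.pow_le_pow_right (by norm_num) (by omega)
                  _ = 32 := by norm_num
              rw [if_pos hk, pack_upf _ _ _ _ hk, if_pos h4]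
            · have h4 : ¬ (2 : ℕ) ^ k ≤ 32 := by
                have : (2 : ℕ) ^ 6 ≤ 2 ^ k := Nat.pow_le_pow_right (by norm_num) (by omega)
                have h5 : (2 : ℕ) ^ 6 = 64 := by norm_num
                omega
              rw [if_neg hk, if_neg h4]
          rw [h3, ins_conc, ih]
        · rw [if_neg h2, if_neg h2, ih]
      · rw [if_neg h1, if_neg h1, ih]

lemma adv_conc (Dm im : ℕ → ℕ) (m r : ℕ) : ∀ (T R : List AE),
    adv (mkE Dm im m) r (T.map conc) (R.map conc) = (advA Dm m r T R).map conc := by
  intro T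
  induction T with
  | nil => intro R; rw [List.map_nil, adv_nil, advA]
  | cons t T ih =>
    intro R
    obtain ⟨J, e, f⟩ := t
    rw [List.map_cons]
    have h1 : conc (J, e, f) = (J, e, pack f) := rfl
    rw [h1, adv_cons, advA, push_conc, ih]

/-- a sum over the entries -/
def tsum (Φ : AE → ℕ) (T : List AE) : ℕ := (T.map Φ).sum

lemma tsum_nil (Φ : AE → ℕ) : tsum Φ [] = 0 := rfl

lemma tsum_cons (Φ : AE → ℕ) (t : AE) (T : List AE) : tsum Φ (t :: T) = Φ t + tsum Φ T := by
  unfold tsum
  rw [List.map_cons, List.sum_cons]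

/-- `Φ` is additive -/
def Lin (Φ : AE → ℕ) : Prop := ∀ J e e' f f',
  Φ (J, e' + e, fun a b => f' a b + f a b) = Φ (J, e', f') + Φ (J, e, f)

lemma tsum_ins {Φ : AE → ℕ} (hΦ : Lin Φ) (J e : ℕ) (f : ℕ → ℕ → ℕ) (L : List AE) :
    tsum Φ (insA J e f L) = Φ (J, e, f) + tsum Φ L := by
  induction L with
  | nil => rw [insA, tsum_cons, tsum_nil]
  | cons t L ih =>
    obtain ⟨J', e', f'⟩ := t
    rw [insA]
    by_cases h : J = J'
    · subst h
      rw [if_pos rfl, tsum_cons, tsum_cons, hΦ]
      omega
    · rw [if_neg h, tsum_cons, tsum_cons, ih]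
      omega

/-- the elements which can be added -/
def adm (Dm : ℕ → ℕ) (J k : ℕ) : Finset ℕ :=
  (range k).filter (fun i => J.testBit i = false ∧ Dm i &&& J = Dm i)

/-- the new entry -/
def nw (J e : ℕ) (f : ℕ → ℕ → ℕ) (i : ℕ) : AE :=
  (J ||| 2 ^ i, e, if i < 6 then upf f e i (J ||| 2 ^ i) else f)

lemma adm_succ (Dm : ℕ → ℕ) (J k : ℕ) (g : ℕ → ℕ) : ∑ i ∈ adm Dm J (k + 1), g i =
    (if J.testBit k = false ∧ Dm k &&& J = Dm k then g k else 0) + ∑ i ∈ adm Dm J k, g i := by
  unfold adm
  rw [range_add_one, filter_insert]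
  split_ifs with h
  · rw [sum_insert]
    simp
  · rw [zero_add]

lemma tsum_push {Φ : AE → ℕ} (hΦ : Lin Φ) (Dm : ℕ → ℕ) (J e : ℕ) (f : ℕ → ℕ → ℕ) :
    ∀ (k r : ℕ) (R : List AE), ((range k).filter (fun i => J.testBit i = false)).card ≤ r →
    tsum Φ (pushA Dm J e f k r R) = (∑ i ∈ adm Dm J k, Φ (nw J e f i)) + tsum Φ R := by
  intro k
  induction k with
  | zero => intro r R _; rw [pushA]; simp [adm]
  | succ k ih =>
    intro r R hr
    rw [range_add_one, filter_insert] at hr
    rw [adm_succ]
    cases r with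
    | zero =>
      rw [pushA]
      by_cases h1 : J.testBit k = false
      · rw [if_pos h1, card_insert_of_notMem (by simp)] at hr
        omega
      · rw [if_neg h1] at hr
        rw [if_neg (fun h => h1 h.1)]
        have h2 : adm Dm J k = ∅ := by
          rw [Finset.eq_empty_iff_forall_notMem]
          intro i hi
          unfold adm at hi
          rw [mem_filter] at hi
          have : i ∈ (range k).filter (fun i => J.testBit i = false) :=
            mem_filter.2 ⟨hi.1, hi.2.1⟩
          rw [Nat.le_zero, card_eq_zero] at hr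
          rw [hr] at this
          exact absurd this (notMem_empty _)
        rw [h2, sum_empty]
        omega
    | succ r =>
      rw [pushA]
      by_cases h1 : J.testBit k = false
      · rw [if_pos h1, card_insert_of_notMem (by simp)] at hr
        rw [if_pos h1]
        by_cases h2 : Dm k &&& J = Dm k
        · have h3 : Φ (J ||| 2 ^ k, e, if k < 6 then upf f e k (J ||| 2 ^ k) else f) =
              Φ (nw J e f k) := rfl
          rw [if_pos h2, ih r _ (by omega), tsum_ins hΦ, h3,
            if_pos (show J.testBit k = false ∧ Dm k &&& J = Dm k from ⟨h1, h2⟩)]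
          omega
        · rw [if_neg h2, if_neg (fun h => h2 h.2), ih r _ (by omega)]
          omega
      · rw [if_neg h1] at hr
        rw [if_neg h1, if_neg (fun h => h1 h.1), ih (r + 1) _ (by omega)]
        omega

lemma mem_ins {t : AE} {J e : ℕ} {f : ℕ → ℕ → ℕ} {L : List AE} (h : t ∈ insA J e f L)
    {Q : AE → Prop} (hL : ∀ t ∈ L, Q t) (h1 : Q (J, e, f))
    (h2 : ∀ e' f', Q (J, e', f') → Q (J, e' + e, fun a b => f' a b + f a b)) : Q t := by
  induction L with
  | nil =>
    rw [insA, List.mem_singleton] at h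
    rw [h]; exact h1
  | cons s L ih =>
    obtain ⟨J', e', f'⟩ := s
    rw [insA] at h
    by_cases hJ : J = J'
    · subst hJ
      rw [if_pos rfl] at h
      rcases List.mem_cons.1 h with h | h
      · rw [h]; exact h2 e' f' (hL _ (by simp))
      · exact hL _ (by simp [h])
    · rw [if_neg hJ] at h
      rcases List.mem_cons.1 h with h | h
      · rw [h]; exact hL _ (by simp)
      · exact ih h (fun t ht => hL t (by simp [ht]))

/-- closed under adding -/
def Add (Q : AE → Prop) : Prop := ∀ J e f e' f', Q (J, e, f) → Q (J, e', f') →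
  Q (J, e' + e, fun a b => f' a b + f a b)

lemma mem_push {Q : AE → Prop} (hQ : Add Q) (Dm : ℕ → ℕ) (J e : ℕ) (f : ℕ → ℕ → ℕ) :
    ∀ (k r : ℕ) (R : List AE), (∀ t ∈ R, Q t) → (∀ i ∈ adm Dm J k, Q (nw J e f i)) →
    ∀ t ∈ pushA Dm J e f k r R, Q t := by
  intro k
  induction k with
  | zero => intro r R h1 _; rw [pushA]; exact h1
  | succ k ih =>
    intro r R h1 h2
    have h2' : ∀ i ∈ adm Dm J k, Q (nw J e f i) := by
      intro i hi
      apply h2
      unfold adm at hi ⊢
      rw [mem_filter, mem_range] at hi ⊢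
      exact ⟨by omega, hi.2⟩
    cases r with
    | zero => rw [pushA]; exact h1
    | succ r =>
      rw [pushA]
      by_cases k1 : J.testBit k = false
      · rw [if_pos k1]
        by_cases k2 : Dm k &&& J = Dm k
        · rw [if_pos k2]
          refine ih r _ ?_ h2'
          have hn : Q (nw J e f k) := h2 k (by
            unfold adm
            rw [mem_filter, mem_range]
            exact ⟨by omega, k1, k2⟩)
          intro t ht
          exact mem_ins ht h1 hn (fun e' f' h => hQ _ _ _ _ _ hn h)
        · rw [if_neg k2]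
          exact ih r _ h1 h2'
      · rw [if_neg k1]
        exact ih (r + 1) _ h1 h2'

end Pool.Agent.H552.TH
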