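import Pool.Agent.H552.TH.Defs

/-! Computation in the kernel: the posets with at least three minimal elements, and the posets with one
minimal pair below everything. -/

set_option autoImplicit false
set_option maxRecDepth 100000

namespace Pool.Agent.H552.TH

theorem comp1 : run 4 69 200 131 18 3 8 [(4, 0, 2), (2, 0, 2), (1, 0, 2)] 0 0 [(0, 1, 0)] = true := by
  decide +kernel

theorem comp2 : run 4 69 200 131 18 3 8 [(4, 3, 0), (2, 0, 1), (1, 0, 1)] 2097155 0 [(0, 1, 0)] = true := by
  decide +kernel

end Pool.Agent.H552.TH
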