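import Pool.Agent.H552.TH.Defs

/-! Computation in the kernel: the posets with two minimal elements `0`, `1`, an element `2` above `0`
only, an element `3` above `0` and `1` only, and an element `4` as given. -/

set_option autoImplicit false
set_option maxRecDepth 100000

namespace Pool.Agent.H552.TH

theorem comp3c2 : run 4 69 200 131 16 5 32 [(16, 5, 2), (8, 3, 2), (4, 1, 2), (2, 0, 3), (1, 0, 1)] 2097157 0 [(0, 1, 0)] = true := by
  decide +kernel

end Pool.Agent.H552.TH
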