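import Pool.Agent.H552.TH.Stm
import Pool.Graph.R_pool_sql_team_seeded_64922ed1.X65.Loc.Dual

/-!
FINAL: from large posets without least element and without first summand `2 + 1` to all posets.
-/

set_option autoImplicit false

open Finset

namespace Pool.Agent.H552.TH.P_FINAL

open Pool.Agent.H13R3.WB Pool.Agent.X65.Loc

section

variable {P Q : Type} [Fintype P] [PartialOrder P] [Fintype Q] [PartialOrder Q]

/-- the lower part of a cut -/
lemma prob_cut_low (ι : Q ↪o P) (hcut : ∀ (q : Q) (p : P), p ∉ Set.range ι → ι q < p) (x y : Q) :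
    prob P (ι x) (ι y) = prob Q x y := by
  have h := prob_cut (P := Pᵒᵈ) (Q := Qᵒᵈ) ι.dual (fun q p h => hcut q p h)
    (OrderDual.toDual y) (OrderDual.toDual x)
  have h1 : prob Pᵒᵈ (ι.dual (OrderDual.toDual y)) (ι.dual (OrderDual.toDual x)) =
      prob P (ι x) (ι y) := prob_dual (ι y) (ι x)
  have h2 : prob Qᵒᵈ (OrderDual.toDual y) (OrderDual.toDual x) = prob Q x y := prob_dual y x
  rw [h1, h2] at h
  exact h

/-- a balanced pair consists of incomparable elements -/
lemma inc_of_bal {c : ℝ} (hc : 0 < c) {x y : P} (h1 : c ≤ prob P x y) (h2 : prob P x y ≤ 1 - c) :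
    ¬ x ≤ y ∧ ¬ y ≤ x := by
  constructor
  · intro h
    rcases eq_or_ne x y with rfl | hxy
    · rw [prob_self] at h1
      exact absurd hc (not_lt.2 h1)
    · have h3 := prob_add hxy
      rw [prob_eq_zero_of_le h] at h3
      linarith
  · intro h
    rw [prob_eq_zero_of_le h] at h1
    exact absurd hc (not_lt.2 h1)

/-- the embedding of the first summand -/
def inlE (P : Type) [PartialOrder P] : P ↪o (P ⊕ₗ Fin 23) where
  toFun p := toLex (Sum.inl p)
  inj' := fun p q h => Sum.inl_injective (toLex.injective h)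
  map_rel_iff' := by
    intro p q
    exact Sum.Lex.inl_le_inl_iff

lemma inlE_cut {P : Type} [PartialOrder P] (q : P) (p : P ⊕ₗ Fin 23)
    (h : p ∉ Set.range (inlE P)) : inlE P q < p := by
  rcases p with p | p
  · exact absurd ⟨p, rfl⟩ h
  · exact Sum.Lex.inl_lt_inr _ _

/-- elements with an incomparable element are in the first summand -/
lemma exists_inl {P : Type} [PartialOrder P] (x y : P ⊕ₗ Fin 23) (h1 : ¬ x ≤ y) (h2 : ¬ y ≤ x) :
    ∃ p q : P, inlE P p = x ∧ inlE P q = y := by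
  rcases x with x | x <;> rcases y with y | y
  · exact ⟨x, y, rfl, rfl⟩
  · exact absurd (Sum.Lex.sep _ _) h1
  · exact absurd (Sum.Lex.sep _ _) h2
  · rcases le_total x y with h | h
    · exact absurd (Sum.Lex.inr h) h1
    · exact absurd (Sum.Lex.inr h) h2

lemma thin_lex {K : ℕ} (h : Thin K P) : Thin K (P ⊕ₗ Fin 23) := by
  intro x
  by_cases hx : ∃ p : P, inlE P p = x
  · obtain ⟨p, rfl⟩ := hx
    refine le_trans ?_ (h p)
    have hf : ∀ y : {y : P ⊕ₗ Fin 23 // ¬ inlE P p ≤ y ∧ ¬ y ≤ inlE P p},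
        ∃ q : {q : P // ¬ p ≤ q ∧ ¬ q ≤ p}, inlE P q.1 = y.1 := by
      rintro ⟨y, h1, h2⟩
      obtain ⟨p', q, h3, h4⟩ := exists_inl _ _ h1 h2
      subst h4
      refine ⟨⟨q, ?_, ?_⟩, rfl⟩
      · intro h5
        exact h1 ((inlE P).le_iff_le.2 h5)
      · intro h5
        exact h2 ((inlE P).le_iff_le.2 h5)
    choose f hf using hf
    refine Nat.card_le_card_of_injective f ?_
    intro a b hab
    apply Subtype.ext
    rw [← hf a, ← hf b, hab]
  · have : IsEmpty {y : P ⊕ₗ Fin 23 // ¬ x ≤ y ∧ ¬ y ≤ x} := by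
      refine ⟨?_⟩
      rintro ⟨y, h1, h2⟩
      obtain ⟨p, q, h3, h4⟩ := exists_inl _ _ h1 h2
      exact hx ⟨p, h3⟩
    rw [Nat.card_of_isEmpty]
    exact Nat.zero_le _

lemma least_lex {P : Type} [PartialOrder P] [Nonempty P] (h : ∃ x : P ⊕ₗ Fin 23, ∀ y, x ≤ y) :
    ∃ x : P, ∀ y, x ≤ y := by
  obtain ⟨x, hx⟩ := h
  rcases x with x | x
  · refine ⟨x, fun y => ?_⟩
    exact (inlE P).le_iff_le.1 (hx (inlE P y))
  · obtain ⟨p⟩ := (inferInstance : Nonempty P)
    have h1 := hx (inlE P p)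
    exact absurd (lt_of_lt_of_le (Sum.Lex.inl_lt_inr p x) h1) (lt_irrefl _)

lemma botE_lex {P : Type} [PartialOrder P] (h : BotE (P ⊕ₗ Fin 23)) : BotE P := by
  obtain ⟨u, v, w, h1, h2, h3, h4, h5, h6⟩ := h
  obtain ⟨u', v', hu, hv⟩ := exists_inl _ _ h2 h3
  obtain ⟨v'', w', hv2, hw⟩ := exists_inl _ _ h4 h5
  subst hu
  subst hv
  subst hw
  refine ⟨u', v', w', (inlE P).lt_iff_lt.1 h1, fun h => h2 ((inlE P).le_iff_le.2 h),
    fun h => h3 ((inlE P).le_iff_le.2 h), fun h => h4 ((inlE P).le_iff_le.2 h),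
    fun h => h5 ((inlE P).le_iff_le.2 h), ?_⟩
  intro z h7 h8 h9
  have h10 := h6 (inlE P z) (fun h => h7 ((inlE P).injective h))
    (fun h => h8 ((inlE P).injective h)) (fun h => h9 ((inlE P).injective h))
  exact ⟨(inlE P).lt_iff_lt.1 h10.1, (inlE P).lt_iff_lt.1 h10.2.1, (inlE P).lt_iff_lt.1 h10.2.2⟩

lemma key {K : ℕ} {c : ℝ} (hc : 0 < c)
    (H : ∀ (P : Type) [Fintype P] [PartialOrder P], 23 ≤ Fintype.card P → Thin K P →
      (¬ ∃ x : P, ∀ y, x ≤ y) → ¬ BotE P → HasBal c P) [Nonempty P] (hP : Thin K P) :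
    (∃ x : P, ∀ y, x ≤ y) ∨ BotE P ∨ c ≤ balance P := by
  by_cases h1 : ∃ x : P, ∀ y, x ≤ y
  · exact Or.inl h1
  by_cases h2 : BotE P
  · exact Or.inr (Or.inl h2)
  refine Or.inr (Or.inr ?_)
  have hcard : 23 ≤ Fintype.card (P ⊕ₗ Fin 23) := by
    rw [Fintype.card_congr (ofLex : (P ⊕ₗ Fin 23) ≃ (P ⊕ Fin 23)), Fintype.card_sum,
      Fintype.card_fin]
    exact Nat.le_add_left _ _
  obtain ⟨x, y, h3, h4⟩ := H (P ⊕ₗ Fin 23) hcard (thin_lex hP) (fun h => h1 (least_lex h))
    (fun h => h2 (botE_lex h))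
  obtain ⟨h5, h6⟩ := inc_of_bal hc h3 h4
  obtain ⟨p, q, rfl, rfl⟩ := exists_inl _ _ h5 h6
  rw [prob_cut_low (inlE P) inlE_cut] at h3 h4
  have hpq : p ≠ q := by
    rintro rfl
    exact h5 le_rfl
  have h7 := prob_add hpq
  refine le_trans ?_ (le_balance p q)
  refine le_min h3 ?_
  linarith

lemma InD_iso {S T : Type} [PartialOrder S] [PartialOrder T] (h : InD S) (e : S ≃o T) : InD T := by
  cases h with
  | one _ h => exact InD.one _ ⟨e.symm.trans h.some⟩
  | three _ h => exact InD.three _ ⟨e.symm.trans h.some⟩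
  | sum A B _ hA hB h => exact InD.sum A B _ hA hB ⟨e.symm.trans h.some⟩

lemma step {K : ℕ} {c : ℝ} {S : Type} [PartialOrder S] [Nonempty S] (hS : InD S) (ι : S ↪o P)
    (hcut : ∀ (s : S) (p : P), p ∉ Set.range ι → ι s < p) (hP : Thin K P)
    (ih : ∀ m < Nat.card P, ∀ (Q : Type) [Fintype Q] [PartialOrder Q] [Nonempty Q],
      Nat.card Q = m → Thin K Q → InD Q ∨ c ≤ balance Q) : InD P ∨ c ≤ balance P := by
  classical
  by_cases hA : (Set.range ι)ᶜ.Nonempty
  · have hne : Nonempty {p // p ∈ (Set.range ι)ᶜ} := ⟨⟨hA.some, hA.some_mem⟩⟩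
    have hlt : Nat.card {p // p ∈ (Set.range ι)ᶜ} < Nat.card P := by
      obtain ⟨s⟩ := (inferInstance : Nonempty S)
      rw [Nat.card_eq_fintype_card, Nat.card_eq_fintype_card]
      exact Fintype.card_subtype_lt (x := ι s) (fun h => h ⟨s, rfl⟩)
    have hthin : Thin K {p // p ∈ (Set.range ι)ᶜ} := by
      intro x
      refine le_trans ?_ (hP x.1)
      refine Nat.card_le_card_of_injective
        (fun y : {y : {p // p ∈ (Set.range ι)ᶜ} // ¬ x ≤ y ∧ ¬ y ≤ x} =>
          (⟨y.1.1, fun h => y.2.1 h, fun h => y.2.2 h⟩ : {y : P // ¬ x.1 ≤ y ∧ ¬ y ≤ x.1})) ?_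
      intro a b hab
      exact Subtype.ext (Subtype.ext (congrArg (fun z => z.1) hab))
    have hAcut : ∀ a ∈ Set.range ι, ∀ b ∈ (Set.range ι)ᶜ, a < b := by
      rintro _ ⟨s, rfl⟩ b hb
      exact hcut s b hb
    rcases ih _ hlt {p // p ∈ (Set.range ι)ᶜ} rfl hthin with h | h
    · left
      refine InD.sum {p // p ∈ Set.range ι} {p // p ∈ (Set.range ι)ᶜ} P ?_ h
        ⟨splitIso (Set.range ι) hAcut⟩
      exact InD_iso hS ι.orderIso
    · right
      refine h.trans (balance_upper (OrderEmbedding.subtype (fun p => p ∈ (Set.range ι)ᶜ)) ?_)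
      intro q p hp
      have hp' : p ∈ Set.range ι := by
        by_contra hpA
        exact hp ⟨⟨p, hpA⟩, rfl⟩
      exact hAcut p hp' q.1 q.2
  · left
    have hsurj : Function.Surjective ι := by
      intro p
      by_contra h
      exact hA ⟨p, h⟩
    exact InD_iso hS (RelIso.ofSurjective ι hsurj)

/-- the first summand `2 + 1` -/
lemma botE_emb {P : Type} [PartialOrder P] (h : BotE P) :
    ∃ ι : (Fin 2 ⊕ Fin 1) ↪o P, ∀ (s : Fin 2 ⊕ Fin 1) (p : P), p ∉ Set.range ι → ι s < p := by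
  obtain ⟨u, v, w, h1, h2, h3, h4, h5, h6⟩ := h
  have hle : ∀ a b : Fin 2 ⊕ Fin 1,
      (Sum.elim (fun i : Fin 2 => if i = 0 then u else w) (fun _ => v) a : P) ≤
        Sum.elim (fun i : Fin 2 => if i = 0 then u else w) (fun _ => v) b ↔ a ≤ b := by
    rintro (a | a) (b | b)
    · have ha : a = 0 ∨ a = 1 := by omega
      have hb : b = 0 ∨ b = 1 := by omega
      rw [Sum.inl_le_inl_iff]
      rcases ha with rfl | rfl <;> rcases hb with rfl | rfl
      · simp
      · simp [h1.le]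
      · simp [h1.not_ge]
      · simp
    · have ha : a = 0 ∨ a = 1 := by omega
      constructor
      · intro h
        rcases ha with rfl | rfl
        · exact absurd h (by simpa using h2)
        · exact absurd h (by simpa using h5)
      · intro h
        exact absurd h Sum.not_inl_le_inr
    · have hb : b = 0 ∨ b = 1 := by omega
      constructor
      · intro h
        rcases hb with rfl | rfl
        · exact absurd h (by simpa using h3)
        · exact absurd h (by simpa using h4)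
      · intro h
        exact absurd h Sum.not_inr_le_inl
    · rw [Sum.inr_le_inr_iff]
      simp
  refine ⟨OrderEmbedding.ofMapLEIff _ hle, ?_⟩
  intro s p hp
  have hu : p ≠ u := by
    rintro rfl
    exact hp ⟨Sum.inl 0, by simp⟩
  have hw : p ≠ w := by
    rintro rfl
    exact hp ⟨Sum.inl 1, by simp⟩
  have hv : p ≠ v := by
    rintro rfl
    exact hp ⟨Sum.inr 0, by simp⟩
  obtain ⟨h7, h8, h9⟩ := h6 p hu hv hw
  rw [OrderEmbedding.coe_ofMapLEIff]
  rcases s with s | s
  · have hs : s = 0 ∨ s = 1 := by omega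
    rcases hs with rfl | rfl
    · simpa using h7
    · simpa using h9
  · simpa using h8

/-- the first summand is a point -/
lemma least_emb {P : Type} [PartialOrder P] (h : ∃ x : P, ∀ y, x ≤ y) :
    ∃ ι : Fin 1 ↪o P, ∀ (s : Fin 1) (p : P), p ∉ Set.range ι → ι s < p := by
  obtain ⟨x, hx⟩ := h
  have hle : ∀ a b : Fin 1, (fun _ : Fin 1 => x) a ≤ (fun _ : Fin 1 => x) b ↔ a ≤ b := by
    intro a b
    simp [Subsingleton.elim a b]
  refine ⟨OrderEmbedding.ofMapLEIff _ hle, ?_⟩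
  intro s p hp
  rw [OrderEmbedding.coe_ofMapLEIff]
  refine lt_of_le_of_ne (hx p) ?_
  rintro rfl
  exact hp ⟨0, by simp⟩

end

end Pool.Agent.H552.TH.P_FINAL

namespace Pool.Agent.H552.TH

open Pool.Agent.H13R3.WB Pool.Agent.X65.Loc P_FINAL

theorem t_FINAL : S_FINAL := by
  intro K c hc H P _ _ _ hP
  have main : ∀ n : ℕ, ∀ (Q : Type) [Fintype Q] [PartialOrder Q] [Nonempty Q],
      Nat.card Q = n → Thin K Q → InD Q ∨ c ≤ balance Q := by
    intro n
    induction n using Nat.strong_induction_on with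
    | _ n ih =>
      intro Q _ _ _ hn hQ
      subst hn
      rcases P_FINAL.key hc H hQ with h | h | h
      · obtain ⟨ι, hι⟩ := least_emb h
        exact step (InD.one (Fin 1) ⟨OrderIso.refl _⟩) ι hι hQ ih
      · obtain ⟨ι, hι⟩ := botE_emb h
        exact step (InD.three (Fin 2 ⊕ Fin 1) ⟨OrderIso.refl _⟩) ι hι hQ ih
      · exact Or.inr h
  exact main _ P rfl hP

end Pool.Agent.H552.TH
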