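import Pool.Agent.H552.TH.Stm

/-!
# ROOT: the first three elements
-/

set_option autoImplicit false

open Finset

namespace Pool.Agent.H552.TH.P_ROOT

open scoped Classical

/-- the sequence with the first elements `a`, `b`, `c` -/
def seq3 {P : Type} (a b c : P) : ℕ → P := fun i => if i = 0 then a else if i = 1 then b else c

lemma seq3_0 {P : Type} (a b c : P) : seq3 a b c 0 = a := rfl

lemma seq3_1 {P : Type} (a b c : P) : seq3 a b c 1 = b := rfl

lemma seq3_2 {P : Type} (a b c : P) : seq3 a b c 2 = c := rfl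

lemma mk3 {P : Type} [PartialOrder P] (x : ℕ → P) (y : P) :
    mk x y 3 = (if x 0 < y then 1 else 0) + (if x 1 < y then 2 else 0) +
      (if x 2 < y then 4 else 0) := by
  have h3 : mk x y 3 = mk x y 2 + (if x 2 < y then 2 ^ 2 else 0) := rfl
  have h2 : mk x y 2 = mk x y 1 + (if x 1 < y then 2 ^ 1 else 0) := rfl
  have h1 : mk x y 1 = mk x y 0 + (if x 0 < y then 2 ^ 0 else 0) := rfl
  have h0 : mk x y 0 = 0 := rfl
  rw [h3, h2, h1, h0]
  norm_num

lemma card3 (q : ℕ → Prop) [DecidablePred q] : ((range 3).filter q).card =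
    (if q 0 then 1 else 0) + (if q 1 then 1 else 0) + (if q 2 then 1 else 0) := by
  rw [Finset.card_filter, Finset.sum_range_succ, Finset.sum_range_succ, Finset.sum_range_succ,
    Finset.sum_range_zero]
  omega

lemma lt3 {i : ℕ} (h : i < 3) : i = 0 ∨ i = 1 ∨ i = 2 := by omega

lemma testBit_small (n j : ℕ) (hn : n < 4) (hj : 2 ≤ j) : n.testBit j = false := by
  apply Nat.testBit_lt_two_pow
  calc n < 2 ^ 2 := by omega
    _ ≤ 2 ^ j := Nat.pow_le_pow_right (by norm_num) hj

/-- a configuration of three elements, the first two of which are minimal -/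
lemma cfg3 {P : Type} [Fintype P] [PartialOrder P] (a b c : P) (Dm im : ℕ → ℕ) (key : ℕ)
    (hab : a ≠ b) (hac : a ≠ c) (hbc : b ≠ c)
    (ha : ∀ p, ¬ p < a) (hb : ∀ p, ¬ p < b) (hc : ∀ p, p < c → p = a ∨ p = b)
    (h0 : Dm 0 = 0) (h1 : Dm 1 = 0)
    (h2 : Dm 2 = (if a < c then 1 else 0) + (if b < c then 2 else 0))
    (i0 : im 0 = 1 + (if a < c then 0 else 1)) (i1 : im 1 = 1 + (if b < c then 0 else 1))
    (i2 : im 2 = (if a < c then 0 else 1) + (if b < c then 0 else 1))
    (hk : ∀ y, y ≠ a → y ≠ b → y ≠ c → key ≤ dn y * 1048576 +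
      ((if a < y then 1 else 0) + (if b < y then 2 else 0) + (if c < y then 4 else 0))) :
    Cfg 3 (seq3 a b c) Dm im key := by
  have hca : ¬ c < a := ha c
  have hcb : ¬ c < b := hb c
  have hba : ¬ b < a := ha b
  have hab' : ¬ a < b := hb a
  refine ⟨?_, ?_, ?_, ?_, ?_⟩
  · intro i hi j hj h
    rcases lt3 hi with rfl | rfl | rfl <;> rcases lt3 hj with rfl | rfl | rfl
    · rfl
    · exact absurd h hab
    · exact absurd h hac
    · exact absurd h.symm hab
    · rfl
    · exact absurd h hbc
    · exact absurd h.symm hac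
    · exact absurd h.symm hbc
    · rfl
  · intro i hi p hp
    rcases lt3 hi with rfl | rfl | rfl
    · exact absurd hp (ha p)
    · exact absurd hp (hb p)
    · rcases hc p hp with h | h
      · exact ⟨0, by norm_num, h.symm⟩
      · exact ⟨1, by norm_num, h.symm⟩
  · intro i hi j
    rcases lt3 hi with rfl | rfl | rfl
    · rw [h0]
      constructor
      · intro h
        rw [Nat.zero_testBit] at h
        exact absurd h (by simp)
      · rintro ⟨h, -⟩
        exact absurd h (Nat.not_lt_zero j)
    · rw [h1]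
      constructor
      · intro h
        rw [Nat.zero_testBit] at h
        exact absurd h (by simp)
      · rintro ⟨h, h'⟩
        have hj : j = 0 := by omega
        subst hj
        exact absurd h' hab'
    · rw [h2]
      rcases Nat.lt_or_ge j 2 with hj | hj
      · have hj' : j = 0 ∨ j = 1 := by omega
        rcases hj' with rfl | rfl
        · rw [seq3_0, seq3_2]
          by_cases k1 : a < c <;> by_cases k2 : b < c <;> simp [k1, k2]
        · rw [seq3_1, seq3_2]
          by_cases k1 : a < c <;> by_cases k2 : b < c <;> simp [k1, k2] <;> decide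
      · constructor
        · intro h
          rw [testBit_small _ j (by split_ifs <;> norm_num) hj] at h
          exact absurd h (by simp)
        · rintro ⟨h, -⟩
          omega
  · intro i hi
    rw [card3]
    rcases lt3 hi with rfl | rfl | rfl
    · rw [i0, seq3_0, seq3_1, seq3_2]
      by_cases k1 : a < c <;> simp [k1, hba, hab', hca]
    · rw [i1, seq3_0, seq3_1, seq3_2]
      by_cases k1 : b < c <;> simp [k1, hba, hab', hcb]
    · rw [i2, seq3_0, seq3_1, seq3_2]
      by_cases k1 : a < c <;> by_cases k2 : b < c <;> simp [k1, k2, hca, hcb]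
  · intro y hy
    rw [mk3, seq3_0, seq3_1, seq3_2]
    exact hk y (hy 0 (by norm_num)).symm (hy 1 (by norm_num)).symm (hy 2 (by norm_num)).symm

lemma ne_of_seq {P : Type} {a b c z : P} (h0 : z ≠ a) (h1 : z ≠ b) (h2 : z ≠ c) :
    ∀ j < 3, seq3 a b c j ≠ z := by
  intro j hj
  rcases lt3 hj with rfl | rfl | rfl
  · exact h0.symm
  · exact h1.symm
  · exact h2.symm

lemma below_min {P : Type} [Fintype P] [PartialOrder P] (p : P) :
    ∃ m : P, m ≤ p ∧ ∀ q, ¬ q < m := by
  obtain ⟨m, hm, hmin⟩ := WellFounded.has_min (wellFounded_lt : WellFounded ((· < ·) : P → P → Prop))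
    {q : P | q ≤ p} ⟨p, le_refl p⟩
  exact ⟨m, hm, fun q hq => hmin q (le_trans (le_of_lt hq) hm) hq⟩

lemma dn_pos {P : Type} [Fintype P] [PartialOrder P] {y q : P} (h : q < y) : 1 ≤ dn y :=
  Finset.card_pos.mpr ⟨q, by simp [h]⟩

lemma dn_two {P : Type} [Fintype P] [PartialOrder P] {y q r : P} (h : q < y) (h' : r < y)
    (hne : q ≠ r) : 2 ≤ dn y := by
  have hs : ({q, r} : Finset P) ⊆ univ.filter (fun p => p < y) := by
    intro p hp
    rw [Finset.mem_insert, Finset.mem_singleton] at hp
    rw [Finset.mem_filter]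
    rcases hp with rfl | rfl
    · exact ⟨Finset.mem_univ _, h⟩
    · exact ⟨Finset.mem_univ _, h'⟩
  have hc := Finset.card_le_card hs
  rw [Finset.card_pair hne] at hc
  exact hc

lemma dn_lt {P : Type} [Fintype P] [PartialOrder P] {y q : P} (h : q < y) : dn q < dn y := by
  apply Finset.card_lt_card
  rw [Finset.ssubset_iff_of_subset]
  · exact ⟨q, by simp [h], by simp⟩
  · intro p hp
    rw [Finset.mem_filter] at hp ⊢
    exact ⟨hp.1, lt_trans hp.2 h⟩

/-- if `y` has all lower elements among `a, b` and at least two lower elements, both are below `y` -/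
lemma both_of_two {P : Type} [Fintype P] [PartialOrder P] {y a b : P}
    (h : ∀ p, p < y → p = a ∨ p = b) (h2 : 2 ≤ dn y) : a < y ∧ b < y := by
  by_contra hcon
  have hle : dn y ≤ 1 := by
    apply Finset.card_le_one.mpr
    intro p hp q hq
    rw [Finset.mem_filter] at hp hq
    rcases h p hp.2 with rfl | rfl <;> rcases h q hq.2 with rfl | rfl
    · rfl
    · exact absurd ⟨hp.2, hq.2⟩ hcon
    · exact absurd ⟨hq.2, hp.2⟩ hcon
    · rfl
  omega

/-- the second case -/
lemma case_two {P : Type} [Fintype P] [PartialOrder P] (u v z : P)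
    (hu : ∀ q, ¬ q < u) (hv : ∀ q, ¬ q < v) (huv : u ≠ v) (hzv : z ≠ v) (hzu : u < z)
    (hD : ∀ p, p < z → p = u) (hall : ∀ y, y ≠ u → y ≠ v → (u < y ∨ v < y)) (hB : ¬ BotE P) :
    Cfg 3 (seq3 u v z) (fun i => if i = 2 then 1 else 0) (fun i => if i = 1 then 2 else 1) 1048577 ∧
      ∃ w, (∀ j < 3, seq3 u v z j ≠ w) ∧ dn w ≤ 2 := by
  have hvz : ¬ v < z := fun h => huv (hD v h).symm
  have hzu' : z ≠ u := ne_of_gt hzu
  constructor
  · apply cfg3 u v z _ _ _ huv hzu'.symm hzv.symm hu hv (fun p hp => Or.inl (hD p hp))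
    · rfl
    · rfl
    · simp [hzu, hvz]
    · simp [hzu]
    · simp [hvz]
    · simp [hzu, hvz]
    · intro y hyu hyv hyz
      rcases hall y hyu hyv with h | h
      · have := dn_pos h
        rw [if_pos h]
        omega
      · have := dn_pos h
        rw [if_pos h]
        omega
  · by_contra hcon
    apply hB
    refine ⟨u, v, z, hzu, ?_, ?_, ?_, ?_, ?_⟩
    · intro h
      exact hv u (lt_of_le_of_ne h huv)
    · intro h
      exact hu v (lt_of_le_of_ne h huv.symm)
    · intro h
      exact hvz (lt_of_le_of_ne h hzv.symm)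
    · intro h
      exact hv z (lt_of_le_of_ne h hzv)
    · by_contra hc2
      obtain ⟨w, hw, hmin⟩ := WellFounded.has_min
        (wellFounded_lt : WellFounded ((· < ·) : P → P → Prop))
        {w : P | w ≠ u ∧ w ≠ v ∧ w ≠ z ∧ ¬ (u < w ∧ v < w ∧ z < w)} (by
          by_contra hne
          apply hc2
          intro w h1 h2 h3
          by_contra h4
          exact hne ⟨w, h1, h2, h3, h4⟩)
      obtain ⟨h1, h2, h3, h4⟩ := hw
      -- all lower elements of `w` are among the three
      have hlow : ∀ p, p < w → p = u ∨ p = v ∨ p = z := by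
        intro p hp
        by_contra hcp
        push Not at hcp
        obtain ⟨k1, k2, k3⟩ := hcp
        have hp' : u < p ∧ v < p ∧ z < p := by
          by_contra k4
          exact hmin p ⟨k1, k2, k3, k4⟩ hp
        exact h4 ⟨lt_trans hp'.1 hp, lt_trans hp'.2.1 hp, lt_trans hp'.2.2 hp⟩
      have hdn : 3 ≤ dn w := by
        by_contra hlt
        exact hcon ⟨w, ne_of_seq h1 h2 h3, by omega⟩
      have hsub : univ.filter (fun p => p < w) ⊆ ({u, v, z} : Finset P) := by
        intro p hp
        rw [Finset.mem_filter] at hp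
        rcases hlow p hp.2 with rfl | rfl | rfl <;> simp
      have hcard : ({u, v, z} : Finset P).card ≤ 3 := Finset.card_le_three
      have heq := Finset.eq_of_subset_of_card_le hsub (le_trans hcard hdn)
      apply h4
      refine ⟨?_, ?_, ?_⟩
      · have : u ∈ univ.filter (fun p => p < w) := by rw [heq]; simp
        exact (Finset.mem_filter.mp this).2
      · have : v ∈ univ.filter (fun p => p < w) := by rw [heq]; simp
        exact (Finset.mem_filter.mp this).2
      · have : z ∈ univ.filter (fun p => p < w) := by rw [heq]; simp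
        exact (Finset.mem_filter.mp this).2

end Pool.Agent.H552.TH.P_ROOT

namespace Pool.Agent.H552.TH

open scoped Classical
open P_ROOT

theorem t_ROOT : S_ROOT := by
  intro P _ _ hcard hleast hB
  have hne : Nonempty P := Fintype.card_pos_iff.mp (by omega)
  obtain ⟨p0⟩ := hne
  obtain ⟨u, -, hu⟩ := below_min p0
  have hnu : ∃ y, ¬ u ≤ y := by
    by_contra hcon
    push Not at hcon
    exact hleast ⟨u, hcon⟩
  obtain ⟨y, hy⟩ := hnu
  obtain ⟨v, hvy, hv⟩ := below_min y
  have huv : u ≠ v := by
    intro h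
    apply hy
    rw [h]
    exact hvy
  by_cases h3 : ∃ w, w ≠ u ∧ w ≠ v ∧ ∀ q, ¬ q < w
  · obtain ⟨w, hwu, hwv, hw⟩ := h3
    refine ⟨seq3 u v w, Or.inl ?_⟩
    apply cfg3 u v w _ _ _ huv hwu.symm hwv.symm hu hv (fun p hp => absurd hp (hw p))
    · rfl
    · rfl
    · simp [hw u, hw v]
    · simp [hw u]
    · simp [hw v]
    · simp [hw u, hw v]
    · intro y _ _ _
      exact Nat.zero_le _
  · have hall : ∀ y, y ≠ u → y ≠ v → (u < y ∨ v < y) := by
      intro y hyu hyv
      obtain ⟨m, hmy, hm⟩ := below_min y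
      by_cases h1 : m = u
      · left
        rw [h1] at hmy
        exact lt_of_le_of_ne hmy hyu.symm
      · by_cases h2 : m = v
        · right
          rw [h2] at hmy
          exact lt_of_le_of_ne hmy hyv.symm
        · exact absurd ⟨m, h1, h2, hm⟩ h3
    by_cases h2 : ∃ z, z ≠ u ∧ z ≠ v ∧ dn z ≤ 1
    · obtain ⟨z, hzu, hzv, hz⟩ := h2
      have huniq : ∀ p q, p < z → q < z → p = q := by
        intro p q hp hq
        exact Finset.card_le_one.mp hz p (by simp [hp]) q (by simp [hq])
      rcases hall z hzu hzv with h | h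
      · exact ⟨seq3 u v z, Or.inr (Or.inr (case_two u v z hu hv huv hzv h
          (fun p hp => huniq p u hp h) hall hB))⟩
      · exact ⟨seq3 v u z, Or.inr (Or.inr (case_two v u z hv hu huv.symm hzu h
          (fun p hp => huniq p v hp h) (fun y h1 h2 => (hall y h2 h1).symm) hB))⟩
    · have hdn : ∀ z, z ≠ u → z ≠ v → 2 ≤ dn z := by
        intro z h1 h4
        by_contra hlt
        exact h2 ⟨z, h1, h4, by omega⟩
      have hex : ({z : P | z ≠ u ∧ z ≠ v} : Set P).Nonempty := by
        by_contra hcon
        have hsub : (univ : Finset P) ⊆ {u, v} := by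
          intro p _
          by_contra hp
          rw [Finset.mem_insert, Finset.mem_singleton] at hp
          push Not at hp
          exact hcon ⟨p, hp⟩
        have h1 := Finset.card_le_card hsub
        rw [Finset.card_univ] at h1
        have h4 : ({u, v} : Finset P).card ≤ 2 := Finset.card_le_two
        omega
      obtain ⟨z, ⟨hzu, hzv⟩, hmin⟩ := WellFounded.has_min
        (wellFounded_lt : WellFounded ((· < ·) : P → P → Prop)) _ hex
      have hlow : ∀ p, p < z → p = u ∨ p = v := by
        intro p hp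
        by_contra hcp
        push Not at hcp
        exact hmin p hcp hp
      have hb := both_of_two hlow (hdn z hzu hzv)
      refine ⟨seq3 u v z, Or.inr (Or.inl ?_)⟩
      apply cfg3 u v z _ _ _ huv hzu.symm hzv.symm hu hv hlow
      · rfl
      · rfl
      · simp [hb.1, hb.2]
      · simp [hb.1]
      · simp [hb.2]
      · simp [hb.1, hb.2]
      · intro y hyu hyv _
        by_cases hy1 : ∃ a, a < y ∧ a ≠ u ∧ a ≠ v
        · obtain ⟨a, ha, hau, hav⟩ := hy1
          have h1 := hdn a hau hav
          have h4 := dn_lt ha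
          omega
        · have hyl : ∀ p, p < y → p = u ∨ p = v := by
            intro p hp
            by_contra hcp
            push Not at hcp
            exact hy1 ⟨p, hp, hcp⟩
          have h1 := hdn y hyu hyv
          have h4 := both_of_two hyl h1
          rw [if_pos h4.1, if_pos h4.2]
          omega

end Pool.Agent.H552.TH
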