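import Pool.Agent.H552.TH.Stm

/-!
# GEN: the search runs through all possible new elements
-/

set_option autoImplicit false

open Finset

namespace Pool.Agent.H552.TH

namespace P_GEN

lemma frc_eq {α : Type} (n : ℕ) (k : ℕ → α) : frc n k = k n := by
  cases n <;> rfl

lemma brec {α : Type} (x y : α) (b : Bool) :
    @Bool.rec (fun _ => α) x y b = if b = true then y else x := by
  cases b <;> simp

lemma gen_nil (f : ℕ → ℕ → Bool) (K F N c : ℕ) : gen f K [] F N c = f N c := rfl

lemma gen_cons (f : ℕ → ℕ → Bool) (K pw D i F N c : ℕ) (L : List (ℕ × ℕ × ℕ)) :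
    gen f K ((pw, D, i) :: L) F N c = true ↔
      gen f K L (F ||| D) (N ||| pw) c = true ∧
        (F &&& pw = 0 → i < K → c < K → gen f K L F N (c + 1) = true) := by
  have h : gen f K ((pw, D, i) :: L) F N c =
      @Bool.rec (fun _ => Bool) false
          (@Bool.rec (fun _ => Bool) true
            (@Bool.rec (fun _ => Bool) true
              (@Bool.rec (fun _ => Bool) true (gen f K L F N (c + 1)) (Nat.blt c K)) (Nat.blt i K))
            (Nat.beq (Nat.land F pw) 0))
          (frc (Nat.lor F D) fun F2 => frc (Nat.lor N pw) fun N2 => gen f K L F2 N2 c) := rfl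
  rw [h, frc_eq, frc_eq, brec, brec, brec, brec]
  have e1 : (Nat.beq (Nat.land F pw) 0 = true) = (F &&& pw = 0) := by rw [Nat.beq_eq]; rfl
  have e2 : (Nat.blt i K = true) = (i < K) := by rw [Nat.blt_eq]
  have e3 : (Nat.blt c K = true) = (c < K) := by rw [Nat.blt_eq]
  simp only [e1, e2, e3]
  have e4 : gen f K L (Nat.lor F D) (Nat.lor N pw) c = gen f K L (F ||| D) (N ||| pw) c := rfl
  rw [e4]
  by_cases k0 : gen f K L (F ||| D) (N ||| pw) c = true
  · simp only [k0, if_true, true_and]
    split_ifs with k1 k2 k3
    · simp only [k1, k2, k3, true_imp_iff, forall_const]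
    · simp [k3]
    · simp [k2]
    · simp [k1]
  · simp [k0]

/-- the generalised statement -/
lemma main (f : ℕ → ℕ → Bool) (K m : ℕ) (Dm im : ℕ → ℕ) (N c : ℕ)
    (hD : ∀ i < m, ∀ j, N.testBit i = true → (Dm i).testBit j = true → N.testBit j = true)
    (hcK : c ≤ K) (him : ∀ i < m, N.testBit i = false → im i < K) :
    ∀ k ≤ m, ∀ F N' c' : ℕ, gen f K (mkE Dm im k) F N' c' = true →
      (∀ j, N'.testBit j = (decide (k ≤ j) && N.testBit j)) →
      (∀ j, F.testBit j = true → N.testBit j = true) →
      c' + ((range k).filter (fun i => N.testBit i = false)).card = c → f N c = true := by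
  intro k
  induction k with
  | zero =>
    intro _ F N' c' h hN _ hc
    have e1 : mkE Dm im 0 = [] := rfl
    rw [e1, gen_nil] at h
    have e2 : N' = N := by
      apply Nat.eq_of_testBit_eq
      intro j
      rw [hN j]
      simp
    have e3 : c' = c := by
      rw [Finset.range_zero, Finset.filter_empty, Finset.card_empty] at hc
      exact hc
    rw [e2, e3] at h
    exact h
  | succ k ih =>
    intro hk F N' c' h hN hF hc
    have e1 : mkE Dm im (k + 1) = (2 ^ k, Dm k, im k) :: mkE Dm im k := rfl
    rw [e1, gen_cons] at h
    rw [Finset.range_add_one, Finset.filter_insert] at hc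
    cases hb : N.testBit k with
    | true =>
      refine ih (by omega) (F ||| Dm k) (N' ||| 2 ^ k) c' h.1 ?_ ?_ ?_
      · intro j
        rw [Nat.testBit_or, hN j, Nat.testBit_two_pow]
        by_cases hj : k = j
        · subst hj
          simp [hb]
        · have e2 : (decide (k + 1 ≤ j)) = decide (k ≤ j) := by
            apply decide_eq_decide.2
            omega
          rw [e2]
          simp [hj]
      · intro j hj
        rw [Nat.testBit_or, Bool.or_eq_true] at hj
        rcases hj with hj | hj
        · exact hF j hj
        · exact hD k (by omega) j hb hj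
      · rw [if_neg (by rw [hb]; simp)] at hc
        exact hc
    | false =>
      rw [if_pos hb, Finset.card_insert_of_notMem (by simp)] at hc
      have hFk : F &&& 2 ^ k = 0 := by
        rw [Nat.and_two_pow]
        have : F.testBit k = false := by
          cases hF' : F.testBit k with
          | false => rfl
          | true => rw [hF k hF'] at hb; exact absurd hb (by simp)
        rw [this]
        simp
      refine ih (by omega) F N' (c' + 1) (h.2 hFk (him k (by omega) hb) (by omega)) ?_ hF (by omega)
      intro j
      rw [hN j]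
      by_cases hj : k = j
      · subst hj
        simp [hb]
      · have e2 : (decide (k + 1 ≤ j)) = decide (k ≤ j) := by
          apply decide_eq_decide.2
          omega
        rw [e2]

end P_GEN

theorem t_GEN : S_GEN := by
  intro f K m Dm im N c h hN hD hc hcK him
  refine P_GEN.main f K m Dm im N c hD hcK him m le_rfl 0 0 0 h ?_ ?_ ?_
  · intro j
    rw [Nat.zero_testBit]
    by_cases hj : m ≤ j
    · rw [Nat.testBit_eq_false_of_lt (lt_of_lt_of_le hN (Nat.pow_le_pow_right (by norm_num) hj))]
      simp
    · simp [hj]
  · intro j hj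
    rw [Nat.zero_testBit] at hj
    exact absurd hj (by simp)
  · rw [hc, Nat.zero_add]

end Pool.Agent.H552.TH
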