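import Pool.Agent.H552.TH.Stm

/-!
# The next element
-/

set_option autoImplicit false

open Finset

namespace Pool.Agent.H552.TH

open Pool.Agent.H13R3.WB
open scoped Classical

namespace P_STEP

section mkl

variable {P : Type} [PartialOrder P]

theorem mk_lt (x : ℕ → P) (y : P) (m : ℕ) : mk x y m < 2 ^ m := by
  induction m with
  | zero => simp [mk]
  | succ m ih =>
    rw [mk, pow_succ]
    split_ifs <;> omega

theorem mk_testBit (x : ℕ → P) (y : P) (m j : ℕ) :
    (mk x y m).testBit j = true ↔ j < m ∧ x j < y := by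
  induction m with
  | zero => simp [mk]
  | succ m ih =>
    rw [mk]
    split_ifs with h
    · have h1 := Nat.two_pow_add_eq_or_of_lt (mk_lt x y m) 1
      rw [mul_one] at h1
      rw [add_comm, h1, Nat.testBit_or, Bool.or_eq_true, ih, Nat.testBit_two_pow]
      simp only [decide_eq_true_eq]
      constructor
      · rintro (rfl | ⟨h2, h3⟩)
        · exact ⟨Nat.lt_succ_self _, h⟩
        · exact ⟨Nat.lt_succ_of_lt h2, h3⟩
      · rintro ⟨h2, h3⟩
        rcases Nat.lt_succ_iff_lt_or_eq.1 h2 with h4 | h4
        · exact Or.inr ⟨h4, h3⟩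
        · exact Or.inl h4.symm
    · rw [add_zero, ih]
      constructor
      · rintro ⟨h2, h3⟩
        exact ⟨Nat.lt_succ_of_lt h2, h3⟩
      · rintro ⟨h2, h3⟩
        rcases Nat.lt_succ_iff_lt_or_eq.1 h2 with h4 | h4
        · exact ⟨h4, h3⟩
        · exact absurd (h4 ▸ h3) h

theorem mk_congr {x x' : ℕ → P} {y : P} {m : ℕ} (h : ∀ j < m, x j = x' j) :
    mk x y m = mk x' y m := by
  induction m with
  | zero => rfl
  | succ m ih =>
    rw [mk, mk, ih fun j hj => h j (Nat.lt_succ_of_lt hj), h m (Nat.lt_succ_self m)]

end mkl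

section dnl

variable {P : Type} [Fintype P] [PartialOrder P]

theorem dn_lt {z y : P} (h : z < y) : dn z < dn y := by
  unfold dn
  refine Finset.card_lt_card ?_
  rw [Finset.ssubset_iff_of_subset]
  · exact ⟨z, by simp [h], by simp⟩
  · intro p hp
    simp only [Finset.mem_filter, Finset.mem_univ, true_and] at hp ⊢
    exact hp.trans h

/-- a set of indices of elements incomparable to `y` -/
theorem card_le_inc {K : ℕ} (hK : Thin K P) (y : P) (S : Finset P)
    (hS : ∀ z ∈ S, ¬ y ≤ z ∧ ¬ z ≤ y) : S.card ≤ K := by
  refine le_trans ?_ (hK y)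
  rw [Nat.card_eq_fintype_card]
  rw [← Fintype.card_coe S]
  refine Fintype.card_le_of_injective (fun z : S => (⟨z.1, hS z.1 z.2⟩ : {z : P // ¬ y ≤ z ∧ ¬ z ≤ y})) ?_
  intro a b hab
  have := congrArg Subtype.val hab
  exact Subtype.ext this

end dnl

end P_STEP

open P_STEP

theorem t_STEP : S_STEP := by
  intro P _ _ K m x Dm im key hK hm hm20 hC
  -- the free elements
  have hne : (univ.filter fun y : P => ∀ j < m, x j ≠ y).Nonempty := by
    by_contra h
    rw [Finset.not_nonempty_iff_eq_empty, Finset.filter_eq_empty_iff] at h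
    have h1 : (univ : Finset P) ⊆ (range m).image x := by
      intro y _
      have := h (Finset.mem_univ y)
      push Not at this
      obtain ⟨j, hj, hj'⟩ := this
      exact Finset.mem_image.2 ⟨j, Finset.mem_range.2 hj, hj'⟩
    have h2 := (Finset.card_le_card h1).trans Finset.card_image_le
    rw [Finset.card_univ, Finset.card_range] at h2
    omega
  obtain ⟨y, hy, hmin'⟩ := Finset.exists_min_image _ (fun y => dn y * 1048576 + mk x y m) hne
  have hyx : ∀ j < m, x j ≠ y := (Finset.mem_filter.1 hy).2
  have hmin : ∀ z, (∀ j < m, x j ≠ z) →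
      dn y * 1048576 + mk x y m ≤ dn z * 1048576 + mk x z m := fun z hz =>
    hmin' z (Finset.mem_filter.2 ⟨Finset.mem_univ _, hz⟩)
  have h20 : (2 : ℕ) ^ m ≤ 1048576 := by
    calc (2 : ℕ) ^ m ≤ 2 ^ 20 := Nat.pow_le_pow_right (by norm_num) hm20
      _ = 1048576 := by norm_num
  -- the elements below `y`
  have hbelow : ∀ z, z < y → ∃ j < m, x j = z := by
    intro z hz
    by_contra h
    push Not at h
    have h1 := hmin z h
    have h2 := dn_lt hz
    have h3 := mk_lt x z m
    omega
  obtain ⟨N, hN⟩ : ∃ N, N = mk x y m := ⟨_, rfl⟩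
  have hNt : ∀ j, N.testBit j = true ↔ j < m ∧ x j < y := fun j => by
    rw [hN]
    exact mk_testBit x y m j
  have hNf : ∀ j < m, (N.testBit j = false ↔ ¬ x j < y) := by
    intro j hj
    have h1 := hNt j
    constructor
    · intro h2 h3
      rw [h1.2 ⟨hj, h3⟩] at h2
      exact Bool.noConfusion h2
    · intro h2
      rw [← Bool.not_eq_true]
      exact fun h3 => h2 (h1.1 h3).2
  have hNlt : N < 2 ^ m := by rw [hN]; exact mk_lt x y m
  -- `y` is not below the others
  have hny : ∀ j < m, ¬ y < x j := by
    intro j hj h1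
    obtain ⟨i, hi, hi'⟩ := hC.low j hj y h1
    exact hyx i (hi.trans hj) hi'
  obtain ⟨c, hc⟩ : ∃ c, c = ((range m).filter (fun i => N.testBit i = false)).card := ⟨_, rfl⟩
  have hcm : c ≤ m := by
    rw [hc]
    exact (Finset.card_filter_le _ _).trans (by rw [Finset.card_range])
  have hxinj : Set.InjOn x (range m : Set ℕ) := by
    intro i hi j hj hij
    exact hC.inj i (Finset.mem_range.1 hi) j (Finset.mem_range.1 hj) hij
  have hcard : ∀ (p : ℕ → Prop) [DecidablePred p],
      (((range m).filter p).image x).card = ((range m).filter p).card := by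
    intro p _
    refine Finset.card_image_of_injOn (hxinj.mono ?_)
    exact_mod_cast Finset.filter_subset _ _
  have hdn : dn y = m - c := by
    have h1 : (univ.filter fun p : P => p < y) = ((range m).filter fun j => x j < y).image x := by
      ext z
      simp only [Finset.mem_filter, Finset.mem_univ, true_and, Finset.mem_image, Finset.mem_range]
      constructor
      · intro hz
        obtain ⟨j, hj, rfl⟩ := hbelow z hz
        exact ⟨j, ⟨hj, hz⟩, rfl⟩
      · rintro ⟨j, ⟨-, hj⟩, rfl⟩
        exact hj
    have h2 : (range m).filter (fun i => N.testBit i = false) =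
        (range m).filter (fun j => ¬ x j < y) :=
      Finset.filter_congr fun j hj => hNf j (Finset.mem_range.1 hj)
    have h3 := Finset.card_filter_add_card_filter_not (s := range m) (fun j => x j < y)
    rw [← h2, ← hc, Finset.card_range] at h3
    unfold dn
    rw [h1, hcard]
    omega
  have hinc : ∀ j < m, N.testBit j = false → ¬ y ≤ x j ∧ ¬ x j ≤ y := by
    intro j hj hj'
    rw [hNf j hj] at hj'
    exact ⟨fun h => hny j hj (lt_of_le_of_ne h (hyx j hj).symm),
      fun h => hj' (lt_of_le_of_ne h (hyx j hj))⟩
  have hcK : c ≤ K := by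
    rw [hc, ← hcard]
    refine card_le_inc hK y _ fun z hz => ?_
    obtain ⟨j, hj, rfl⟩ := Finset.mem_image.1 hz
    obtain ⟨hj1, hj2⟩ := Finset.mem_filter.1 hj
    exact hinc j (Finset.mem_range.1 hj1) hj2
  have himK : ∀ i < m, N.testBit i = false → im i < K := by
    intro i hi hif
    obtain ⟨hi1, hi2⟩ := hinc i hi hif
    rw [hC.inc i hi]
    have h1 := card_le_inc hK (x i)
      (insert y (((range m).filter (fun j => j ≠ i ∧ ¬ x j < x i ∧ ¬ x i < x j)).image x)) (by
        intro z hz
        rcases Finset.mem_insert.1 hz with rfl | hz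
        · exact ⟨hi2, hi1⟩
        · obtain ⟨j, hj, rfl⟩ := Finset.mem_image.1 hz
          obtain ⟨hj1, hj2, hj3, hj4⟩ := Finset.mem_filter.1 hj
          have hne' : x j ≠ x i := fun h =>
            hj2 (hC.inj j (Finset.mem_range.1 hj1) i hi h)
          exact ⟨fun h => hj4 (lt_of_le_of_ne h hne'.symm), fun h => hj3 (lt_of_le_of_ne h hne')⟩)
    rw [Finset.card_insert_of_notMem, hcard] at h1
    · omega
    · intro hy'
      obtain ⟨j, hj, hj'⟩ := Finset.mem_image.1 hy'
      exact hyx j (Finset.mem_range.1 (Finset.mem_filter.1 hj).1) hj'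
  have hup : ∀ j < m, Function.update x m y j = x j := fun j hj =>
    Function.update_of_ne hj.ne y x
  have hupm : Function.update x m y m = y := Function.update_self m y x
  refine ⟨y, N, c, hyx, hN, hNlt, hcm, hdn, hmin, ?_, hc, hcK, himK, ?_, ?_⟩
  · intro i hi j hNi hDj
    have h1 := (hNt i).1 hNi
    have h2 := (hC.mask i hi j).1 hDj
    exact (hNt j).2 ⟨h2.1.trans hi, h2.2.trans h1.2⟩
  · have h1 := hC.key y hyx
    rw [hdn, ← hN] at h1
    exact h1
  · refine ⟨?_, ?_, ?_, ?_, ?_⟩
    · intro i hi j hj hij
      rcases Nat.lt_succ_iff_lt_or_eq.1 hi with hi | rfl <;>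
        rcases Nat.lt_succ_iff_lt_or_eq.1 hj with hj | rfl
      · rw [hup i hi, hup j hj] at hij
        exact hC.inj i hi j hj hij
      · rw [hup i hi, hupm] at hij
        exact absurd hij (hyx i hi)
      · rw [hup j hj, hupm] at hij
        exact absurd hij.symm (hyx j hj)
      · rfl
    · intro i hi p hp
      rcases Nat.lt_succ_iff_lt_or_eq.1 hi with hi | rfl
      · rw [hup i hi] at hp
        obtain ⟨j, hj, hj'⟩ := hC.low i hi p hp
        exact ⟨j, hj, by rw [hup j (hj.trans hi)]; exact hj'⟩
      · rw [hupm] at hp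
        obtain ⟨j, hj, hj'⟩ := hbelow p hp
        exact ⟨j, hj, by rw [hup j hj]; exact hj'⟩
    · intro i hi j
      rcases Nat.lt_succ_iff_lt_or_eq.1 hi with hi | rfl
      · rw [Function.update_of_ne hi.ne, hC.mask i hi j, hup i hi]
        constructor
        · rintro ⟨h1, h2⟩
          exact ⟨h1, by rw [hup j (h1.trans hi)]; exact h2⟩
        · rintro ⟨h1, h2⟩
          rw [hup j (h1.trans hi)] at h2
          exact ⟨h1, h2⟩
      · rw [Function.update_self, hNt j, hupm]
        constructor
        · rintro ⟨h1, h2⟩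
          exact ⟨h1, by rw [hup j h1]; exact h2⟩
        · rintro ⟨h1, h2⟩
          rw [hup j h1] at h2
          exact ⟨h1, h2⟩
    · intro i hi
      rcases Nat.lt_succ_iff_lt_or_eq.1 hi with hi | rfl
      · simp only [if_neg hi.ne]
        have h1 : (range (m + 1)).filter (fun j => j ≠ i ∧
            ¬ Function.update x m y j < Function.update x m y i ∧
            ¬ Function.update x m y i < Function.update x m y j) =
            if N.testBit i = true then
              (range m).filter (fun j => j ≠ i ∧ ¬ x j < x i ∧ ¬ x i < x j)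
            else insert m ((range m).filter (fun j => j ≠ i ∧ ¬ x j < x i ∧ ¬ x i < x j)) := by
          rw [Finset.range_add_one, Finset.filter_insert, hupm, hup i hi]
          have h2 : (range m).filter (fun j => j ≠ i ∧ ¬ Function.update x m y j < x i ∧
              ¬ x i < Function.update x m y j) =
              (range m).filter (fun j => j ≠ i ∧ ¬ x j < x i ∧ ¬ x i < x j) :=
            Finset.filter_congr fun j hj => by rw [hup j (Finset.mem_range.1 hj)]
          rw [h2]
          by_cases h3 : N.testBit i = true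
          · rw [if_pos h3, if_neg]
            rintro ⟨-, -, h4⟩
            exact h4 ((hNt i).1 h3).2
          · rw [if_neg h3, if_pos]
            rw [Bool.not_eq_true, hNf i hi] at h3
            exact ⟨hi.ne', hny i hi, h3⟩
        rw [h1]
        split_ifs with h3
        · exact hC.inc i hi
        · rw [Finset.card_insert_of_notMem, ← hC.inc i hi]
          simp
      · rw [if_pos rfl, hc, Finset.range_add_one, Finset.filter_insert, if_neg (by simp)]
        congr 1
        refine Finset.filter_congr fun j hj => ?_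
        have hj' := Finset.mem_range.1 hj
        rw [hup j hj', hupm, hNf j hj']
        exact ⟨fun h => ⟨hj'.ne, h, hny j hj'⟩, fun h => h.2.1⟩
    · intro z hz
      have hz' : ∀ j < m, x j ≠ z := fun j hj => by
        have := hz j (Nat.lt_succ_of_lt hj)
        rwa [hup j hj] at this
      have h1 := hmin z hz'
      rw [hdn, ← hN] at h1
      have h2 : mk x z m ≤ mk (Function.update x m y) z (m + 1) := by
        rw [mk, mk_congr hup]
        exact Nat.le_add_right _ _
      omega

end Pool.Agent.H552.TH
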