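import Mathlib
import Pool.Agent.H552.TH.Abs
import Pool.Graph.R_pool_sql_team_seeded_64922ed1.X65.Loc.Low

/-! The meaning of the tables. -/

set_option autoImplicit false
set_option linter.unusedSectionVars false

open Finset
open scoped Classical

namespace Pool.Agent.H552.TH

open Pool.Agent.H13R3.WB Pool.Agent.X65.Loc

variable {P : Type} [Fintype P] [PartialOrder P]

/-- the set with the digits of `J` -/
noncomputable def St (x : ℕ → P) (J : ℕ) : Finset P :=
  univ.filter (fun p => ∃ i, J.testBit i = true ∧ x i = p)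

lemma mem_St {x : ℕ → P} {J : ℕ} {p : P} : p ∈ St x J ↔ ∃ i, J.testBit i = true ∧ x i = p := by
  unfold St
  rw [mem_filter]
  exact ⟨fun h => h.2, fun h => ⟨mem_univ _, h⟩⟩

lemma testBit_or_pow (J i j : ℕ) : (J ||| 2 ^ i).testBit j = true ↔ J.testBit j = true ∨ j = i := by
  rw [Nat.testBit_or, Nat.testBit_two_pow, Bool.or_eq_true, decide_eq_true_eq]
  constructor
  · rintro (h | h)
    · exact Or.inl h
    · exact Or.inr h.symm
  · rintro (h | h)
    · exact Or.inl h
    · exact Or.inr h.symm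

lemma testBit_or_pow_false (J i j : ℕ) :
    (J ||| 2 ^ i).testBit j = false ↔ J.testBit j = false ∧ j ≠ i := by
  have h := testBit_or_pow J i j
  rw [← Bool.not_eq_true, h, not_or, Bool.not_eq_true]

lemma St_or (x : ℕ → P) (J i : ℕ) : St x (J ||| 2 ^ i) = insert (x i) (St x J) := by
  ext p
  rw [mem_insert, mem_St, mem_St]
  constructor
  · rintro ⟨j, h1, h2⟩
    rw [testBit_or_pow] at h1
    rcases h1 with h1 | h1
    · exact Or.inr ⟨j, h1, h2⟩
    · left; rw [← h2, h1]
  · rintro (h | ⟨j, h1, h2⟩)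
    · exact ⟨i, (testBit_or_pow _ _ _).2 (Or.inr rfl), h.symm⟩
    · exact ⟨j, (testBit_or_pow _ _ _).2 (Or.inl h1), h2⟩

/-- the part of a configuration which is used here -/
structure Lab (x : ℕ → P) (Dm : ℕ → ℕ) (m : ℕ) : Prop where
  inj : ∀ i < m, ∀ j < m, x i = x j → i = j
  low : ∀ i < m, ∀ p, p < x i → ∃ j < i, x j = p
  mask : ∀ i < m, ∀ j, (Dm i).testBit j = true ↔ j < i ∧ x j < x i

lemma Lab.mem {x : ℕ → P} {Dm : ℕ → ℕ} {m : ℕ} (h : Lab x Dm m) {J : ℕ}
    (hJ : ∀ i, J.testBit i = true → i < m) {i : ℕ} (hi : i < m) :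
    x i ∈ St x J ↔ J.testBit i = true := by
  rw [mem_St]
  constructor
  · rintro ⟨j, h1, h2⟩
    rw [← h.inj j (hJ j h1) i hi h2]
    exact h1
  · intro h1
    exact ⟨i, h1, rfl⟩

lemma sub_iff (D J : ℕ) : D &&& J = D ↔ ∀ j, D.testBit j = true → J.testBit j = true := by
  constructor
  · intro h j hj
    rw [← h, Nat.testBit_and, Bool.and_eq_true] at hj
    exact hj.2
  · intro h
    apply Nat.eq_of_testBit_eq
    intro j
    rw [Nat.testBit_and]
    cases hj : D.testBit j
    · rfl
    · rw [h j hj]; rfl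

lemma Lab.low_iff {x : ℕ → P} {Dm : ℕ → ℕ} {m : ℕ} (h : Lab x Dm m) {J : ℕ}
    (hJ : ∀ i, J.testBit i = true → i < m) (hL : IsLow (St x J)) {i : ℕ} (hi : i < m)
    (hiJ : J.testBit i = false) :
    IsLow (insert (x i) (St x J)) ↔ Dm i &&& J = Dm i := by
  rw [sub_iff]
  constructor
  · intro h1 j hj
    obtain ⟨h2, h3⟩ := (h.mask i hi j).1 hj
    have h4 := h1 (x i) (mem_insert_self _ _) (x j) h3.le
    rcases mem_insert.1 h4 with h5 | h5
    · exact absurd h5 h3.ne
    · exact (h.mem hJ (by omega)).1 h5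
  · intro h1 p hp q hq
    rcases mem_insert.1 hp with h2 | h2
    · subst h2
      rcases hq.lt_or_eq with h3 | h3
      · obtain ⟨j, hj, rfl⟩ := h.low i hi q h3
        refine mem_insert_of_mem ((h.mem hJ (by omega)).2 (h1 j ?_))
        exact (h.mask i hi j).2 ⟨hj, h3⟩
      · rw [h3]; exact mem_insert_self _ _
    · exact mem_insert_of_mem (hL p h2 q hq)

/-- the sets which arise by adding an element -/
lemma Lab.sum_adm {x : ℕ → P} {Dm : ℕ → ℕ} {m : ℕ} (h : Lab x Dm m) {J s : ℕ}
    (hJ : ∀ i, J.testBit i = true → i < m) (hL : IsLow (St x J)) (hs : (St x J).card = s)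
    (hU : ∀ p, (∀ j < m, x j ≠ p) → s + 1 ≤ dn p) (g : Finset P → ℕ) :
    ∑ p ∈ univ.filter (fun p => p ∉ St x J ∧ IsLow (insert p (St x J))), g (insert p (St x J)) =
      ∑ i ∈ adm Dm J m, g (St x (J ||| 2 ^ i)) := by
  symm
  have himg : univ.filter (fun p => p ∉ St x J ∧ IsLow (insert p (St x J))) =
      (adm Dm J m).image x := by
    ext p
    rw [mem_filter, mem_image]
    constructor
    · rintro ⟨-, h1, h2⟩
      have h3 : ∃ i < m, x i = p := by
        by_contra hcon
        push Not at hcon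
        have h4 := hU p hcon
        have h5 : dn p ≤ (St x J).card := by
          unfold dn
          refine card_le_card fun q hq => ?_
          have h6 := (mem_filter.1 hq).2
          rcases mem_insert.1 (h2 p (mem_insert_self _ _) q h6.le) with h7 | h7
          · exact absurd h7 h6.ne
          · exact h7
        omega
      obtain ⟨i, hi, rfl⟩ := h3
      have h4 : J.testBit i = false := by
        rw [h.mem hJ hi] at h1
        rw [← Bool.not_eq_true]; exact h1
      refine ⟨i, ?_, rfl⟩
      unfold adm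
      rw [mem_filter, mem_range]
      exact ⟨hi, h4, (h.low_iff hJ hL hi h4).1 h2⟩
    · rintro ⟨i, hi, rfl⟩
      unfold adm at hi
      rw [mem_filter, mem_range] at hi
      obtain ⟨h1, h2, h3⟩ := hi
      refine ⟨mem_univ _, ?_, (h.low_iff hJ hL h1 h2).2 h3⟩
      rw [h.mem hJ h1, h2]
      simp
  rw [himg, sum_image]
  · exact sum_congr rfl fun i _ => by rw [St_or]
  · intro i hi j hj hij
    unfold adm at hi hj
    rw [mem_coe, mem_filter, mem_range] at hi hj
    exact h.inj i hi.1 j hj.1 hij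

/-- the number of orders which agree with `a` before `b` -/
def co (a b : ℕ) (t : AE) : ℕ :=
  if t.1.testBit a = true then t.2.2 a b else if t.1.testBit b = true then 0 else t.2.1

lemma lin_e (G : ℕ → ℕ) : Lin (fun t => t.2.1 * G t.1) := by
  intro J e e' f f'
  simp only
  rw [add_mul]

lemma lin_co (a b : ℕ) (G : ℕ → ℕ) : Lin (fun t => co a b t * G t.1) := by
  intro J e e' f f'
  unfold co
  simp only
  split_ifs
  · rw [add_mul]
  · simp
  · rw [add_mul]

/-- conditions on single entries -/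
structure EntOK (x : ℕ → P) (m s : ℕ) (t : AE) : Prop where
  bits : ∀ i, t.1.testBit i = true → i < m
  low : IsLow (St x t.1)
  card : (St x t.1).card = s
  le : ∀ a b, t.2.2 a b ≤ t.2.1
  zero : ∀ a b, t.1.testBit a = false → t.2.2 a b = 0

lemma EntOK.add {x : ℕ → P} {m s : ℕ} : Add (EntOK x m s) := by
  intro J e f e' f' h h'
  refine ⟨h.bits, h.low, h.card, fun a b => ?_, fun a b hab => ?_⟩
  · have h1 := h.le a b
    have h2 := h'.le a b
    simp only at h1 h2 ⊢
    omega
  · have h1 := h.zero a b hab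
    have h2 := h'.zero a b hab
    simp only at h1 h2 ⊢
    omega

/-- the table is correct -/
structure TabOK (x : ℕ → P) (m s : ℕ) (A : List AE) : Prop where
  ent : ∀ t ∈ A, EntOK x m s t
  tot : tsum (fun t => t.2.1 * D (P := P) IsLow (Fintype.card P - s) (St x t.1)) A =
    D (P := P) IsLow (Fintype.card P) ∅
  par : ∀ a < 6, ∀ b < 6, a ≠ b → a < m → b < m →
    tsum (fun t => co a b t * D (Axy (x a) (x b)) (Fintype.card P - s) (St x t.1)) A =
      D (Axy (x a) (x b)) (Fintype.card P) ∅

lemma nw_OK {x : ℕ → P} {Dm : ℕ → ℕ} {m s : ℕ} (h : Lab x Dm m) {J e : ℕ} {f : ℕ → ℕ → ℕ}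
    (ht : EntOK x m s (J, e, f)) {i : ℕ} (hi : i ∈ adm Dm J m) : EntOK x m (s + 1) (nw J e f i) := by
  unfold adm at hi
  rw [mem_filter, mem_range] at hi
  obtain ⟨h1, h2, h3⟩ := hi
  have hnot : x i ∉ St x J := by
    rw [h.mem ht.bits h1, h2]
    simp
  have hz := ht.zero
  have hl := ht.le
  simp only at hz hl
  refine ⟨?_, ?_, ?_, ?_, ?_⟩
  · intro j hj
    rcases (testBit_or_pow _ _ _).1 hj with h4 | h4
    · exact ht.bits j h4
    · rw [h4]; exact h1
  · show IsLow (St x (J ||| 2 ^ i))
    rw [St_or]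
    exact (h.low_iff ht.bits ht.low h1 h2).2 h3
  · show (St x (J ||| 2 ^ i)).card = s + 1
    rw [St_or, card_insert_of_notMem hnot]
    have := ht.card
    simp only at this
    rw [this]
  · intro a b
    show (if i < 6 then upf f e i (J ||| 2 ^ i) else f) a b ≤ e
    split_ifs with h6
    · unfold upf
      by_cases hai : a = i
      · subst hai
        rw [hz a b h2]
        split_ifs <;> omega
      · rw [if_neg (fun hh => hai hh.1)]
        exact hl a b
    · exact hl a b
  · intro a b hab
    show (if i < 6 then upf f e i (J ||| 2 ^ i) else f) a b = 0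
    have hab2 := (testBit_or_pow_false J i a).1 hab
    split_ifs with h6
    · unfold upf
      rw [if_neg (fun hh => hab2.2 hh.1), hz a b hab2.1]
    · exact hz a b hab2.1

/-- the sum for pairs -/
lemma co_step {x : ℕ → P} {Dm : ℕ → ℕ} {m s : ℕ} (h : Lab x Dm m) {J e : ℕ} {f : ℕ → ℕ → ℕ}
    (ht : EntOK x m s (J, e, f)) (hU : ∀ p, (∀ j < m, x j ≠ p) → s + 1 ≤ dn p) (k : ℕ)
    {a b : ℕ} (ha : a < 6) (hab : a ≠ b) (ham : a < m) (hbm : b < m) :
    ∑ i ∈ adm Dm J m, co a b (nw J e f i) * D (Axy (x a) (x b)) k (St x (J ||| 2 ^ i)) =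
      co a b (J, e, f) * D (Axy (x a) (x b)) (k + 1) (St x J) := by
  have h1 : D (Axy (x a) (x b)) (k + 1) (St x J) =
      ∑ i ∈ adm Dm J m, if Axy (x a) (x b) (St x (J ||| 2 ^ i)) then
        D (Axy (x a) (x b)) k (St x (J ||| 2 ^ i)) else 0 := by
    have e1 := h.sum_adm ht.bits ht.low ht.card hU
      (fun S => if Axy (x a) (x b) S then D (Axy (x a) (x b)) k S else 0)
    simp only at e1
    rw [← e1, D, ← sum_filter, filter_filter]
    refine sum_congr (filter_congr fun p _ => ?_) fun _ _ => rfl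
    constructor
    · rintro ⟨h2, h3⟩
      exact ⟨⟨h2, h3.1⟩, h3⟩
    · rintro ⟨⟨h2, -⟩, h3⟩
      exact ⟨h2, h3⟩
  rw [h1, mul_sum]
  refine sum_congr rfl fun i hi => ?_
  have hnw := nw_OK h ht hi
  unfold adm at hi
  rw [mem_filter, mem_range] at hi
  obtain ⟨k1, k2, k3⟩ := hi
  have hlow : IsLow (St x (J ||| 2 ^ i)) := hnw.low
  have hb2 : ∀ j, (J ||| 2 ^ i).testBit j = true → j < m := hnw.bits
  have hA : Axy (x a) (x b) (St x (J ||| 2 ^ i)) ↔
      ((J ||| 2 ^ i).testBit b = true → (J ||| 2 ^ i).testBit a = true) := by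
    unfold Axy
    rw [h.mem hb2 ham, h.mem hb2 hbm]
    exact ⟨fun hh => hh.2, fun hh => ⟨hlow, hh⟩⟩
  have hz := ht.zero
  simp only at hz
  have hco : co a b (nw J e f i) = if (J ||| 2 ^ i).testBit a = true then
      (if i < 6 then upf f e i (J ||| 2 ^ i) else f) a b else
      if (J ||| 2 ^ i).testBit b = true then 0 else e := rfl
  have hco0 : co a b (J, e, f) = if J.testBit a = true then f a b else
      if J.testBit b = true then 0 else e := rfl
  rw [hco, hco0]
  rw [testBit_or_pow, testBit_or_pow] at hA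
  simp only [testBit_or_pow]
  by_cases a1 : J.testBit a = true
  · have hai : a ≠ i := by
      intro hh; rw [hh, k2] at a1; exact absurd a1 (by simp)
    have e2 : (if i < 6 then upf f e i (J ||| 2 ^ i) else f) a b = f a b := by
      split_ifs
      · unfold upf
        rw [if_neg (fun hh => hai hh.1), add_zero]
      · rfl
    rw [if_pos (Or.inl a1), if_pos a1, e2, if_pos (hA.2 (fun _ => Or.inl a1))]
  · by_cases hai : a = i
    · subst hai
      have e2 : (if a < 6 then upf f e a (J ||| 2 ^ a) else f) a b =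
          if J.testBit b = true then 0 else e := by
        rw [if_pos ha]
        unfold upf
        rw [hz a b k2, zero_add]
        by_cases b1 : J.testBit b = true
        · rw [if_pos b1, if_neg]
          intro hh
          have := (testBit_or_pow_false _ _ _).1 hh.2
          rw [this.1] at b1
          exact absurd b1 (by simp)
        · rw [if_neg b1, if_pos]
          refine ⟨rfl, (testBit_or_pow_false _ _ _).2 ⟨?_, hab.symm⟩⟩
          rw [← Bool.not_eq_true]; exact b1
      rw [if_pos (Or.inr rfl), if_neg a1, e2, if_pos (hA.2 (fun _ => Or.inr rfl))]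
    · have e3 : ¬ (J.testBit a = true ∨ a = i) := fun hh => hh.elim a1 hai
      rw [if_neg e3, if_neg a1]
      by_cases b1 : J.testBit b = true
      · rw [if_pos (Or.inl b1), if_pos b1, zero_mul, zero_mul]
      · by_cases hbi : b = i
        · rw [if_pos (Or.inr hbi), if_neg b1, zero_mul, if_neg, mul_zero]
          intro hh
          exact e3 (hA.1 hh (Or.inr hbi))
        · have e4 : ¬ (J.testBit b = true ∨ b = i) := fun hh => hh.elim b1 hbi
          rw [if_neg e4, if_neg b1, if_pos (hA.2 (fun hh => absurd hh e4))]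

end Pool.Agent.H552.TH
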