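import Mathlib
import Pool.Agent.H552.TH.Tab

/-! The steps of the tables, and the balanced pairs. -/

set_option autoImplicit false
set_option linter.unusedSectionVars false

open Finset
open scoped Classical

namespace Pool.Agent.H552.TH

open Pool.Agent.H13R3.WB Pool.Agent.X65.Loc

variable {P : Type} [Fintype P] [PartialOrder P]

/-- the missing elements -/
lemma Lab.miss {x : ℕ → P} {Dm : ℕ → ℕ} {m : ℕ} (h : Lab x Dm m) {J s : ℕ}
    (hJ : ∀ i, J.testBit i = true → i < m) (hs : (St x J).card = s) :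
    ((range m).filter (fun i => J.testBit i = false)).card ≤ m - s := by
  have h1 : ((range m).filter (fun i => J.testBit i = true)).card = s := by
    rw [← hs]
    have h2 : St x J = ((range m).filter (fun i => J.testBit i = true)).image x := by
      ext p
      rw [mem_St, mem_image]
      constructor
      · rintro ⟨i, h3, h4⟩
        exact ⟨i, mem_filter.2 ⟨mem_range.2 (hJ i h3), h3⟩, h4⟩
      · rintro ⟨i, h3, h4⟩
        exact ⟨i, (mem_filter.1 h3).2, h4⟩
    rw [h2, card_image_of_injOn]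
    intro i hi j hj hij
    rw [mem_coe, mem_filter, mem_range] at hi hj
    exact h.inj i hi.1 j hj.1 hij
  have h3 := card_filter_add_card_filter_not (s := range m) (fun i => J.testBit i = true)
  rw [card_range, h1] at h3
  have h4 : (range m).filter (fun i => J.testBit i = false) =
      (range m).filter (fun i => ¬ J.testBit i = true) := by
    refine filter_congr fun i _ => ?_
    rw [Bool.not_eq_true]
  rw [h4]
  omega

lemma tsum_adv {Φ Ψ : AE → ℕ} (hΦ : Lin Φ) {x : ℕ → P} {Dm : ℕ → ℕ} {m s : ℕ} (h : Lab x Dm m)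
    (hstep : ∀ J e f, EntOK x m s (J, e, f) → ∑ i ∈ adm Dm J m, Φ (nw J e f i) = Ψ (J, e, f)) :
    ∀ (A R : List AE), (∀ t ∈ A, EntOK x m s t) →
      tsum Φ (advA Dm m (m - s) A R) = tsum Ψ A + tsum Φ R := by
  intro A
  induction A with
  | nil => intro R _; rw [advA, tsum_nil, zero_add]
  | cons t A ih =>
    intro R hA
    obtain ⟨J, e, f⟩ := t
    have h1 : EntOK x m s (J, e, f) := hA _ (by simp)
    have hc := h1.card
    have hb := h1.bits
    simp only at hc hb
    rw [advA, ih _ (fun t ht => hA t (by simp [ht])), tsum_cons,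
      tsum_push hΦ Dm J e f m (m - s) R (h.miss hb hc), hstep J e f h1]
    omega

lemma mem_adv {x : ℕ → P} {Dm : ℕ → ℕ} {m s : ℕ} (h : Lab x Dm m) (r : ℕ) :
    ∀ (A R : List AE), (∀ t ∈ A, EntOK x m s t) → (∀ t ∈ R, EntOK x m (s + 1) t) →
      ∀ t ∈ advA Dm m r A R, EntOK x m (s + 1) t := by
  intro A
  induction A with
  | nil => intro R _ hR; rw [advA]; exact hR
  | cons t A ih =>
    intro R hA hR
    obtain ⟨J, e, f⟩ := t
    rw [advA]
    refine ih _ (fun t ht => hA t (by simp [ht])) ?_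
    exact mem_push EntOK.add Dm J e f m r R hR (fun i hi => nw_OK h (hA _ (by simp)) hi)

theorem TabOK.adv {x : ℕ → P} {Dm : ℕ → ℕ} {m s : ℕ} (h : Lab x Dm m) {A : List AE}
    (hA : TabOK x m s A) (hU : ∀ p, (∀ j < m, x j ≠ p) → s + 1 ≤ dn p)
    (hs : s + 1 ≤ Fintype.card P) : TabOK x m (s + 1) (advA Dm m (m - s) A []) := by
  obtain ⟨k, hk⟩ : ∃ k, Fintype.card P - s = k + 1 := ⟨Fintype.card P - s - 1, by omega⟩
  have hk2 : Fintype.card P - (s + 1) = k := by omega
  refine ⟨mem_adv h (m - s) A [] hA.ent (by simp), ?_, ?_⟩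
  · rw [hk2, ← hA.tot, hk]
    rw [tsum_adv (Ψ := fun t => t.2.1 * D (P := P) IsLow (k + 1) (St x t.1))
      (lin_e fun J => D (P := P) IsLow k (St x J)) h ?_ A [] hA.ent, tsum_nil, add_zero]
    intro J e f ht
    have e1 := h.sum_adm ht.bits ht.low ht.card hU (fun S => D (P := P) IsLow k S)
    simp only at e1
    show ∑ i ∈ adm Dm J m, e * D (P := P) IsLow k (St x (J ||| 2 ^ i)) =
      e * D (P := P) IsLow (k + 1) (St x J)
    rw [← mul_sum, ← e1, D]
  · intro a ha b hb hab ham hbm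
    rw [hk2, ← hA.par a ha b hb hab ham hbm, hk]
    rw [tsum_adv (Ψ := fun t => co a b t * D (Axy (x a) (x b)) (k + 1) (St x t.1))
      (lin_co a b fun J => D (Axy (x a) (x b)) k (St x J)) h ?_ A [] hA.ent, tsum_nil, add_zero]
    intro J e f ht
    exact co_step h ht hU k ha hab ham hbm

lemma TabOK.advN {x : ℕ → P} {Dm im : ℕ → ℕ} {m : ℕ} (h : Lab x Dm m) : ∀ (j s : ℕ) (A : List AE),
    TabOK x m s A → (∀ p, (∀ j < m, x j ≠ p) → s + j ≤ dn p) → s + j ≤ Fintype.card P →
    ∃ A', TabOK x m (s + j) A' ∧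
      Pool.Agent.H552.TH.advN (mkE Dm im m) j (m - s) (A.map conc) = A'.map conc := by
  intro j
  induction j with
  | zero => intro s A hA _ _; exact ⟨A, hA, advN_zero _ _ _⟩
  | succ j ih =>
    intro s A hA hU hs
    have h1 := hA.adv h (fun p hp => by have := hU p hp; omega) (by omega)
    obtain ⟨A', h2, h3⟩ := ih (s + 1) _ h1 (fun p hp => by have := hU p hp; omega) (by omega)
    refine ⟨A', ?_, ?_⟩
    · rw [show s + (j + 1) = s + 1 + j by omega]; exact h2
    · rw [advN_succ, ← h3]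
      have h4 : Pool.Agent.H552.TH.adv (mkE Dm im m) (m - s) (A.map conc) [] =
          (advA Dm m (m - s) A []).map conc := adv_conc Dm im m (m - s) A []
      rw [h4, show m - (s + 1) = m - s - 1 by omega]

/-- the first table -/
theorem TabOK.init (x : ℕ → P) (m : ℕ) : TabOK x m 0 [(0, 1, fun _ _ => 0)] := by
  have h0 : St x 0 = ∅ := by
    rw [Finset.eq_empty_iff_forall_notMem]
    intro p hp
    rw [mem_St] at hp
    obtain ⟨i, hi, -⟩ := hp
    rw [Nat.zero_testBit] at hi
    exact absurd hi (by simp)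
  refine ⟨?_, ?_, ?_⟩
  · intro t ht
    rw [List.mem_singleton] at ht
    subst ht
    refine ⟨?_, ?_, ?_, ?_, ?_⟩
    · intro i hi
      simp only [Nat.zero_testBit] at hi
      exact absurd hi (by simp)
    · rw [show ((0, 1, fun _ _ => 0) : AE).1 = 0 from rfl, h0]
      intro p hp
      exact absurd hp (notMem_empty _)
    · rw [show ((0, 1, fun _ _ => 0) : AE).1 = 0 from rfl, h0, card_empty]
    · intro a b; exact Nat.zero_le _
    · intro a b _; rfl
  · rw [tsum_cons, tsum_nil]
    simp only [add_zero, one_mul, Nat.sub_zero, h0]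
  · intro a _ b _ _ _ _
    rw [tsum_cons, tsum_nil]
    have hco : co a b ((0, 1, fun _ _ => 0) : AE) = 1 := by
      unfold co
      simp
    rw [hco]
    simp only [add_zero, one_mul, Nat.sub_zero, h0]

lemma pack_zero : pack (fun _ _ => 0) = 0 := by
  unfold pack
  simp

/-- relabelling -/
lemma St_congr {x x' : ℕ → P} {J m : ℕ} (hJ : ∀ i, J.testBit i = true → i < m)
    (hx : ∀ i < m, x i = x' i) : St x J = St x' J := by
  ext p
  rw [mem_St, mem_St]
  constructor
  · rintro ⟨i, h1, h2⟩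
    exact ⟨i, h1, by rw [← hx i (hJ i h1)]; exact h2⟩
  · rintro ⟨i, h1, h2⟩
    exact ⟨i, h1, by rw [hx i (hJ i h1)]; exact h2⟩

lemma tsum_congr {Φ Ψ : AE → ℕ} {A : List AE} (h : ∀ t ∈ A, Φ t = Ψ t) : tsum Φ A = tsum Ψ A := by
  unfold tsum
  rw [List.map_congr_left h]

lemma EntOK.relabel {x x' : ℕ → P} {m s : ℕ} {t : AE} (h : EntOK x m s t)
    (hx : ∀ i < m, x i = x' i) : EntOK x' (m + 1) s t := by
  have h1 := St_congr h.bits hx
  exact ⟨fun i hi => by have := h.bits i hi; omega, h1 ▸ h.low, h1 ▸ h.card, h.le, h.zero⟩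

/-- a further element, if the first six are there or the table is the first one -/
theorem TabOK.relabel {x x' : ℕ → P} {m s : ℕ} {A : List AE} (h : TabOK x m s A) (hm : 6 ≤ m)
    (hx : ∀ i < m, x i = x' i) : TabOK x' (m + 1) s A := by
  refine ⟨fun t ht => (h.ent t ht).relabel hx, ?_, ?_⟩
  · rw [← h.tot]
    refine tsum_congr fun t ht => ?_
    rw [St_congr (h.ent t ht).bits hx]
  · intro a ha b hb hab _ _
    rw [← hx a (by omega), ← hx b (by omega), ← h.par a ha b hb hab (by omega) (by omega)]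
    refine tsum_congr fun t ht => ?_
    rw [St_congr (h.ent t ht).bits hx]

lemma D_Axy {a b : P} (k : ℕ) : ∀ S : Finset P, a ∈ S → D (Axy a b) k S = D (P := P) IsLow k S := by
  induction k with
  | zero => intro S _; rfl
  | succ k ih =>
    intro S ha
    rw [D, D]
    refine sum_congr (filter_congr fun p _ => ?_) fun p _ => ih _ (mem_insert_of_mem ha)
    constructor
    · rintro ⟨h1, h2⟩; exact ⟨h1, h2.1⟩
    · rintro ⟨h1, h2⟩; exact ⟨h1, h2, fun _ => mem_insert_of_mem ha⟩

lemma chk_ent {p q q2 a b : ℕ} (ha : a < 6) (hb : b < 6) : ∀ (A : List AE),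
    (∀ t ∈ A, ∀ a b, t.2.2 a b ≤ t.2.1) →
    chk1 p q q2 (2 ^ (192 * a + 32 * b)) (A.map conc) = true →
    ∀ t ∈ A, p * t.2.1 ≤ q * t.2.2 a b ∧ q * t.2.2 a b ≤ q2 * t.2.1 := by
  intro A
  induction A with
  | nil => intro _ _ t ht; exact absurd ht (by simp)
  | cons s A ih =>
    intro hle h t ht
    obtain ⟨J, e, f⟩ := s
    rw [List.map_cons] at h
    have h1 : conc (J, e, f) = (J, e, pack f) := rfl
    rw [h1, chk1_cons] at h
    obtain ⟨k1, k2, k3, k4⟩ := h
    have hf : ∀ a b, f a b < 4294967296 := fun a b =>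
      lt_of_le_of_lt (hle (J, e, f) (by simp) a b) k3
    rw [pack_digit f hf ha hb] at k1 k2
    rcases List.mem_cons.1 ht with ht | ht
    · rw [ht]; exact ⟨k1, k2⟩
    · exact ih (fun t ht => hle t (by simp [ht])) k4 t ht

lemma tsum_le {Φ Ψ : AE → ℕ} {A : List AE} (c d : ℕ) (h : ∀ t ∈ A, c * Φ t ≤ d * Ψ t) :
    c * tsum Φ A ≤ d * tsum Ψ A := by
  induction A with
  | nil => rw [tsum_nil, tsum_nil]; simp
  | cons t A ih =>
    rw [tsum_cons, tsum_cons, mul_add, mul_add]
    have h1 := h t (by simp)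
    have h2 := ih (fun t ht => h t (by simp [ht]))
    omega

theorem TabOK.bal {x : ℕ → P} {m s : ℕ} {A : List AE} (hA : TabOK x m s A) {p q q2 a b : ℕ}
    (hp : 0 < p) (hq : 0 < q) (ha : a < 6) (hb : b < 6) (hab : a ≠ b) (ham : a < m) (hbm : b < m)
    (hne : x a ≠ x b)
    (h : chk1 p q q2 (2 ^ (192 * a + 32 * b)) (A.map conc) = true) :
    (p : ℝ) / q ≤ prob P (x a) (x b) ∧ prob P (x a) (x b) ≤ (q2 : ℝ) / q := by
  have hent := chk_ent ha hb A (fun t ht => (hA.ent t ht).le) h
  have key : ∀ t ∈ A, p * (t.2.1 * D (P := P) IsLow (Fintype.card P - s) (St x t.1)) ≤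
      q * (co a b t * D (Axy (x a) (x b)) (Fintype.card P - s) (St x t.1)) ∧
      q * (co a b t * D (Axy (x a) (x b)) (Fintype.card P - s) (St x t.1)) ≤
      q2 * (t.2.1 * D (P := P) IsLow (Fintype.card P - s) (St x t.1)) := by
    intro t ht
    obtain ⟨k1, k2⟩ := hent t ht
    by_cases hta : t.1.testBit a = true
    · have h1 : x a ∈ St x t.1 := mem_St.2 ⟨a, hta, rfl⟩
      rw [D_Axy _ _ h1]
      have h2 : co a b t = t.2.2 a b := by unfold co; rw [if_pos hta]
      rw [h2, ← mul_assoc, ← mul_assoc, ← mul_assoc]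
      exact ⟨Nat.mul_le_mul_right _ k1, Nat.mul_le_mul_right _ k2⟩
    · have h0 : t.2.2 a b = 0 := (hA.ent t ht).zero a b (by rw [← Bool.not_eq_true]; exact hta)
      rw [h0, mul_zero, Nat.le_zero, Nat.mul_eq_zero] at k1
      have h1 : t.2.1 = 0 := k1.resolve_left (by omega)
      have h2 : co a b t = 0 := by
        unfold co
        rw [if_neg hta, h1]
        split_ifs <;> rfl
      rw [h1, h2]
      simp
  have t1 := tsum_le p q (fun t ht => (key t ht).1)
  have t2 := tsum_le q q2 (fun t ht => (key t ht).2)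
  rw [hA.tot, hA.par a ha b hb hab ham hbm] at t1 t2
  have hpos : 0 < D (P := P) IsLow (Fintype.card P) ∅ :=
    D_pos (fun _ h => absurd h (notMem_empty _)) (by simp)
  have hR : prob P (x a) (x b) = (D (Axy (x a) (x b)) (Fintype.card P) ∅ : ℝ) /
      D (P := P) IsLow (Fintype.card P) ∅ := by
    rw [prob_eq_R hne]; rfl
  have hN : (0 : ℝ) < D (P := P) IsLow (Fintype.card P) ∅ := by exact_mod_cast hpos
  have hqr : (0 : ℝ) < q := by exact_mod_cast hq
  have r1 : (p : ℝ) * D (P := P) IsLow (Fintype.card P) ∅ ≤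
      q * D (Axy (x a) (x b)) (Fintype.card P) ∅ := by exact_mod_cast t1
  have r2 : (q : ℝ) * D (Axy (x a) (x b)) (Fintype.card P) ∅ ≤
      q2 * D (P := P) IsLow (Fintype.card P) ∅ := by exact_mod_cast t2
  rw [hR]
  constructor
  · rw [div_le_div_iff₀ hqr hN]
    linarith
  · rw [div_le_div_iff₀ hN hqr]
    linarith

end Pool.Agent.H552.TH
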