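import Mathlib
import Pool.Agent.H552.TH.Tab2
import Pool.Agent.H552.TH.P_STEP
import Pool.Agent.H552.TH.P_GEN

/-! The search is correct. -/

set_option autoImplicit false
set_option linter.unusedSectionVars false

open Finset
open scoped Classical

namespace Pool.Agent.H552.TH

open Pool.Agent.H13R3.WB Pool.Agent.X65.Loc

variable {P : Type} [Fintype P] [PartialOrder P]

lemma upd_mkE (Dm im : ℕ → ℕ) (N : ℕ) : ∀ m, upd N (mkE Dm im m) =
    mkE Dm (fun i => if N.testBit i = true then im i else im i + 1) m := by
  intro m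
  induction m with
  | zero => rw [mkE, mkE, upd_nil]
  | succ m ih =>
    rw [mkE, mkE, upd_cons, ih]
    congr 3
    simp only [and_two_pow_eq]
    cases h : N.testBit m
    · simp
    · simp

lemma mkE_congr {Dm Dm' im im' : ℕ → ℕ} : ∀ m, (∀ i < m, Dm i = Dm' i ∧ im i = im' i) →
    mkE Dm im m = mkE Dm' im' m := by
  intro m
  induction m with
  | zero => intro _; rfl
  | succ m ih =>
    intro h
    rw [mkE, mkE, ih (fun i hi => h i (by omega)), (h m (by omega)).1, (h m (by omega)).2]

lemma next_list (Dm im : ℕ → ℕ) (N c m : ℕ) : (2 ^ m, N, c) :: upd N (mkE Dm im m) =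
    mkE (Function.update Dm m N)
      (fun i => if i = m then c else if N.testBit i = true then im i else im i + 1) (m + 1) := by
  rw [mkE, upd_mkE, Function.update_self, if_pos rfl]
  congr 1
  refine mkE_congr m fun i hi => ⟨?_, ?_⟩
  · rw [Function.update_of_ne (by omega)]
  · rw [if_neg (by omega : ¬ i = m)]

lemma Cfg.lab {m : ℕ} {x : ℕ → P} {Dm im : ℕ → ℕ} {key : ℕ} (h : Cfg m x Dm im key) :
    Lab x Dm m := ⟨h.inj, h.low, h.mask⟩

lemma prs_pair {sh : ℕ} (h : sh ∈ prs) :
    ∃ a b, a < 6 ∧ b < 6 ∧ a < b ∧ sh = 2 ^ (192 * a + 32 * b) := by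
  unfold prs at h
  simp only [List.mem_cons, List.not_mem_nil, or_false] at h
  rcases h with h | h | h | h | h | h | h | h | h | h | h | h
  · exact ⟨0, 1, by omega, by omega, by omega, h⟩
  · exact ⟨1, 2, by omega, by omega, by omega, h⟩
  · exact ⟨3, 4, by omega, by omega, by omega, h⟩
  · exact ⟨2, 3, by omega, by omega, by omega, h⟩
  · exact ⟨0, 2, by omega, by omega, by omega, h⟩
  · exact ⟨1, 3, by omega, by omega, by omega, h⟩
  · exact ⟨4, 5, by omega, by omega, by omega, h⟩
  · exact ⟨2, 4, by omega, by omega, by omega, h⟩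
  · exact ⟨0, 3, by omega, by omega, by omega, h⟩
  · exact ⟨3, 5, by omega, by omega, by omega, h⟩
  · exact ⟨1, 4, by omega, by omega, by omega, h⟩
  · exact ⟨2, 5, by omega, by omega, by omega, h⟩

/-- every element which has no number yet is above all but `K` of the numbered elements -/
lemma Cfg.many {K m : ℕ} {x : ℕ → P} {Dm im : ℕ → ℕ} {key : ℕ} (hK : Thin K P)
    (h : Cfg m x Dm im key) {y : P} (hy : ∀ j < m, x j ≠ y) : m ≤ dn y + K := by
  have h1 : ((range m).filter (fun j => x j < y)).card ≤ dn y := by
    unfold dn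
    rw [← card_image_of_injOn (f := x)]
    · refine card_le_card fun p hp => ?_
      rw [mem_image] at hp
      obtain ⟨j, hj, rfl⟩ := hp
      exact mem_filter.2 ⟨mem_univ _, (mem_filter.1 hj).2⟩
    · intro i hi j hj hij
      rw [mem_coe, mem_filter, mem_range] at hi hj
      exact h.inj i hi.1 j hj.1 hij
  have h2 : ((range m).filter (fun j => ¬ x j < y)).card ≤ K := by
    have h3 := hK y
    rw [Nat.card_eq_fintype_card, Fintype.card_subtype] at h3
    refine le_trans ?_ h3
    rw [← card_image_of_injOn (f := x)]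
    · refine card_le_card fun p hp => ?_
      rw [mem_image] at hp
      obtain ⟨j, hj, rfl⟩ := hp
      rw [mem_filter, mem_range] at hj
      refine mem_filter.2 ⟨mem_univ _, ?_, ?_⟩
      · intro hle
        rcases hle.lt_or_eq with h4 | h4
        · obtain ⟨i, hi, hi2⟩ := h.low j hj.1 y h4
          exact hy i (by omega) hi2
        · exact hy j hj.1 h4.symm
      · intro hle
        rcases hle.lt_or_eq with h4 | h4
        · exact hj.2 h4
        · exact hy j hj.1 h4
    · intro i hi j hj hij
      rw [mem_coe, mem_filter, mem_range] at hi hj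
      exact h.inj i hi.1 j hj.1 hij
  have h3 := card_filter_add_card_filter_not (s := range m) (fun j => x j < y)
  rw [card_range] at h3
  omega

theorem run_sound {K p q q2 : ℕ} (hp : 0 < p) (hq : 0 < q) (hK : Thin K P)
    (hn : 21 ≤ Fintype.card P) : ∀ (fuel m : ℕ) (x : ℕ → P) (Dm im : ℕ → ℕ) (key s : ℕ) (A : List AE),
    m + fuel ≤ 21 → Cfg m x Dm im key → TabOK x m s A →
    (m < 6 → s = 0 ∧ A = [(0, 1, fun _ _ => 0)]) → (∀ y, (∀ j < m, x j ≠ y) → s ≤ dn y) →
    run K p q q2 fuel m (2 ^ m) (mkE Dm im m) key s (A.map conc) = true →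
    ∃ x y : P, (p : ℝ) / q ≤ prob P x y ∧ prob P x y ≤ (q2 : ℝ) / q := by
  intro fuel
  induction fuel with
  | zero =>
    intro m x Dm im key s A _ _ _ _ _ h
    rw [run_zero] at h
    exact absurd h (by simp)
  | succ fuel ih =>
    intro m x Dm im key s A hm hC hT h0 hs h
    have hm20 : m ≤ 20 := by omega
    obtain ⟨y, N, c, y1, y2, y3, y4, y5, y6, y7, y8, y9, y10, y11, y12⟩ :=
      t_STEP P K m x Dm im key hK (by omega) hm20 hC
    -- the descendants
    have hdesc : ∀ (s' : ℕ) (A' : List AE), TabOK x m s' A' →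
        (m < 6 → s' = 0 ∧ A' = [(0, 1, fun _ _ => 0)]) → (∀ y, (∀ j < m, x j ≠ y) → s' ≤ dn y) →
        gen (child K p q q2 fuel m (2 ^ m) (mkE Dm im m) key s' (A'.map conc)) K (mkE Dm im m) 0 0 0
          = true →
        ∃ x y : P, (p : ℝ) / q ≤ prob P x y ∧ prob P x y ≤ (q2 : ℝ) / q := by
      intro s' A' hT' h0' hs' hg
      have h1 := t_GEN _ K m Dm im N c hg y3 y7 y8 y9 y10
      unfold child at h1
      rw [if_neg (by omega), next_list, ← pow_succ'] at h1
      have hx : ∀ i < m, x i = Function.update x m y i := fun i hi => by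
        rw [Function.update_of_ne (by omega)]
      refine ih (m + 1) _ _ _ _ s' A' (by omega) y12 ?_ ?_ ?_ h1
      · by_cases h6 : m < 6
        · obtain ⟨e1, e2⟩ := h0' h6
          rw [e1, e2]
          exact TabOK.init _ _
        · exact hT'.relabel (by omega) hx
      · intro h6
        exact h0' (by omega)
      · intro z hz
        exact hs' z fun j hj => by rw [hx j hj]; exact hz j (by omega)
    rw [run_succ] at h
    by_cases h6 : 6 ≤ m
    · rw [if_pos h6] at h
      set s' := max s (max (m - K) (key / 1048576)) with hs'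
      have hss : s + (s' - s) = s' := by
        have : s ≤ s' := le_max_left _ _
        omega
      have hU : ∀ z, (∀ j < m, x j ≠ z) → s' ≤ dn z := by
        intro z hz
        rw [hs']
        refine max_le (hs z hz) (max_le ?_ ?_)
        · have := hC.many hK hz
          omega
        · have h1 := hC.key z hz
          have h2 := P_STEP.mk_lt x z m
          have h3 : (2 : ℕ) ^ m ≤ 1048576 := by
            calc (2 : ℕ) ^ m ≤ 2 ^ 20 := Nat.pow_le_pow_right (by norm_num) hm20
              _ = 1048576 := by norm_num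
          have h4 : key < (dn z + 1) * 1048576 := by
            rw [add_mul, one_mul]; omega
          have h5 := Nat.div_lt_of_lt_mul (by rw [mul_comm]; exact h4 : key < 1048576 * (dn z + 1))
          omega
      have hsn : s' ≤ Fintype.card P := by
        have h1 := hU y y1
        have h2 : dn y ≤ Fintype.card P := by
          unfold dn
          exact card_le_univ _
        omega
      obtain ⟨A', hA', hadv⟩ := TabOK.advN (im := im) hC.lab (s' - s) s A hT
        (fun z hz => by rw [hss]; exact hU z hz) (by rw [hss]; exact hsn)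
      rw [hss] at hA'
      rw [hadv] at h
      by_cases hchk : chk p q q2 (A'.map conc) prs = true
      · obtain ⟨sh, hsh, h1⟩ := chk_mem hchk
        obtain ⟨a, b, ha, hb, hab, rfl⟩ := prs_pair hsh
        exact ⟨x a, x b, hA'.bal hp hq ha hb hab.ne (by omega) (by omega)
          (fun hh => hab.ne (hC.inj a (by omega) b (by omega) hh)) h1⟩
      · rw [if_neg hchk] at h
        exact hdesc s' A' hA' (fun h7 => absurd h6 (by omega)) hU h
    · rw [if_neg h6] at h
      exact hdesc s A hT h0 hs h

end Pool.Agent.H552.TH
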