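import Pool.Agent.H552.TH.Eqs
import Pool.Agent.H552.TH.Comp2c1
import Pool.Agent.H552.TH.Comp2c2
import Pool.Agent.H552.TH.Comp2c3
import Pool.Agent.H552.TH.Comp2c4
import Pool.Agent.H552.TH.Comp2c5

/-! The posets with two minimal elements `0`, `1`, an element `2` above `0` only and an element `3` above
`0` and `1` only: the cases for the element `4`. -/

set_option autoImplicit false

namespace Pool.Agent.H552.TH

lemma child_lt {K p q q2 fuel m pw : ℕ} {Es : List (ℕ × ℕ × ℕ)} {key s : ℕ}
    {T : List Entry} {N c : ℕ} (h : (m - c) * 1048576 + N < key) :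
    child K p q q2 fuel m pw Es key s T N c = true := by
  unfold child
  rw [if_pos h]

lemma child_run {K p q q2 fuel m pw : ℕ} {Es : List (ℕ × ℕ × ℕ)} {key s : ℕ}
    {T : List Entry} {N c : ℕ}
    (h : run K p q q2 fuel (m + 1) (2 * pw) ((pw, N, c) :: upd N Es) ((m - c) * 1048576 + N) s T
      = true) :
    child K p q q2 fuel m pw Es key s T N c = true := by
  unfold child
  split_ifs
  · rfl
  · exact h

theorem comp3c : run 4 69 200 131 17 4 16 [(8, 3, 1), (4, 1, 2), (2, 0, 2), (1, 0, 1)] 2097155 0
    [(0, 1, 0)] = true := by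
  rw [run_succ, if_neg (by norm_num)]
  generalize hf : child 4 69 200 131 16 4 16 [(8, 3, 1), (4, 1, 2), (2, 0, 2), (1, 0, 1)] 2097155 0
    [(0, 1, 0)] = f
  have h1 : f 3 2 = true := by rw [← hf]; exact child_run comp3c1
  have h2 : f 5 2 = true := by rw [← hf]; exact child_run comp3c2
  have h3 : f 7 1 = true := by rw [← hf]; exact child_run comp3c3
  have h4 : f 11 1 = true := by rw [← hf]; exact child_run comp3c4
  have h5 : f 15 0 = true := by rw [← hf]; exact child_run comp3c5
  have k0 : f 0 4 = true := by rw [← hf]; exact child_lt (by norm_num)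
  have k1 : f 1 3 = true := by rw [← hf]; exact child_lt (by norm_num)
  have k2 : f 2 3 = true := by rw [← hf]; exact child_lt (by norm_num)
  clear hf
  simp only [gen_cons, gen_nil]
  simp [h1, h2, h3, h4, h5, k0, k1, k2]

end Pool.Agent.H552.TH
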