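import Mathlib
import Pool.Agent.H552.TH.Run
import Pool.Agent.H552.TH.P_ROOT
import Pool.Agent.H552.TH.P_FINAL
import Pool.Agent.H552.TH.Comp1
import Pool.Agent.H552.TH.Comp2a
import Pool.Agent.H552.TH.Comp2b
import Pool.Agent.H552.TH.Split
import Pool.Agent.H552.TH.Comp2d

/-! The gap for posets in which every element is incomparable to at most four elements. -/

set_option autoImplicit false
set_option linter.unusedSectionVars false

open Finset
open scoped Classical

namespace Pool.Agent.H552.TH

open Pool.Agent.H13R3.WB Pool.Agent.X65.Loc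

variable {P : Type} [Fintype P] [PartialOrder P]

lemma conc_init : [((0 : ℕ), (1 : ℕ), fun (_ : ℕ) (_ : ℕ) => (0 : ℕ))].map conc = [(0, 1, 0)] := by
  have h : conc ((0 : ℕ), (1 : ℕ), fun (_ : ℕ) (_ : ℕ) => (0 : ℕ)) = (0, 1, 0) := by
    unfold conc
    simp only [pack_zero]
  rw [List.map_cons, h, List.map_nil]

lemma bal_of {x y : P} (h1 : ((69 : ℕ) : ℝ) / ((200 : ℕ) : ℝ) ≤ prob P x y)
    (h2 : prob P x y ≤ ((131 : ℕ) : ℝ) / ((200 : ℕ) : ℝ)) : HasBal (69 / 200) P := by
  refine ⟨x, y, ?_, ?_⟩
  · push_cast at h1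
    exact h1
  · refine h2.trans ?_
    push_cast
    norm_num

/-- large posets -/
theorem large (hn : 23 ≤ Fintype.card P) (hK : Thin 4 P) (hleast : ¬ ∃ x : P, ∀ y, x ≤ y)
    (hB : ¬ BotE P) : HasBal (69 / 200) P := by
  obtain ⟨x, hC | hC | ⟨hC, z, hz, hz2⟩⟩ := t_ROOT P (by omega) hleast hB
  · obtain ⟨a, b, h1, h2⟩ := run_sound (K := 4) (p := 69) (q := 200) (q2 := 131) (by norm_num)
      (by norm_num) hK (by omega) 18 3 x _ _ _ 0 [(0, 1, fun _ _ => 0)] (by norm_num) hC
      (TabOK.init _ _) (fun _ => ⟨rfl, rfl⟩) (fun _ _ => Nat.zero_le _)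
      (by rw [conc_init]; exact comp1)
    exact bal_of h1 h2
  · obtain ⟨a, b, h1, h2⟩ := run_sound (K := 4) (p := 69) (q := 200) (q2 := 131) (by norm_num)
      (by norm_num) hK (by omega) 18 3 x _ _ _ 0 [(0, 1, fun _ _ => 0)] (by norm_num) hC
      (TabOK.init _ _) (fun _ => ⟨rfl, rfl⟩) (fun _ _ => Nat.zero_le _)
      (by rw [conc_init]; exact comp2)
    exact bal_of h1 h2
  · obtain ⟨y, N, c, y1, y2, y3, y4, y5, y6, y7, y8, y9, y10, y11, y12⟩ :=
      t_STEP P 4 3 x _ _ _ hK (by omega) (by norm_num) hC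
    -- the key of `y` is at most the key of `z`
    have h7 : N ≠ 7 := by
      intro hN
      have h2 := y6 z hz
      have h3 := P_STEP.mk_lt x z 3
      have h4 : c = 0 := by
        rw [y8, card_eq_zero, filter_eq_empty_iff]
        intro i hi
        rw [mem_range] at hi
        rw [hN]
        interval_cases i <;> decide
      rw [y5, h4] at h2
      omega
    have h1 : run 4 69 200 131 17 4 16 ((8, N, c) :: upd N (mkE (fun i => if i = 2 then 1 else 0)
        (fun i => if i = 1 then 2 else 1) 3)) ((3 - c) * 1048576 + N) 0 [(0, 1, 0)] = true := by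
      have h8 : N < 8 := by simpa using y3
      clear y12 y6 y2 y10
      interval_cases N
      · -- `0`
        exfalso
        have : c = 3 := by rw [y8]; rfl
        omega
      · have : c = 2 := by rw [y8]; rfl
        rw [this]
        exact comp3a
      · have : c = 2 := by rw [y8]; rfl
        rw [this]
        exact comp3b
      · have : c = 1 := by rw [y8]; rfl
        rw [this]
        exact comp3c
      · exfalso
        have h9 := y7 2 (by norm_num) 0 (by decide) (by decide)
        exact absurd h9 (by decide)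
      · have : c = 1 := by rw [y8]; rfl
        rw [this]
        exact comp3d
      · exfalso
        have h9 := y7 2 (by norm_num) 0 (by decide) (by decide)
        exact absurd h9 (by decide)
      · exact absurd rfl h7
    have h8 : ((8 : ℕ), N, c) :: upd N (mkE (fun i => if i = 2 then 1 else 0)
        (fun i => if i = 1 then 2 else 1) 3) = _ := next_list _ _ N c 3
    rw [h8] at h1
    obtain ⟨a, b, h5, h6⟩ := run_sound (K := 4) (p := 69) (q := 200) (q2 := 131) (by norm_num)
      (by norm_num) hK (by omega) 17 4 _ _ _ _ 0 [(0, 1, fun _ _ => 0)] (by norm_num) y12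
      (TabOK.init _ _) (fun _ => ⟨rfl, rfl⟩) (fun _ _ => Nat.zero_le _)
      (by rw [conc_init]; exact h1)
    exact bal_of h5 h6

theorem fourThin (P : Type) [Fintype P] [PartialOrder P] [Nonempty P] (hK : Thin 4 P) :
    InD P ∨ (69 / 200 : ℝ) ≤ balance P :=
  t_FINAL 4 (69 / 200) (by norm_num)
    (fun P _ _ hn hK hl hB => large hn hK hl hB) P hK

end Pool.Agent.H552.TH
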