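import Mathlib
import Pool.Agent.H552.TH.Main
import Pool.Agent.H552.TO.Tri

/-! The balance constants of the thin posets of a given width. -/

set_option autoImplicit false
set_option linter.unusedSectionVars false

open Finset

namespace Pool.Agent.H552.TH

open Pool.Agent.H13R3.WB Pool.Agent.H931R3.Bal

/-- the order of the poset with the elements `y = 0`, `a = 1`, `b = 2`, `c = 3`, `z = 4` -/
def r5 (x y : Fin 5) : Bool :=
  x == y || (x == 0 && (y == 1 || y == 3 || y == 4)) || ((x == 2 || x == 3) && y == 4)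

/-- the poset with 5 elements -/
def F5 : Type := Fin 5

instance : Fintype F5 := inferInstanceAs (Fintype (Fin 5))
instance : DecidableEq F5 := inferInstanceAs (DecidableEq (Fin 5))

lemma r5_trans : ∀ x y z : Fin 5, r5 x y = true → r5 y z = true → r5 x z = true := by decide +kernel
lemma r5_anti : ∀ x y : Fin 5, r5 x y = true → r5 y x = true → x = y := by decide +kernel
lemma r5_refl : ∀ x : Fin 5, r5 x x = true := by decide +kernel

instance : PartialOrder F5 where
  le x y := r5 x y = true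
  le_refl := r5_refl
  le_trans := r5_trans
  le_antisymm := r5_anti

lemma tot5 : Fintype.card {f : Fin 5 ≃ Fin 5 // ∀ a b, r5 a b = true → f a ≤ f b} = 11 := by
  decide +kernel

lemma cnt5 : ∀ x y : Fin 5,
    Fintype.card {f : Fin 5 ≃ Fin 5 // (∀ a b, r5 a b = true → f a ≤ f b) ∧ f x < f y} ≤ 4 ∨
    Fintype.card {f : Fin 5 ≃ Fin 5 // (∀ a b, r5 a b = true → f a ≤ f b) ∧ f y < f x} ≤ 4 := by
  decide +kernel

lemma thin5 : ∀ x : Fin 5, Fintype.card {y : Fin 5 // ¬ r5 x y = true ∧ ¬ r5 y x = true} ≤ 3 := by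
  decide +kernel

lemma wid5 : ∀ s : Finset (Fin 5), (∀ a ∈ s, ∀ b ∈ s, a ≠ b → ¬ r5 a b = true) → s.card ≤ 3 := by
  decide +kernel

lemma wid5' : ∀ a ∈ ({1, 2, 3} : Finset (Fin 5)), ∀ b ∈ ({1, 2, 3} : Finset (Fin 5)), a ≠ b →
    ¬ r5 a b = true := by
  decide +kernel

lemma prob_n {P : Type} [Fintype P] [PartialOrder P] {n : ℕ} (h : Fintype.card P = n) (x y : P) :
    prob P x y = (Nat.card {f : P ≃ Fin n // Monotone f ∧ f x < f y} : ℝ) /
      Nat.card {f : P ≃ Fin n // Monotone f} := by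
  subst h
  rfl

theorem balance_F5 : balance F5 ≤ 4 / 11 := by
  have hn : Fintype.card F5 = 5 := rfl
  have e1 : Nat.card {f : F5 ≃ Fin 5 // Monotone f} = 11 := by
    have h : Nat.card {f : Fin 5 ≃ Fin 5 // ∀ a b, r5 a b = true → f a ≤ f b} = 11 := by
      rw [Nat.card_eq_fintype_card]; exact tot5
    exact h
  have e2 : ∀ x y : F5, Nat.card {f : F5 ≃ Fin 5 // Monotone f ∧ f x < f y} ≤ 4 ∨
      Nat.card {f : F5 ≃ Fin 5 // Monotone f ∧ f y < f x} ≤ 4 := by
    intro x y
    have h : Nat.card {f : Fin 5 ≃ Fin 5 // (∀ a b, r5 a b = true → f a ≤ f b) ∧ f x < f y} ≤ 4 ∨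
        Nat.card {f : Fin 5 ≃ Fin 5 // (∀ a b, r5 a b = true → f a ≤ f b) ∧ f y < f x} ≤ 4 := by
      rw [Nat.card_eq_fintype_card, Nat.card_eq_fintype_card]; exact cnt5 x y
    exact h
  have hne : Nonempty (F5 × F5) := ⟨((0 : Fin 5), (0 : Fin 5))⟩
  unfold balance
  refine ciSup_le fun p => ?_
  rw [prob_n hn, prob_n hn, e1]
  rcases e2 p.1 p.2 with h | h
  · refine (min_le_left _ _).trans ?_
    have h' : (Nat.card {f : F5 ≃ Fin 5 // Monotone f ∧ f p.1 < f p.2} : ℝ) ≤ 4 := by exact_mod_cast h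
    push_cast
    linarith
  · refine (min_le_right _ _).trans ?_
    have h' : (Nat.card {f : F5 ≃ Fin 5 // Monotone f ∧ f p.2 < f p.1} : ℝ) ≤ 4 := by exact_mod_cast h
    push_cast
    linarith


/-- the width of `P` is `w` -/
def HasWidth (w : ℕ) (P : Type) [PartialOrder P] : Prop :=
  (∃ s : Finset P, IsAntichain (· ≤ ·) (s : Set P) ∧ s.card = w) ∧
    ∀ s : Finset P, IsAntichain (· ≤ ·) (s : Set P) → s.card ≤ w

/-- the balance constants of the nonempty posets of width `w` in which each element is incomparable to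
at most `K` others -/
def BalSet (K w : ℕ) : Set ℝ :=
  {d | ∃ (P : Type) (_ : Fintype P) (_ : PartialOrder P), Nonempty P ∧
    (∀ x : P, Nat.card {y : P // ¬ x ≤ y ∧ ¬ y ≤ x} ≤ K) ∧ HasWidth w P ∧ balance P = d}

section
variable {P : Type} [Fintype P] [PartialOrder P]

open scoped Classical in
lemma inc_card (a : P) : Nat.card {y : P // ¬ a ≤ y ∧ ¬ y ≤ a} =
    (univ.filter (fun y => ¬ a ≤ y ∧ ¬ y ≤ a)).card := by
  rw [Nat.card_eq_fintype_card, Fintype.card_subtype]

open scoped Classical in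
lemma anti_sub {s : Finset P} (hs : IsAntichain (· ≤ ·) (s : Set P)) {a : P} (ha : a ∈ s) :
    s.erase a ⊆ univ.filter (fun y => ¬ a ≤ y ∧ ¬ y ≤ a) := by
  intro y hy
  rw [mem_erase] at hy
  rw [mem_filter]
  exact ⟨mem_univ _, hs ha hy.2 hy.1.symm, hs hy.2 ha hy.1⟩

lemma anti_le {K : ℕ} (hK : Thin K P) {s : Finset P} (hs : IsAntichain (· ≤ ·) (s : Set P)) :
    s.card ≤ K + 1 := by
  classical
  rcases s.eq_empty_or_nonempty with rfl | ⟨a, ha⟩
  · simp
  · have h1 := card_le_card (anti_sub hs ha)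
    have h2 := hK a
    rw [inc_card] at h2
    rw [card_erase_of_mem ha] at h1
    omega

lemma swap_le {a b x y : P} [DecidableEq P] (hab : ¬ a ≤ b) (hba : ¬ b ≤ a)
    (h : ∀ z, z ≠ a → z ≠ b → ((z ≤ a ↔ z ≤ b) ∧ (a ≤ z ↔ b ≤ z))) (hxy : x ≤ y) :
    Equiv.swap a b x ≤ Equiv.swap a b y := by
  by_cases hxa : x = a
  · subst hxa
    rw [Equiv.swap_apply_left]
    by_cases hyx : y = x
    · subst hyx
      rw [Equiv.swap_apply_left]
    · by_cases hyb : y = b
      · subst hyb
        exact absurd hxy hab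
      · rw [Equiv.swap_apply_of_ne_of_ne hyx hyb]
        exact ((h y hyx hyb).2).1 hxy
  · by_cases hxb : x = b
    · subst hxb
      rw [Equiv.swap_apply_right]
      by_cases hyx : y = x
      · subst hyx
        rw [Equiv.swap_apply_right]
      · by_cases hya : y = a
        · subst hya
          exact absurd hxy hba
        · rw [Equiv.swap_apply_of_ne_of_ne hya hyx]
          exact ((h y hya hyx).2).2 hxy
    · rw [Equiv.swap_apply_of_ne_of_ne hxa hxb]
      by_cases hya : y = a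
      · subst hya
        rw [Equiv.swap_apply_left]
        exact ((h x hxa hxb).1).1 hxy
      · by_cases hyb : y = b
        · subst hyb
          rw [Equiv.swap_apply_right]
          exact ((h x hxa hxb).1).2 hxy
        · rw [Equiv.swap_apply_of_ne_of_ne hya hyb]
          exact hxy

lemma twin {a b : P} (hab : ¬ a ≤ b) (hba : ¬ b ≤ a)
    (h : ∀ z, z ≠ a → z ≠ b → ((z ≤ a ↔ z ≤ b) ∧ (a ≤ z ↔ b ≤ z))) :
    prob P a b = 1 / 2 := by
  classical
  let e : P ≃o P :=
    { toEquiv := Equiv.swap a b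
      map_rel_iff' := by
        intro x y
        constructor
        · intro hh
          have h2 := swap_le hab hba h hh
          rw [Equiv.swap_apply_self, Equiv.swap_apply_self] at h2
          exact h2
        · exact fun hh => swap_le hab hba h hh }
  have h1 := prob_iso e a b
  have e1 : e a = b := Equiv.swap_apply_left a b
  have e2 : e b = a := Equiv.swap_apply_right a b
  rw [e1, e2] at h1
  have h2 := Pool.Agent.H931R3.Bal.prob_add (P := P) (x := a) (y := b) (fun hh => hab (hh ▸ le_rfl))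
  linarith

lemma balance_half [Nonempty P] : balance P ≤ 1 / 2 := by
  unfold balance
  refine ciSup_le fun p => ?_
  by_cases hp : p.1 = p.2
  · refine (min_le_left _ _).trans ?_
    unfold prob
    have h0 : Nat.card {f : P ≃ Fin (Fintype.card P) // Monotone f ∧ f p.1 < f p.2} = 0 := by
      rw [Nat.card_eq_zero]
      left
      refine ⟨fun f => ?_⟩
      obtain ⟨g, _, h1⟩ := f
      rw [hp] at h1
      exact lt_irrefl _ h1
    rw [h0]
    norm_num
  · have h2 := Pool.Agent.H931R3.Bal.prob_add (P := P) hp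
    rcases le_total (prob P p.1 p.2) (1 / 2) with h3 | h3
    · exact (min_le_left _ _).trans h3
    · exact (min_le_right _ _).trans (by linarith)

lemma top_half [Nonempty P] {K : ℕ} (hK0 : 1 ≤ K) (hK : Thin K P) {s : Finset P}
    (hs : IsAntichain (· ≤ ·) (s : Set P)) (hc : s.card = K + 1) : balance P = 1 / 2 := by
  classical
  obtain ⟨a, ha, b, hb, hne⟩ := Finset.one_lt_card.1 (show 1 < s.card by omega)
  have hab : ¬ a ≤ b := hs ha hb hne
  have hba : ¬ b ≤ a := hs hb ha hne.symm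
  have hcmp : ∀ c ∈ s, ∀ z, z ∉ s → z ≤ c ∨ c ≤ z := by
    intro c hc' z hz
    have h1 := anti_sub hs hc'
    have h2 := hK c
    rw [inc_card] at h2
    have h3 := eq_of_subset_of_card_le h1 (by rw [card_erase_of_mem hc']; omega)
    by_contra hcon
    push Not at hcon
    apply hz
    have h4 : z ∈ univ.filter (fun y => ¬ c ≤ y ∧ ¬ y ≤ c) := mem_filter.2 ⟨mem_univ _, hcon.2, hcon.1⟩
    rw [← h3] at h4
    exact (mem_erase.1 h4).2
  have hp := twin hab hba (fun z hza hzb => by
    by_cases hz : z ∈ s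
    · exact ⟨⟨fun h => absurd h (hs hz ha hza), fun h => absurd h (hs hz hb hzb)⟩,
        ⟨fun h => absurd h (hs ha hz hza.symm), fun h => absurd h (hs hb hz hzb.symm)⟩⟩
    · have h1 := hcmp a ha z hz
      have h2 := hcmp b hb z hz
      refine ⟨⟨fun h => ?_, fun h => ?_⟩, ⟨fun h => ?_, fun h => ?_⟩⟩
      · exact h2.resolve_right (fun h' => hba (h'.trans h))
      · exact h1.resolve_right (fun h' => hab (h'.trans h))
      · exact h2.resolve_left (fun h' => hab (h.trans h'))
      · exact h1.resolve_left (fun h' => hba (h.trans h')))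
  have h2 := Pool.Agent.H931R3.Bal.prob_add (P := P) hne
  have h3 := Pool.Agent.H931R3.Bal.le_balance (P := P) a b
  have h4 : prob P b a = 1 / 2 := by linarith
  rw [hp, h4, min_self] at h3
  exact le_antisymm balance_half h3

lemma three_le [Nonempty P] (hK : Thin 4 P) {s : Finset P} (hs : IsAntichain (· ≤ ·) (s : Set P))
    (hc : 3 ≤ s.card) : 69 / 200 ≤ balance P := by
  rcases fourThin P hK with h | h
  · have := InD_width_le h s hs
    omega
  · exact h

lemma two_le [Nonempty P] (hK : Thin 4 P) {s : Finset P} (hs : IsAntichain (· ≤ ·) (s : Set P))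
    (hc : 2 ≤ s.card) : 1 / 3 ≤ balance P := by
  rcases fourThin P hK with h | h
  · rcases Pool.Agent.H552.TO.InD_values h with h1 | h1
    · exfalso
      obtain ⟨a, ha, b, hb, hne⟩ := Finset.one_lt_card.1 (show 1 < s.card by omega)
      rcases h1.1 a b with h2 | h2
      · exact hs ha hb hne h2
      · exact hs hb ha hne.symm h2
    · exact h1.ge
  · linarith

lemma one_eq [Nonempty P] (h : HasWidth 1 P) : balance P = 0 := by
  classical
  apply balance_chain
  intro x y
  by_contra hcon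
  push Not at hcon
  have hne : x ≠ y := fun hh => hcon.1 (hh ▸ le_rfl)
  have h1 := h.2 {x, y} (by
    rw [coe_pair]
    intro u hu v hv huv
    simp only [Set.mem_insert_iff, Set.mem_singleton_iff] at hu hv
    rcases hu with rfl | rfl <;> rcases hv with rfl | rfl
    · exact absurd rfl huv
    · exact hcon.1
    · exact hcon.2
    · exact absurd rfl huv)
  rw [card_pair hne] at h1
  omega

end

/-- the antichain with `n` elements -/
def An (n : ℕ) : Type := Fin n

instance (n : ℕ) : Fintype (An n) := inferInstanceAs (Fintype (Fin n))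

instance (n : ℕ) : PartialOrder (An n) where
  le x y := x = y
  le_refl _ := rfl
  le_trans _ _ _ h1 h2 := h1.trans h2
  le_antisymm _ _ h _ := h

lemma card_An (n : ℕ) : Fintype.card (An n) = n := Fintype.card_fin n

lemma An_mem {n K : ℕ} (hn : 1 ≤ n) (h : n ≤ K + 1) : balance (An n) ∈ BalSet K n := by
  classical
  have hne : Nonempty (An n) := Fintype.card_pos_iff.1 (by rw [card_An]; exact hn)
  refine ⟨An n, inferInstance, inferInstance, hne, fun x => ?_, ⟨⟨univ, ?_, ?_⟩, fun s _ => ?_⟩, rfl⟩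
  · rw [inc_card]
    have h1 : (univ.filter (fun y => ¬ x ≤ y ∧ ¬ y ≤ x)) ⊆ univ.erase x := by
      intro y hy
      rw [mem_erase]
      exact ⟨fun hh => (mem_filter.1 hy).2.1 (hh ▸ le_rfl), mem_univ _⟩
    have h2 := card_le_card h1
    rw [card_erase_of_mem (mem_univ x), card_univ, card_An] at h2
    omega
  · intro x _ y _ hxy hle
    exact hxy hle
  · rw [card_univ, card_An]
  · have := card_le_univ s
    rw [card_An] at this
    exact this

lemma F5_mem {K : ℕ} (hK : 3 ≤ K) : balance F5 ∈ BalSet K 3 := by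
  refine ⟨F5, inferInstance, inferInstance, ⟨(0 : Fin 5)⟩, fun x => ?_, ⟨⟨({1, 2, 3} : Finset (Fin 5)), ?_, ?_⟩,
    fun s hs => ?_⟩, rfl⟩
  · have h1 := thin5 x
    rw [← Nat.card_eq_fintype_card] at h1
    exact le_trans h1 hK
  · intro a ha b hb hab
    exact wid5' a ha b hb hab
  · rfl
  · exact wid5 s (fun a ha b hb hab => hs ha hb hab)

lemma E_mem {K : ℕ} (hK : 3 ≤ K) : (1 / 3 : ℝ) ∈ BalSet K 2 := by
  classical
  have hD : InD (Fin 2 ⊕ Fin 1) := InD.three _ ⟨OrderIso.refl _⟩
  have h1 : ¬ ((Sum.inl 0 : Fin 2 ⊕ Fin 1) ≤ Sum.inr 0) := Sum.not_inl_le_inr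
  have h2 : ¬ ((Sum.inr 0 : Fin 2 ⊕ Fin 1) ≤ Sum.inl 0) := Sum.not_inr_le_inl
  refine ⟨Fin 2 ⊕ Fin 1, inferInstance, inferInstance, ⟨Sum.inl 0⟩, fun x => ?_,
    ⟨⟨{Sum.inl 0, Sum.inr 0}, ?_, ?_⟩, fun s hs => InD_width_le hD s hs⟩, ?_⟩
  · have h3 : Nat.card {y : Fin 2 ⊕ Fin 1 // ¬ x ≤ y ∧ ¬ y ≤ x} ≤ Nat.card (Fin 2 ⊕ Fin 1) :=
      Nat.card_le_card_of_injective _ Subtype.val_injective
    have h4 : Nat.card (Fin 2 ⊕ Fin 1) = 3 := by
      rw [Nat.card_eq_fintype_card]; rfl
    omega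
  · rw [coe_pair]
    intro u hu v hv huv
    simp only [Set.mem_insert_iff, Set.mem_singleton_iff] at hu hv
    rcases hu with rfl | rfl <;> rcases hv with rfl | rfl
    · exact absurd rfl huv
    · exact h1
    · exact h2
    · exact absurd rfl huv
  · rfl
  · rcases Pool.Agent.H552.TO.InD_values hD with h | h
    · exfalso
      rcases h.1 (Sum.inl 0) (Sum.inr 0) with h3 | h3
      · exact h1 h3
      · exact h2 h3
    · exact h

theorem bal_one {K : ℕ} : BalSet K 1 = {0} := by
  ext d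
  rw [Set.mem_singleton_iff]
  constructor
  · rintro ⟨P, _, _, hne, _, hw, rfl⟩
    exact one_eq hw
  · rintro rfl
    have h := An_mem (n := 1) (K := K) le_rfl (by omega)
    have h2 : balance (An 1) = 0 := by
      have hne : Nonempty (An 1) := ⟨(0 : Fin 1)⟩
      apply balance_chain
      intro x y
      left
      exact (Subsingleton.elim (α := Fin 1) x y : x = y)
    rw [h2] at h
    exact h

theorem bal_two {K : ℕ} (h3 : 3 ≤ K) (h4 : K ≤ 4) : sInf (BalSet K 2) = 1 / 3 := by
  have h : IsLeast (BalSet K 2) (1 / 3) := by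
    refine ⟨E_mem h3, ?_⟩
    rintro d ⟨P, _, _, hne, hK, ⟨⟨s, hs, hc⟩, _⟩, rfl⟩
    exact two_le (fun x => (hK x).trans h4) hs hc.ge
  exact h.csInf_eq

theorem bal_mid {K w : ℕ} (h4 : K ≤ 4) (hw : 3 ≤ w) (hne : (BalSet K w).Nonempty) :
    69 / 200 ≤ sInf (BalSet K w) := by
  apply le_csInf hne
  rintro d ⟨P, _, _, hne, hK, ⟨⟨s, hs, hc⟩, _⟩, rfl⟩
  exact three_le (fun x => (hK x).trans h4) hs (hc ▸ hw)

theorem bal_three {K : ℕ} (h3 : 3 ≤ K) (h4 : K ≤ 4) : sInf (BalSet K 3) ≤ 4 / 11 := by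
  refine (csInf_le ?_ (F5_mem h3)).trans balance_F5
  refine ⟨69 / 200, ?_⟩
  rintro d ⟨P, _, _, hne, hK, ⟨⟨s, hs, hc⟩, _⟩, rfl⟩
  exact three_le (fun x => (hK x).trans h4) hs hc.ge

theorem bal_top {K : ℕ} (hK : 1 ≤ K) : BalSet K (K + 1) = {1 / 2} := by
  ext d
  rw [Set.mem_singleton_iff]
  constructor
  · rintro ⟨P, _, _, hne, hT, ⟨⟨s, hs, hc⟩, _⟩, rfl⟩
    exact top_half hK hT hs hc
  · rintro rfl
    have h := An_mem (n := K + 1) (K := K) (by omega) le_rfl
    have h2 : balance (An (K + 1)) = 1 / 2 := by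
      obtain ⟨P, i1, i2, hne, hT, ⟨⟨s, hs, hc⟩, _⟩, h5⟩ := h
      rw [← h5]
      exact top_half hK hT hs hc
    rw [h2] at h
    exact h

theorem bal_empty {K w : ℕ} (hw : K + 1 < w) : BalSet K w = ∅ := by
  rw [Set.eq_empty_iff_forall_notMem]
  rintro d ⟨P, _, _, hne, hT, ⟨⟨s, hs, hc⟩, _⟩, _⟩
  have := anti_le hT hs
  omega

end Pool.Agent.H552.TH
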