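import Mathlib
import Pool.Agent.H552.TH.Width
import Pool.Graph.R_seed8.R636.BGap5

/-! Antichains with four elements in posets in which each element is incomparable to at most four others. -/

set_option autoImplicit false
set_option linter.unusedSectionVars false

open Finset

namespace Pool.Agent.H552.TH

open Pool.Agent.H13R3.WB Pool.Agent.H931R3.Bal Pool.Agent.R636.BG

variable {P : Type} [Fintype P] [PartialOrder P] {n : ℕ}

lemma ltf (f : LEn P n) {x y : P} (h : x < y) : f.1 x < f.1 y := lt_of_mono f.2 h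

lemma quarter {b z x1 x2 x3 : P} (hzb : ¬ z ≤ b) (h1 : x1 < z) (h2 : x2 < z) (h3 : x3 < z)
    (n1 : x1 ≠ b) (i2 : ¬ x2 ≤ b) (i3 : ¬ x3 ≤ b)
    (n12 : x1 ≠ x2) (n13 : x1 ≠ x3) (n23 : x2 ≠ x3)
    (D : ∀ w, w < b → w < x1 ∨ w < x2)
    (U2 : ∀ w, x2 < w → b < w ∨ w = z) (U3 : ∀ w, x3 < w → b < w ∨ w = z)
    (Uz : ∀ w, z < w → b < w) :
    4 * pb (fun f : LEn P n => (f.1 x1 < f.1 x2 ∧ f.1 x2 < f.1 x3) ∧ f.1 z < f.1 b) ≤
      pb (fun f : LEn P n => f.1 x1 < f.1 x2 ∧ f.1 x2 < f.1 x3) := by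
  have n2 : x2 ≠ b := fun h => i2 (h ▸ le_rfl)
  have n3 : x3 ≠ b := fun h => i3 (h ▸ le_rfl)
  have s01 : pb (fun f : LEn P n => (f.1 x1 < f.1 x2 ∧ f.1 x2 < f.1 x3) ∧ f.1 z < f.1 b) ≤
      pb (fun f : LEn P n => (f.1 x1 < f.1 x2 ∧ f.1 x2 < f.1 x3) ∧ f.1 x3 < f.1 b ∧ f.1 b < f.1 z) := by
    apply pb_swap z b
    · rintro f ⟨⟨f1, f2⟩, f3⟩
      refine ⟨f3, hzb, fun w hw => ?_, fun w hw => ltf f (Uz w hw)⟩
      rcases D w hw with h | h
      · exact (ltf f h).trans (ltf f h1)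
      · exact (ltf f h).trans (ltf f h2)
    · rintro f g ⟨⟨f1, f2⟩, f3⟩ g1 g2 g3
      rw [g3 x1 h1.ne n1, g3 x2 h2.ne n2, g3 x3 h3.ne n3, g1, g2]
      exact ⟨⟨f1, f2⟩, ltf f h3, f3⟩
  have s12 : pb (fun f : LEn P n => (f.1 x1 < f.1 x2 ∧ f.1 x2 < f.1 x3) ∧ f.1 x3 < f.1 b ∧ f.1 b < f.1 z) ≤
      pb (fun f : LEn P n => (f.1 x1 < f.1 x2 ∧ f.1 x2 < f.1 x3) ∧ f.1 x2 < f.1 b ∧ f.1 b < f.1 x3) := by
    apply pb_swap x3 b
    · rintro f ⟨⟨f1, f2⟩, f3, f4⟩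
      refine ⟨f3, i3, fun w hw => ?_, fun w hw => ?_⟩
      · rcases D w hw with h | h
        · exact (ltf f h).trans (f1.trans f2)
        · exact (ltf f h).trans f2
      · rcases U3 w hw with h | h
        · exact ltf f h
        · rw [h]; exact f4
    · rintro f g ⟨⟨f1, f2⟩, f3, f4⟩ g1 g2 g3
      rw [g3 x1 n13 n1, g3 x2 n23 n2, g1, g2]
      exact ⟨⟨f1, f2.trans f3⟩, f2, f3⟩
  have s23 : pb (fun f : LEn P n => (f.1 x1 < f.1 x2 ∧ f.1 x2 < f.1 x3) ∧ f.1 x2 < f.1 b ∧ f.1 b < f.1 x3) ≤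
      pb (fun f : LEn P n => (f.1 x1 < f.1 x2 ∧ f.1 x2 < f.1 x3) ∧ f.1 x1 < f.1 b ∧ f.1 b < f.1 x2) := by
    apply pb_swap x2 b
    · rintro f ⟨⟨f1, f2⟩, f3, f4⟩
      refine ⟨f3, i2, fun w hw => ?_, fun w hw => ?_⟩
      · rcases D w hw with h | h
        · exact (ltf f h).trans f1
        · exact ltf f h
      · rcases U2 w hw with h | h
        · exact ltf f h
        · rw [h]; exact f4.trans (ltf f h3)
    · rintro f g ⟨⟨f1, f2⟩, f3, f4⟩ g1 g2 g3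
      rw [g3 x1 n12 n1, g3 x3 n23.symm n3, g1, g2]
      exact ⟨⟨f1.trans f3, f4⟩, f1, f3⟩
  have d1 := pb_disj (P := P) (n := n)
    (A := fun f => (f.1 x1 < f.1 x2 ∧ f.1 x2 < f.1 x3) ∧ f.1 x3 < f.1 b)
    (B := fun f => (f.1 x1 < f.1 x2 ∧ f.1 x2 < f.1 x3) ∧ f.1 z < f.1 b)
    (C := fun f => (f.1 x1 < f.1 x2 ∧ f.1 x2 < f.1 x3) ∧ f.1 x3 < f.1 b ∧ f.1 b < f.1 z)
    (fun f hf => ⟨hf.1, (ltf f h3).trans hf.2⟩) (fun f hf => ⟨hf.1, hf.2.1⟩)
    (fun f hf hg => absurd (hf.2.trans hg.2.2) (lt_irrefl _))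
  have d2 := pb_disj (P := P) (n := n)
    (A := fun f => (f.1 x1 < f.1 x2 ∧ f.1 x2 < f.1 x3) ∧ ¬ f.1 x3 < f.1 b)
    (B := fun f => (f.1 x1 < f.1 x2 ∧ f.1 x2 < f.1 x3) ∧ f.1 x2 < f.1 b ∧ f.1 b < f.1 x3)
    (C := fun f => (f.1 x1 < f.1 x2 ∧ f.1 x2 < f.1 x3) ∧ f.1 x1 < f.1 b ∧ f.1 b < f.1 x2)
    (fun f hf => ⟨hf.1, fun h => absurd (h.trans hf.2.2) (lt_irrefl _)⟩)
    (fun f hf => ⟨hf.1, fun h => absurd ((h.trans hf.2.2).trans hf.1.2) (lt_irrefl _)⟩)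
    (fun f hf hg => absurd (hf.2.1.trans hg.2.2) (lt_irrefl _))
  have sp := pb_split (P := P) (n := n) (fun f => f.1 x1 < f.1 x2 ∧ f.1 x2 < f.1 x3)
    (fun f => f.1 x3 < f.1 b)
  rw [sp]
  linarith

lemma six (E : LEn P n → Prop) {a c d : P} (h1 : a ≠ c) (h2 : a ≠ d) (h3 : c ≠ d) :
    pb E = pb (fun f => (f.1 a < f.1 c ∧ f.1 c < f.1 d) ∧ E f) +
      pb (fun f => (f.1 a < f.1 d ∧ f.1 d < f.1 c) ∧ E f) +
      pb (fun f => (f.1 d < f.1 a ∧ f.1 a < f.1 c) ∧ E f) +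
      pb (fun f => (f.1 c < f.1 a ∧ f.1 a < f.1 d) ∧ E f) +
      pb (fun f => (f.1 c < f.1 d ∧ f.1 d < f.1 a) ∧ E f) +
      pb (fun f => (f.1 d < f.1 c ∧ f.1 c < f.1 a) ∧ E f) := by
  have k : ∀ (f : LEn P n) {u v : P}, u ≠ v → ((f.1 u : Fin n) : ℕ) ≠ (f.1 v : ℕ) := by
    intro f u v huv h
    exact huv (f.1.injective (Fin.ext h))
  rw [pb_split E (fun f => f.1 a < f.1 c),
    pb_split (fun f => E f ∧ f.1 a < f.1 c) (fun f => f.1 c < f.1 d),
    pb_split (fun f => (E f ∧ f.1 a < f.1 c) ∧ ¬ f.1 c < f.1 d) (fun f => f.1 a < f.1 d),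
    pb_split (fun f => E f ∧ ¬ f.1 a < f.1 c) (fun f => f.1 a < f.1 d),
    pb_split (fun f => (E f ∧ ¬ f.1 a < f.1 c) ∧ ¬ f.1 a < f.1 d) (fun f => f.1 c < f.1 d)]
  have c1 : pb (fun f : LEn P n => (E f ∧ f.1 a < f.1 c) ∧ f.1 c < f.1 d) =
      pb (fun f => (f.1 a < f.1 c ∧ f.1 c < f.1 d) ∧ E f) := pb_congr fun f => by tauto
  have c2 : pb (fun f : LEn P n => ((E f ∧ f.1 a < f.1 c) ∧ ¬ f.1 c < f.1 d) ∧ f.1 a < f.1 d) =
      pb (fun f => (f.1 a < f.1 d ∧ f.1 d < f.1 c) ∧ E f) := pb_congr fun f => by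
    have := k f h1; have := k f h2; have := k f h3
    simp only [Fin.lt_def]
    constructor
    · rintro ⟨⟨⟨e, p1⟩, p2⟩, p3⟩; exact ⟨⟨p3, by omega⟩, e⟩
    · rintro ⟨⟨p1, p2⟩, e⟩; exact ⟨⟨⟨e, by omega⟩, by omega⟩, p1⟩
  have c3 : pb (fun f : LEn P n => ((E f ∧ f.1 a < f.1 c) ∧ ¬ f.1 c < f.1 d) ∧ ¬ f.1 a < f.1 d) =
      pb (fun f => (f.1 d < f.1 a ∧ f.1 a < f.1 c) ∧ E f) := pb_congr fun f => by
    have := k f h1; have := k f h2; have := k f h3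
    simp only [Fin.lt_def]
    constructor
    · rintro ⟨⟨⟨e, p1⟩, p2⟩, p3⟩; exact ⟨⟨by omega, p1⟩, e⟩
    · rintro ⟨⟨p1, p2⟩, e⟩; exact ⟨⟨⟨e, p2⟩, by omega⟩, by omega⟩
  have c4 : pb (fun f : LEn P n => (E f ∧ ¬ f.1 a < f.1 c) ∧ f.1 a < f.1 d) =
      pb (fun f => (f.1 c < f.1 a ∧ f.1 a < f.1 d) ∧ E f) := pb_congr fun f => by
    have := k f h1; have := k f h2; have := k f h3
    simp only [Fin.lt_def]
    constructor
    · rintro ⟨⟨e, p1⟩, p2⟩; exact ⟨⟨by omega, p2⟩, e⟩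
    · rintro ⟨⟨p1, p2⟩, e⟩; exact ⟨⟨e, by omega⟩, p2⟩
  have c5 : pb (fun f : LEn P n => ((E f ∧ ¬ f.1 a < f.1 c) ∧ ¬ f.1 a < f.1 d) ∧ f.1 c < f.1 d) =
      pb (fun f => (f.1 c < f.1 d ∧ f.1 d < f.1 a) ∧ E f) := pb_congr fun f => by
    have := k f h1; have := k f h2; have := k f h3
    simp only [Fin.lt_def]
    constructor
    · rintro ⟨⟨⟨e, p1⟩, p2⟩, p3⟩; exact ⟨⟨p3, by omega⟩, e⟩
    · rintro ⟨⟨p1, p2⟩, e⟩; exact ⟨⟨⟨e, by omega⟩, by omega⟩, p1⟩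
  have c6 : pb (fun f : LEn P n => ((E f ∧ ¬ f.1 a < f.1 c) ∧ ¬ f.1 a < f.1 d) ∧ ¬ f.1 c < f.1 d) =
      pb (fun f => (f.1 d < f.1 c ∧ f.1 c < f.1 a) ∧ E f) := pb_congr fun f => by
    have := k f h1; have := k f h2; have := k f h3
    simp only [Fin.lt_def]
    constructor
    · rintro ⟨⟨⟨e, p1⟩, p2⟩, p3⟩; exact ⟨⟨by omega, by omega⟩, e⟩
    · rintro ⟨⟨p1, p2⟩, e⟩; exact ⟨⟨⟨e, by omega⟩, by omega⟩, by omega⟩
  rw [c1, c2, c3, c4, c5, c6]
  ring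

lemma quarterE (hn : Fintype.card P = n) {b z x1 x2 x3 : P} (hzb : ¬ z ≤ b) (h1 : x1 < z)
    (h2 : x2 < z) (h3 : x3 < z) (i1 : ¬ x1 ≤ b) (i2 : ¬ x2 ≤ b) (i3 : ¬ x3 ≤ b)
    (n12 : x1 ≠ x2) (n13 : x1 ≠ x3) (n23 : x2 ≠ x3)
    (D12 : ∀ w, w < b → w < x1 ∨ w < x2) (D13 : ∀ w, w < b → w < x1 ∨ w < x3)
    (D23 : ∀ w, w < b → w < x2 ∨ w < x3)
    (U1 : ∀ w, x1 < w → b < w ∨ w = z)
    (U2 : ∀ w, x2 < w → b < w ∨ w = z) (U3 : ∀ w, x3 < w → b < w ∨ w = z)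
    (Uz : ∀ w, z < w → b < w) : pb (fun f : LEn P n => f.1 z < f.1 b) ≤ 1 / 4 := by
  have m1 : x1 ≠ b := fun h => i1 (h ▸ le_rfl)
  have m2 : x2 ≠ b := fun h => i2 (h ▸ le_rfl)
  have m3 : x3 ≠ b := fun h => i3 (h ▸ le_rfl)
  have e := six (P := P) (n := n) (fun f => f.1 z < f.1 b) n12 n13 n23
  have t := six (P := P) (n := n) (fun _ => True) n12 n13 n23
  have tt : pb (fun _ : LEn P n => True) = 1 := pb_true hn (fun _ => trivial)
  simp only [and_true] at t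
  have q1 := quarter (n := n) hzb h1 h2 h3 m1 i2 i3 n12 n13 n23 D12 U2 U3 Uz
  have q2 := quarter (n := n) hzb h1 h3 h2 m1 i3 i2 n13 n12 n23.symm D13 U3 U2 Uz
  have q3 := quarter (n := n) hzb h3 h1 h2 m3 i1 i2 n13.symm n23.symm n12
    (fun w hw => (D13 w hw).symm) U1 U2 Uz
  have q4 := quarter (n := n) hzb h2 h1 h3 m2 i1 i3 n12.symm n23 n13
    (fun w hw => (D12 w hw).symm) U1 U3 Uz
  have q5 := quarter (n := n) hzb h2 h3 h1 m2 i3 i1 n23 n12.symm n13.symm D23 U3 U1 Uz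
  have q6 := quarter (n := n) hzb h3 h2 h1 m3 i2 i1 n23.symm n13.symm n12.symm
    (fun w hw => (D23 w hw).symm) U2 U1 Uz
  linarith

/-- `x` and `y` are incomparable -/
def Inc (x y : P) : Prop := ¬ x ≤ y ∧ ¬ y ≤ x

open scoped Classical in
lemma inc_eq {K : ℕ} (hK : Thin K P) {x : P} {t : Finset P} (ht : ∀ y ∈ t, Inc x y)
    (hc : K ≤ t.card) {w : P} (hw : Inc x w) : w ∈ t := by
  have h2 := hK x
  rw [inc_card] at h2
  have h1 : t ⊆ univ.filter (fun y => ¬ x ≤ y ∧ ¬ y ≤ x) := fun y hy =>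
    mem_filter.2 ⟨mem_univ _, ht y hy⟩
  rw [eq_of_subset_of_card_le h1 (by omega)]
  exact mem_filter.2 ⟨mem_univ _, hw⟩

lemma defect (hn : Fintype.card P = n) (hK : Thin 4 P) {s : Finset P}
    (hs : IsAntichain (· ≤ ·) (s : Set P)) (hc : s.card = 4)
    (Hd : ∀ x ∈ s, ∀ y ∈ s, x ≠ y → ∀ w, w ∉ s → ¬ (Inc x w ∧ Inc y w)) {b : P} (hb : b ∈ s)
    (hup : ∀ w, w ∉ s → Inc b w → ∀ y ∈ s, ¬ w < y) :
    pb (fun f : LEn P n => ∃ z, z ∉ s ∧ Inc b z ∧ f.1 z < f.1 b) ≤ 1 / 4 := by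
  classical
  by_cases hz : ∃ z, z ∉ s ∧ Inc b z
  swap
  · have h0 : pb (fun f : LEn P n => ∃ z, z ∉ s ∧ Inc b z ∧ f.1 z < f.1 b) ≤
        pb (fun f : LEn P n => f.1 b < f.1 b) := pb_mono fun f hf => by
      obtain ⟨z, z1, z2, _⟩ := hf
      exact absurd ⟨z, z1, z2⟩ hz
    have h1 := pb_disj (P := P) (n := n) (A := fun _ => True) (B := fun f => f.1 b < f.1 b)
      (C := fun _ => True) (fun _ _ => trivial) (fun _ _ => trivial)
      (fun f hf _ => absurd hf (lt_irrefl _))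
    linarith
  obtain ⟨z, zs, zb⟩ := hz
  have hce : (s.erase b).card = 3 := by rw [card_erase_of_mem hb, hc]
  obtain ⟨x1, x2, x3, n12, n13, n23, he⟩ := card_eq_three.1 hce
  have g : ∀ x, x ∈ s.erase b → x ∈ s ∧ x ≠ b := fun x hx => ⟨(mem_erase.1 hx).2, (mem_erase.1 hx).1⟩
  have m1 := g x1 (by rw [he]; simp)
  have m2 := g x2 (by rw [he]; simp)
  have m3 := g x3 (by rw [he]; simp)
  have lz : ∀ x, x ∈ s → x ≠ b → x < z := by
    intro x hx hxb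
    have h1 := Hd x hx b hb hxb z zs
    have h2 := hup z zs zb x hx
    have hne : x ≠ z := fun h => zs (h ▸ hx)
    by_contra hcon
    apply h1
    refine ⟨⟨fun h => hcon (lt_of_le_of_ne h hne), fun h => h2 (lt_of_le_of_ne h hne.symm)⟩, zb⟩
  have INC : ∀ w, Inc b w → w = x1 ∨ w = x2 ∨ w = x3 ∨ w = z := by
    intro w hw
    have h1 : w ∈ insert z (s.erase b) := by
      refine inc_eq hK ?_ ?_ hw
      · intro y hy
        rw [mem_insert] at hy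
        rcases hy with rfl | hy
        · exact zb
        · exact ⟨hs hb (g y hy).1 (g y hy).2.symm, hs (g y hy).1 hb (g y hy).2⟩
      · rw [card_insert_of_notMem (fun h => zs (g z h).1), hce]
    rw [he] at h1
    simp only [mem_insert, mem_singleton] at h1
    tauto
  have Dg : ∀ x y, x ∈ s → y ∈ s → x ≠ y → x ≠ b → y ≠ b → ∀ w, w < b → w < x ∨ w < y := by
    intro x y hx hy hxy hxb hyb w hw
    have ws : w ∉ s := fun h => hs h hb hw.ne hw.le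
    by_contra hcon
    push Not at hcon
    apply Hd x hx y hy hxy w ws
    have key : ∀ u, u ∈ s → u ≠ b → ¬ w < u → Inc u w := by
      intro u hu hub hwu
      refine ⟨fun h => hs hu hb hub (h.trans hw.le), fun h => ?_⟩
      rcases h.lt_or_eq with h' | h'
      · exact hwu h'
      · exact ws (h' ▸ hu)
    exact ⟨key x hx hxb hcon.1, key y hy hyb hcon.2⟩
  have Ug : ∀ x, x ∈ s → x ≠ b → ∀ w, x < w → b < w ∨ w = z := by
    intro x hx hxb w hw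
    by_cases hbw : b < w
    · exact Or.inl hbw
    right
    have hwb : ¬ w ≤ b := fun h => hs hx hb hxb (hw.le.trans h)
    have hbw' : ¬ b ≤ w := fun h => by
      rcases h.lt_or_eq with h' | h'
      · exact hbw h'
      · exact hwb h'.ge
    have hws : w ∉ s := fun h => hs hx h hw.ne hw.le
    rcases INC w ⟨hbw', hwb⟩ with h | h | h | h
    · exact absurd (h ▸ m1.1) hws
    · exact absurd (h ▸ m2.1) hws
    · exact absurd (h ▸ m3.1) hws
    · exact h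
  have Uz : ∀ w, z < w → b < w := by
    intro w hw
    by_contra hbw
    have hwb : ¬ w ≤ b := fun h => zb.2 (hw.le.trans h)
    have hbw' : ¬ b ≤ w := fun h => by
      rcases h.lt_or_eq with h' | h'
      · exact hbw h'
      · exact hwb h'.ge
    rcases INC w ⟨hbw', hwb⟩ with h | h | h | h
    · exact absurd ((lz x1 m1.1 m1.2).trans hw) (by rw [h]; exact lt_irrefl _)
    · exact absurd ((lz x2 m2.1 m2.2).trans hw) (by rw [h]; exact lt_irrefl _)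
    · exact absurd ((lz x3 m3.1 m3.2).trans hw) (by rw [h]; exact lt_irrefl _)
    · exact absurd hw (by rw [h]; exact lt_irrefl _)
  refine (pb_mono fun f hf => ?_).trans (quarterE hn zb.2 (lz x1 m1.1 m1.2) (lz x2 m2.1 m2.2)
    (lz x3 m3.1 m3.2) (hs m1.1 hb m1.2) (hs m2.1 hb m2.2) (hs m3.1 hb m3.2) n12 n13 n23
    (Dg x1 x2 m1.1 m2.1 n12 m1.2 m2.2) (Dg x1 x3 m1.1 m3.1 n13 m1.2 m3.2)
    (Dg x2 x3 m2.1 m3.1 n23 m2.2 m3.2) (Ug x1 m1.1 m1.2) (Ug x2 m2.1 m2.2) (Ug x3 m3.1 m3.2) Uz)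
  obtain ⟨w, w1, w2, w3⟩ := hf
  rcases INC w w2 with h | h | h | h
  · exact absurd (h ▸ m1.1) w1
  · exact absurd (h ▸ m2.1) w1
  · exact absurd (h ▸ m3.1) w1
  · rw [h] at w3; exact w3

lemma half_side (hK : Thin 4 P) (hn : Fintype.card P = n) {s : Finset P}
    (hs : IsAntichain (· ≤ ·) (s : Set P)) (hc : s.card = 4)
    (Hd : ∀ x ∈ s, ∀ y ∈ s, x ≠ y → ∀ w, w ∉ s → ¬ (Inc x w ∧ Inc y w)) {a b : P} (ha : a ∈ s)
    (hb : b ∈ s) (hab : a ≠ b)
    (hupa : ∀ w, w ∉ s → Inc a w → ∀ y ∈ s, ¬ w < y)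
    (hupb : ∀ w, w ∉ s → Inc b w → ∀ y ∈ s, ¬ w < y) :
    pb (fun f : LEn P n => f.1 a < f.1 b) ≤ pb (fun f : LEn P n => f.1 b < f.1 a) + 1 / 4 := by
  classical
  have h1 := defect hn hK hs hc Hd hb hupb
  have h2 := pb_split (P := P) (n := n) (fun f => f.1 a < f.1 b)
    (fun f => ∃ z, z ∉ s ∧ Inc b z ∧ f.1 z < f.1 b)
  have h3 : pb (fun f : LEn P n => f.1 a < f.1 b ∧ ∃ z, z ∉ s ∧ Inc b z ∧ f.1 z < f.1 b) ≤
      pb (fun f : LEn P n => ∃ z, z ∉ s ∧ Inc b z ∧ f.1 z < f.1 b) := pb_mono fun f hf => hf.2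
  have h4 : pb (fun f : LEn P n => f.1 a < f.1 b ∧ ¬ ∃ z, z ∉ s ∧ Inc b z ∧ f.1 z < f.1 b) ≤
      pb (fun f : LEn P n => f.1 b < f.1 a) := by
    apply pb_swap a b
    · rintro f ⟨f1, f2⟩
      refine ⟨f1, hs ha hb hab, fun w hw => ?_, fun w hw => ?_⟩
      · have ws : w ∉ s := fun h => hs h hb hw.ne hw.le
        have hwa : w < a := by
          by_contra hcon
          refine hupa w ws ⟨fun h => hs ha hb hab (h.trans hw.le), fun h => ?_⟩ b hb hw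
          rcases h.lt_or_eq with h' | h'
          · exact hcon h'
          · exact ws (h' ▸ ha)
        exact ltf f hwa
      · have ws : w ∉ s := fun h => hs ha h hw.ne hw.le
        by_cases hbw : b < w
        · exact ltf f hbw
        · have hwb : ¬ w ≤ b := fun h => hs ha hb hab (hw.le.trans h)
          have hbw' : ¬ b ≤ w := fun h => by
            rcases h.lt_or_eq with h' | h'
            · exact hbw h'
            · exact hwb h'.ge
          have h5 : ¬ f.1 w < f.1 b := fun h => f2 ⟨w, ws, ⟨hbw', hwb⟩, h⟩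
          refine lt_of_le_of_ne (not_lt.1 h5) fun h => ?_
          exact hwb (f.1.injective h ▸ le_rfl)
    · rintro f g ⟨f1, f2⟩ g1 g2 _
      rw [g1, g2]
      exact f1
  linarith

theorem same_side (hK : Thin 4 P) {s : Finset P}
    (hs : IsAntichain (· ≤ ·) (s : Set P)) (hc : s.card = 4)
    (Hd : ∀ x ∈ s, ∀ y ∈ s, x ≠ y → ∀ w, w ∉ s → ¬ (Inc x w ∧ Inc y w)) {a b : P} (ha : a ∈ s)
    (hb : b ∈ s) (hab : a ≠ b)
    (hupa : ∀ w, w ∉ s → Inc a w → ∀ y ∈ s, ¬ w < y)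
    (hupb : ∀ w, w ∉ s → Inc b w → ∀ y ∈ s, ¬ w < y) : 3 / 8 ≤ balance P := by
  have h1 := half_side hK rfl hs hc Hd ha hb hab hupa hupb
  have h2 := half_side hK rfl hs hc Hd hb ha hab.symm hupb hupa
  have h3 := pb_lt_add (P := P) rfl hab
  have h4 := Pool.Agent.H931R3.Bal.le_balance (P := P) a b
  rw [prob_pb rfl, prob_pb rfl] at h4
  refine le_trans (le_min ?_ ?_) h4
  · linarith
  · linarith

theorem four_le [Nonempty P] (hK : Thin 4 P) {s : Finset P} (hs : IsAntichain (· ≤ ·) (s : Set P))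
    (hc : s.card = 4) : 3 / 8 ≤ balance P := by
  classical
  by_cases Hd : ∀ x ∈ s, ∀ y ∈ s, x ≠ y → ∀ w, w ∉ s → ¬ (Inc x w ∧ Inc y w)
  · by_cases hT : 2 ≤ (s.filter (fun x => ∀ w, w ∉ s → Inc x w → ∀ y ∈ s, ¬ w < y)).card
    · obtain ⟨a, ha, b, hb, hab⟩ := Finset.one_lt_card.1 hT
      rw [mem_filter] at ha hb
      exact same_side hK hs hc Hd ha.1 hb.1 hab ha.2 hb.2
    · have h1 := card_filter_add_card_filter_not (s := s)
        (fun x => ∀ w, w ∉ s → Inc x w → ∀ y ∈ s, ¬ w < y)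
      obtain ⟨a, ha, b, hb, hab⟩ := Finset.one_lt_card.1 (show 1 < (s.filter (fun x =>
        ¬ ∀ w, w ∉ s → Inc x w → ∀ y ∈ s, ¬ w < y)).card by omega)
      rw [mem_filter] at ha hb
      -- no defect above
      have key : ∀ x ∈ s, (¬ ∀ w, w ∉ s → Inc x w → ∀ y ∈ s, ¬ w < y) →
          ∀ w, w ∉ s → Inc x w → ∀ y ∈ s, ¬ y < w := by
        intro x hx hcon w hw hxw y hy hyw
        push Not at hcon
        obtain ⟨v, v1, v2, u, v3, v4⟩ := hcon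
        have hvw : w ∈ insert v (s.erase x) := by
          refine inc_eq hK ?_ ?_ hxw
          · intro t ht
            rw [mem_insert] at ht
            rcases ht with rfl | ht
            · exact v2
            · rw [mem_erase] at ht
              exact ⟨hs hx ht.2 ht.1.symm, hs ht.2 hx ht.1⟩
          · rw [card_insert_of_notMem (fun h => v1 (mem_erase.1 h).2), card_erase_of_mem hx, hc]
        rw [mem_insert] at hvw
        rcases hvw with h | h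
        · rw [h] at hyw
          exact hs hy v3 (hyw.trans v4).ne (hyw.trans v4).le
        · exact hw (mem_erase.1 h).2
      rw [← Pool.Agent.R636.BG.balance_dual P]
      have hKd : Thin 4 Pᵒᵈ := by
        intro x
        have h2 := hK (OrderDual.ofDual x)
        have h3 : Nat.card {y : Pᵒᵈ // ¬ x ≤ y ∧ ¬ y ≤ x} =
            Nat.card {y : P // ¬ OrderDual.ofDual x ≤ y ∧ ¬ y ≤ OrderDual.ofDual x} :=
          Nat.card_congr (Equiv.subtypeEquiv OrderDual.ofDual fun y => and_comm)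
        rw [h3]
        exact h2
      refine same_side (P := Pᵒᵈ) hKd (s := s.map OrderDual.toDual.toEmbedding) ?_ ?_ ?_
        (a := OrderDual.toDual a) (b := OrderDual.toDual b) ?_ ?_ ?_ ?_ ?_
      · intro x hx y hy hxy hle
        rw [mem_coe, mem_map_equiv] at hx hy
        exact hs hy hx (fun h => hxy (OrderDual.toDual.symm.injective h).symm) hle
      · rw [card_map]; exact hc
      · intro x hx y hy hxy w hw hxyw
        rw [mem_map_equiv] at hx hy hw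
        exact Hd _ hx _ hy (fun h => hxy (OrderDual.toDual.symm.injective h)) _ hw
          ⟨⟨hxyw.1.2, hxyw.1.1⟩, ⟨hxyw.2.2, hxyw.2.1⟩⟩
      · rw [mem_map_equiv]; exact ha.1
      · rw [mem_map_equiv]; exact hb.1
      · exact fun h => hab (OrderDual.toDual.injective h)
      · intro w hw hwi y hy hwy
        rw [mem_map_equiv] at hw hy
        exact key a ha.1 ha.2 _ hw ⟨hwi.2, hwi.1⟩ _ hy hwy
      · intro w hw hwi y hy hwy
        rw [mem_map_equiv] at hw hy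
        exact key b hb.1 hb.2 _ hw ⟨hwi.2, hwi.1⟩ _ hy hwy
  · push Not at Hd
    obtain ⟨x, hx, y, hy, hxy, w, hw, hxw, hyw⟩ := Hd
    have hcmp : ∀ c ∈ s, Inc c w → ∀ z, z ∉ s → z ≠ w → z ≤ c ∨ c ≤ z := by
      intro c hc' hcw z hz hzw
      by_contra hcon
      push Not at hcon
      have h1 : z ∈ insert w (s.erase c) := by
        refine inc_eq hK ?_ ?_ ⟨hcon.2, hcon.1⟩
        · intro t ht
          rw [mem_insert] at ht
          rcases ht with rfl | ht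
          · exact hcw
          · rw [mem_erase] at ht
            exact ⟨hs hc' ht.2 ht.1.symm, hs ht.2 hc' ht.1⟩
        · rw [card_insert_of_notMem (fun h => hw (mem_erase.1 h).2), card_erase_of_mem hc', hc]
      rw [mem_insert] at h1
      rcases h1 with h | h
      · exact hzw h
      · exact hz (mem_erase.1 h).2
    have hxy1 : ¬ x ≤ y := hs hx hy hxy
    have hyx1 : ¬ y ≤ x := hs hy hx hxy.symm
    have hp := twin hxy1 hyx1 (fun z hzx hzy => by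
      by_cases hz : z ∈ s
      · exact ⟨⟨fun h => absurd h (hs hz hx hzx), fun h => absurd h (hs hz hy hzy)⟩,
          ⟨fun h => absurd h (hs hx hz hzx.symm), fun h => absurd h (hs hy hz hzy.symm)⟩⟩
      · by_cases hzw : z = w
        · rw [hzw]
          exact ⟨⟨fun h => absurd h hxw.2, fun h => absurd h hyw.2⟩,
            ⟨fun h => absurd h hxw.1, fun h => absurd h hyw.1⟩⟩
        · have h1 := hcmp x hx hxw z hz hzw
          have h2 := hcmp y hy hyw z hz hzw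
          refine ⟨⟨fun h => ?_, fun h => ?_⟩, ⟨fun h => ?_, fun h => ?_⟩⟩
          · exact h2.resolve_right (fun h' => hyx1 (h'.trans h))
          · exact h1.resolve_right (fun h' => hxy1 (h'.trans h))
          · exact h2.resolve_left (fun h' => hxy1 (h.trans h'))
          · exact h1.resolve_left (fun h' => hyx1 (h.trans h')))
    have h2 := Pool.Agent.H931R3.Bal.prob_add (P := P) hxy
    have h3 := Pool.Agent.H931R3.Bal.le_balance (P := P) x y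
    have h4 : prob P y x = 1 / 2 := by linarith
    rw [hp, h4, min_self] at h3
    linarith

theorem bal_four : 3 / 8 ≤ sInf (BalSet 4 4) ∧ sInf (BalSet 4 4) ≤ 1 / 2 := by
  have hlow : ∀ d ∈ BalSet 4 4, (3 / 8 : ℝ) ≤ d := by
    rintro d ⟨P, _, _, hne, hK, ⟨⟨s, hs, hc⟩, _⟩, rfl⟩
    exact four_le hK hs hc
  have h4 := An_mem (n := 4) (K := 4) (by norm_num) (by norm_num)
  have hne : Nonempty (An 4) := ⟨(0 : Fin 4)⟩
  exact ⟨le_csInf ⟨_, h4⟩ hlow, (csInf_le ⟨3 / 8, hlow⟩ h4).trans balance_half⟩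

end Pool.Agent.H552.TH
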